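import Pool.Agent.Lib.NSqD.Defs
import Pool.Agent.Lib.NSqP.PiA

/-!
# NCT: the number of `m` with `m + i` divisible by given primes

PROOF: if some `m0 + i` is divisible by all `p ∈ G`, then by `P = ∏ p` (distinct elements of `IsPi` are
not associated: `Finset.prod_primes_dvd`), `P` is primitive (an integer dividing `P` divides the
coefficient 1 of `i`), and for every other such `m` the integer `m - m0` is divisible by `P`, hence by
`N P = ∏ N p` (`P * w = k` gives `w = k * star P / N P`, and the coefficients of `star P` are coprime).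
An interval of length `2 X` contains at most `2 X / N + 1 ≤ 3 X / N` integers of a class modulo
`N ≤ X`. The same for `P = p ^ 2`.
-/

set_option autoImplicit false

namespace Pool.Agent.NSqD

open Real
open Pool.Agent.NSqP

private lemma nct_norm (P : GaussianInt) (m m0 : ℤ) (h0 : P ∣ zm m0) (h1 : P ∣ zm m) :
    (nN P : ℤ) ∣ m - m0 := by
  obtain ⟨u, hu⟩ := h0
  have hco : IsCoprime P.re P.im := by
    refine ⟨u.im, u.re, ?_⟩
    have h := congrArg Zsqrtd.im hu
    simp only [zm, Zsqrtd.im_mul] at h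
    linarith
  obtain ⟨w, hw⟩ := dvd_sub h1 (⟨u, hu⟩ : P ∣ zm m0)
  have hre := congrArg Zsqrtd.re hw
  have him := congrArg Zsqrtd.im hw
  simp only [zm, Zsqrtd.re_sub, Zsqrtd.im_sub, Zsqrtd.re_mul, Zsqrtd.im_mul] at hre him
  have hn : (nN P : ℤ) = P.re * P.re + P.im * P.im := by
    rw [nN, Int.natAbs_of_nonneg (by rw [Zsqrtd.norm_def]; nlinarith [sq_nonneg P.re, sq_nonneg P.im]),
      Zsqrtd.norm_def]
    ring
  obtain ⟨a, b, hab⟩ := hco
  have e1 : (m - m0) * P.re = (nN P : ℤ) * w.re := by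
    rw [hn, hre]; linear_combination (P.im) * him
  have e2 : (m - m0) * P.im = (nN P : ℤ) * (-w.im) := by
    rw [hn, hre]; linear_combination (-P.re) * him
  refine ⟨a * w.re + b * (-w.im), ?_⟩
  calc m - m0 = (m - m0) * (a * P.re + b * P.im) := by rw [hab, mul_one]
    _ = a * ((m - m0) * P.re) + b * ((m - m0) * P.im) := by ring
    _ = _ := by rw [e1, e2]; ring

private lemma nct_count (S : Finset ℤ) (X N : ℕ) (hN : 0 < N) (hX : N ≤ X)
    (hS : S ⊆ Finset.Icc (-(X : ℤ)) X)
    (hd : ∀ m ∈ S, ∀ m' ∈ S, (N : ℤ) ∣ m - m') : (S.card : ℝ) ≤ 3 * X / N := by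
  have hNz : (0 : ℤ) < N := by exact_mod_cast hN
  have h1 : S.card ≤ (Finset.range (2 * X / N + 1)).card := by
    apply Finset.card_le_card_of_injOn (fun m => ((m + X) / (N : ℤ)).toNat)
    · intro m hm
      have hm' := Finset.mem_Icc.1 (hS hm)
      have h2 : (m + X) / (N : ℤ) ≤ (2 * X : ℤ) / N :=
        Int.ediv_le_ediv hNz (by linarith [hm'.2])
      have h3 : ((2 * X / N : ℕ) : ℤ) = (2 * X : ℤ) / N := by push_cast; rfl
      rw [← h3] at h2
      simp only [Finset.coe_range, Set.mem_Iio]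
      generalize (2 * X / N : ℕ) = c at h2 ⊢
      generalize (m + X) / (N : ℤ) = d at h2 ⊢
      omega
    · intro m hm m' hm' h
      have a1 := Finset.mem_Icc.1 (hS hm)
      have a2 := Finset.mem_Icc.1 (hS hm')
      have b1 : 0 ≤ (m + X) / (N : ℤ) := Int.ediv_nonneg (by linarith [a1.1]) hNz.le
      have b2 : 0 ≤ (m' + X) / (N : ℤ) := Int.ediv_nonneg (by linarith [a2.1]) hNz.le
      have h' : (m + X) / (N : ℤ) = (m' + X) / (N : ℤ) := by
        simp only at h
        omega
      obtain ⟨k, hk⟩ := hd m hm m' hm'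
      have c1 := Int.emod_add_mul_ediv (m + X) N
      have c2 := Int.emod_add_mul_ediv (m' + X) N
      have d1 := Int.emod_nonneg (m + X) hNz.ne'
      have d2 := Int.emod_nonneg (m' + X) hNz.ne'
      have e1 := Int.emod_lt_of_pos (m + X) hNz
      have e2 := Int.emod_lt_of_pos (m' + X) hNz
      rw [h'] at c1
      have f1 : (N : ℤ) * k < N := by linarith
      have f2 : -(N : ℤ) < N * k := by linarith
      have k1 : k < 1 := by
        by_contra hk'
        push Not at hk'
        nlinarith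
      have k2 : -1 < k := by
        by_contra hk'
        push Not at hk'
        nlinarith
      have k0 : k = 0 := by omega
      rw [k0, mul_zero] at hk
      linarith
  rw [Finset.card_range] at h1
  have hN' : (0 : ℝ) < N := by exact_mod_cast hN
  have hX' : (N : ℝ) ≤ X := by exact_mod_cast hX
  have h2 : ((2 * X / N : ℕ) : ℝ) ≤ 2 * X / N := by
    have := @Nat.cast_div_le ℝ _ _ _ (2 * X) N
    simpa using this
  have h3 : (1 : ℝ) ≤ X / N := by rwa [le_div_iff₀ hN', one_mul]
  calc (S.card : ℝ) ≤ ((2 * X / N + 1 : ℕ) : ℝ) := by exact_mod_cast h1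
    _ ≤ 2 * X / N + X / N := by push_cast; linarith
    _ = 3 * X / N := by ring

private lemma nct_prod (G : Finset GaussianInt) :
    (nN (∏ p ∈ G, p) : ℝ) = ∏ p ∈ G, (nN p : ℝ) := by
  classical
  induction G using Finset.induction_on with
  | empty => simp [nN]
  | insert a s ha ih => rw [Finset.prod_insert ha, Finset.prod_insert ha, nN_mul, ← ih]; push_cast; ring

private lemma nct_pos (P : GaussianInt) (m : ℤ) (h : P ∣ zm m) : 0 < nN P := by
  rcases Nat.eq_zero_or_pos (nN P) with h0 | h0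
  · exfalso
    have h1 : P.norm = 0 := by
      unfold nN at h0
      exact Int.natAbs_eq_zero.1 h0
    have h2 : P = 0 := by
      have := (Zsqrtd.norm_eq_zero_iff (by norm_num) P).1 h1
      exact this
    rw [h2, zero_dvd_iff] at h
    have := congrArg Zsqrtd.im h
    simp [zm] at this
  · exact h0

open Classical in
theorem nct (G : Finset GaussianInt) (hG : ∀ p ∈ G, IsPi p) (X : ℕ)
    (hX : ∏ p ∈ G, (nN p : ℝ) ≤ X) :
    (((Finset.Icc (-(X : ℤ)) X).filter (fun m => ∀ p ∈ G, p ∣ zm m)).card : ℝ) ≤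
      3 * X / ∏ p ∈ G, (nN p : ℝ) := by
  rw [← nct_prod] at hX ⊢
  have hpos : 0 < nN (∏ p ∈ G, p) := by
    have h : (0 : ℝ) < (nN (∏ p ∈ G, p) : ℝ) := by
      rw [nct_prod]
      exact Finset.prod_pos fun p hp => by
        have := (hG p hp).2.2.2
        exact_mod_cast (by omega : 0 < nN p)
    exact_mod_cast h
  refine nct_count _ X _ hpos (by exact_mod_cast hX) (Finset.filter_subset _ _) ?_
  intro m hm m' hm'
  refine nct_norm _ m m' ?_ ?_
  · exact (NSqP.prod_dvd_iff G hG _).2 (Finset.mem_filter.1 hm').2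
  · exact (NSqP.prod_dvd_iff G hG _).2 (Finset.mem_filter.1 hm).2

open Classical in
theorem nct_sq (p : GaussianInt) (hp : IsPi p) (X : ℕ) (hX : (nN p : ℝ) ^ 2 ≤ X) :
    (((Finset.Icc (-(X : ℤ)) X).filter (fun m => p ^ 2 ∣ zm m)).card : ℝ) ≤
      3 * X / (nN p : ℝ) ^ 2 := by
  have h2 : (nN (p ^ 2) : ℝ) = (nN p : ℝ) ^ 2 := by
    rw [pow_two, nN_mul]; push_cast; ring
  rw [← h2] at hX ⊢
  have hpos : 0 < nN (p ^ 2) := by
    rw [pow_two, nN_mul]
    have h3 : 0 < nN p := by
      have := hp.2.2.2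
      omega
    positivity
  refine nct_count _ X _ hpos (by exact_mod_cast hX) (Finset.filter_subset _ _) ?_
  intro m hm m' hm'
  exact nct_norm _ m m' (Finset.mem_filter.1 hm').2 (Finset.mem_filter.1 hm).2

end Pool.Agent.NSqD
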