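import Pool.Agent.Lib.NSqD.Defs
import Pool.Agent.Lib.NSqP.Mer

/-!
# WIN: sums over the primes of a block

PROOF: `blk 1 v` are the `IsPi` elements with `e^v ≤ N < e^(v+1)`, `WR 1 a b = ∑_{a ≤ v < b} sv 1 v`,
and `WR_lower`, `WR_upper` give `WR 1 a b = log (b/a) + O(1/a)`. Round the ends of the interval
`(yy (i+1), yy (i+2)]` (both at least 1) to integers; `log (yy (i+2) / yy (i+1)) = log log x / J`.
Window: `sv 1 v = WR 1 v (v+1) ≤ (1 + C) / v`, and `[a, a + s]` meets at most `s + 2` blocks with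
`v ≥ ⌊yy (i+1)⌋ ≥ yy (i+1) / 2`.
-/

set_option autoImplicit false

namespace Pool.Agent.NSqD

open Real
open Pool.Agent.NSqP

private lemma win_npos {z : GaussianInt} (hz : IsPi z) : (0 : ℝ) < nN z := by
  exact_mod_cast nN_pos hz.ne_zero

private lemma win_lpos {z : GaussianInt} (hz : IsPi z) : 0 ≤ log (nN z) := by
  apply log_nonneg
  have := hz.2.2.2
  exact_mod_cast (by omega : 1 ≤ nN z)

private lemma win_blk {z : GaussianInt} {v : ℕ} :
    z ∈ blk 1 v ↔ IsPi z ∧ (v : ℝ) ≤ log (nN z) ∧ log (nN z) < (v : ℝ) + 1 := by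
  rw [mem_blk]
  constructor
  · rintro ⟨h1, h2, h3⟩
    have hn := win_npos h1
    refine ⟨h1, ?_, ?_⟩
    · rw [le_log_iff_exp_le hn]; simpa using h2
    · rw [log_lt_iff_lt_exp hn]; simpa using h3
  · rintro ⟨h1, h2, h3⟩
    have hn := win_npos h1
    refine ⟨h1, ?_, ?_⟩
    · rw [le_log_iff_exp_le hn] at h2; simpa using h2
    · rw [log_lt_iff_lt_exp hn] at h3; simpa using h3

private lemma win_sum (I : Finset ℕ) :
    ∑ v ∈ I, sv 1 v = ∑ z ∈ (open Classical in I.biUnion (blk 1)), 1 / (nN z : ℝ) := by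
  classical
  unfold sv
  rw [Finset.sum_biUnion]
  intro v _ v' _ h
  exact blk_disjoint le_rfl h

private lemma win_le (I : Finset ℕ) (S : Finset GaussianInt)
    (h : ∀ z ∈ S, IsPi z ∧ ⌊log (nN z)⌋₊ ∈ I) :
    ∑ z ∈ S, 1 / (nN z : ℝ) ≤ ∑ v ∈ I, sv 1 v := by
  classical
  rw [win_sum]
  refine Finset.sum_le_sum_of_subset_of_nonneg ?_ (fun z _ _ => by positivity)
  intro z hz
  obtain ⟨h1, h2⟩ := h z hz
  rw [Finset.mem_biUnion]
  exact ⟨_, h2, win_blk.2 ⟨h1, Nat.floor_le (win_lpos h1), Nat.lt_floor_add_one _⟩⟩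

private lemma win_ge (a b : ℕ) (S : Finset GaussianInt)
    (h : ∀ z, IsPi z → (a : ℝ) ≤ log (nN z) → log (nN z) < b → z ∈ S) :
    WR 1 a b ≤ ∑ z ∈ S, 1 / (nN z : ℝ) := by
  classical
  unfold WR
  rw [win_sum]
  refine Finset.sum_le_sum_of_subset_of_nonneg ?_ (fun z _ _ => by positivity)
  intro z hz
  rw [Finset.mem_biUnion] at hz
  obtain ⟨v, hv, hz⟩ := hz
  rw [win_blk] at hz
  rw [Finset.mem_Ico] at hv
  refine h z hz.1 (le_trans ?_ hz.2.1) (lt_of_lt_of_le hz.2.2 ?_)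
  · exact_mod_cast hv.1
  · exact_mod_cast hv.2

private lemma yy_one_le {J : ℕ} {x : ℝ} (hx : exp 1 ≤ x) (i : ℕ) : 1 ≤ yy J x i := by
  unfold yy
  apply one_le_rpow
  · rw [le_log_iff_exp_le (lt_of_lt_of_le (exp_pos _) hx)]; exact hx
  · positivity

private lemma yy_mono {J : ℕ} {x : ℝ} (hx : exp 1 ≤ x) {i j : ℕ} (hij : i ≤ j) :
    yy J x i ≤ yy J x j := by
  unfold yy
  apply rpow_le_rpow_of_exponent_le
  · rw [le_log_iff_exp_le (lt_of_lt_of_le (exp_pos _) hx)]; exact hx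
  · have : (i : ℝ) ≤ j := by exact_mod_cast hij
    gcongr

private lemma yy_log {J : ℕ} {x : ℝ} (hx : exp 1 ≤ x) (i : ℕ) :
    log (yy J x i) = (i : ℝ) / J * log (log x) := by
  unfold yy
  have h1 : 1 ≤ log x := by
    rw [le_log_iff_exp_le (lt_of_lt_of_le (exp_pos _) hx)]; exact hx
  rw [log_rpow (by linarith)]

private lemma yy_ratio {J : ℕ} {x : ℝ} (hx : exp 1 ≤ x) (i : ℕ) :
    log (yy J x (i + 2)) - log (yy J x (i + 1)) = log (log x) / J := by
  rw [yy_log hx, yy_log hx]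
  push_cast
  ring

private lemma mem_BP' {J : ℕ} {x : ℝ} {i : ℕ} {p : GaussianInt} :
    p ∈ BP J x i ↔ IsPi p ∧ yy J x (i + 1) < log (nN p) ∧ log (nN p) ≤ yy J x (i + 2) := by
  rw [mem_BP]
  constructor
  · rintro ⟨h1, h2, h3⟩
    have hn := win_npos h3
    exact ⟨h3, (lt_log_iff_exp_lt hn).2 h1, (log_le_iff_le_exp hn).2 h2⟩
  · rintro ⟨h3, h1, h2⟩
    have hn := win_npos h3
    exact ⟨(lt_log_iff_exp_lt hn).1 h1, (log_le_iff_le_exp hn).1 h2, h3⟩

private lemma win_half {u : ℝ} (hu : 1 ≤ u) : u / 2 ≤ (⌊u⌋₊ : ℝ) ∧ 1 ≤ ⌊u⌋₊ := by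
  have h1 : 1 ≤ ⌊u⌋₊ := Nat.le_floor (by simpa using hu)
  have h2 := Nat.lt_floor_add_one u
  have h3 : (1 : ℝ) ≤ ⌊u⌋₊ := by exact_mod_cast h1
  exact ⟨by linarith, h1⟩

theorem BP_mertens : ∃ C : ℝ, 0 < C ∧ ∀ (J : ℕ) (x : ℝ) (i : ℕ), 1 ≤ J → exp 1 ≤ x →
    |(∑ p ∈ BP J x i, 1 / (nN p : ℝ)) - log (log x) / J| ≤ C := by
  obtain ⟨C1, hC1, hl⟩ := WR_lower
  obtain ⟨C2, hC2, hu⟩ := WR_upper
  have hl4 : 0 < log 4 := log_pos (by norm_num)
  refine ⟨C1 + C2 + log 4, by positivity, fun J x i hJ hx => ?_⟩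
  set u := yy J x (i + 1) with hudef
  set w := yy J x (i + 2) with hwdef
  have hu1 : 1 ≤ u := yy_one_le hx _
  have huw : u ≤ w := yy_mono hx (by omega)
  have hw1 : 1 ≤ w := hu1.trans huw
  have hu0 : 0 < u := by linarith
  have hw0 : 0 < w := by linarith
  have hratio : log w - log u = log (log x) / J := yy_ratio hx i
  obtain ⟨hfu, hfu1⟩ := win_half hu1
  obtain ⟨hfw, hfw1⟩ := win_half hw1
  have hS0 : 0 ≤ ∑ p ∈ BP J x i, 1 / (nN p : ℝ) := Finset.sum_nonneg fun z _ => by positivity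
  rw [← hratio, abs_le]
  constructor
  · -- lower bound
    by_cases hab : ⌊u⌋₊ + 1 ≤ ⌊w⌋₊
    · have h1 := hl 1 (⌊u⌋₊ + 1) ⌊w⌋₊ le_rfl (by omega) hab
      have h2 := win_ge (⌊u⌋₊ + 1) ⌊w⌋₊ (BP J x i) (fun z hz h3 h4 => by
        rw [mem_BP']
        refine ⟨hz, ?_, ?_⟩
        · have := Nat.lt_floor_add_one u
          push_cast at h3
          linarith
        · have := Nat.floor_le hw0.le
          linarith)
      have h5 : log (w / (4 * u)) ≤ log (((⌊w⌋₊ : ℕ) : ℝ) / ((⌊u⌋₊ + 1 : ℕ) : ℝ)) := by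
        apply log_le_log (by positivity)
        have h6 : (((⌊u⌋₊ + 1 : ℕ)) : ℝ) ≤ 2 * u := by
          push_cast
          have := Nat.floor_le hu0.le
          linarith
        have h7 : (0 : ℝ) < ((⌊u⌋₊ + 1 : ℕ) : ℝ) := by positivity
        rw [div_le_div_iff₀ (by positivity) h7]
        nlinarith
      have h8 : log (w / (4 * u)) = log w - log u - log 4 := by
        rw [log_div hw0.ne' (by positivity), log_mul (by norm_num) hu0.ne']
        ring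
      have h9 : C1 * (((1 : ℕ) : ℝ) / ((⌊u⌋₊ + 1 : ℕ) : ℝ)) ≤ C1 := by
        have : ((1 : ℕ) : ℝ) / ((⌊u⌋₊ + 1 : ℕ) : ℝ) ≤ 1 := by
          rw [div_le_one (by positivity)]
          push_cast
          have : (0 : ℝ) ≤ (⌊u⌋₊ : ℝ) := Nat.cast_nonneg _
          linarith
        nlinarith
      linarith
    · have h1 : ⌊w⌋₊ ≤ ⌊u⌋₊ := by omega
      have h2 := Nat.lt_floor_add_one w
      have h3 : ((⌊w⌋₊ : ℕ) : ℝ) ≤ ⌊u⌋₊ := by exact_mod_cast h1
      have h4 := Nat.floor_le hu0.le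
      have h5 : w ≤ 4 * u := by linarith
      have h6 : log w ≤ log 4 + log u := by
        rw [← log_mul (by norm_num) hu0.ne']
        exact log_le_log hw0 h5
      linarith
  · -- upper bound
    have h1 := hu 1 ⌊u⌋₊ (⌊w⌋₊ + 1) le_rfl hfu1 (by
      have := Nat.floor_le_floor huw
      omega)
    have h2 : ∑ p ∈ BP J x i, 1 / (nN p : ℝ) ≤ WR 1 ⌊u⌋₊ (⌊w⌋₊ + 1) := by
      unfold WR
      apply win_le
      intro z hz
      rw [mem_BP'] at hz
      refine ⟨hz.1, ?_⟩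
      rw [Finset.mem_Ico]
      refine ⟨Nat.floor_le_floor hz.2.1.le, ?_⟩
      have h10 : ⌊log (nN z : ℝ)⌋₊ ≤ ⌊w⌋₊ := Nat.floor_le_floor hz.2.2
      omega
    have h5 : log (((⌊w⌋₊ + 1 : ℕ) : ℝ) / ((⌊u⌋₊ : ℕ) : ℝ)) ≤ log (4 * w / u) := by
      have h7 : (0 : ℝ) < ((⌊u⌋₊ : ℕ) : ℝ) := by exact_mod_cast hfu1
      apply log_le_log (by positivity)
      have h6 : (((⌊w⌋₊ + 1 : ℕ)) : ℝ) ≤ 2 * w := by
        push_cast
        have := Nat.floor_le hw0.le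
        linarith
      rw [div_le_div_iff₀ h7 hu0]
      nlinarith
    have h8 : log (4 * w / u) = log w - log u + log 4 := by
      rw [log_div (by positivity) hu0.ne', log_mul (by norm_num) hw0.ne']
      ring
    have h9 : C2 * (((1 : ℕ) : ℝ) / ((⌊u⌋₊ : ℕ) : ℝ)) ≤ C2 := by
      have h7 : (1 : ℝ) ≤ ((⌊u⌋₊ : ℕ) : ℝ) := by exact_mod_cast hfu1
      have : ((1 : ℕ) : ℝ) / ((⌊u⌋₊ : ℕ) : ℝ) ≤ 1 := by
        rw [div_le_one (by linarith)]
        simpa using h7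
      nlinarith
    linarith

theorem BP_window : ∃ C : ℝ, 0 < C ∧ ∀ (J : ℕ) (x : ℝ) (i : ℕ), 1 ≤ J → exp 1 ≤ x →
    ∀ a s : ℝ, 0 ≤ s →
      ∑ p ∈ (BP J x i).filter (fun p => a ≤ log (nN p) ∧ log (nN p) ≤ a + s), 1 / (nN p : ℝ) ≤
        C * (s + 1) / yy J x (i + 1) := by
  obtain ⟨C2, hC2, hu⟩ := WR_upper
  refine ⟨4 * (1 + C2), by positivity, fun J x i hJ hx a s hs => ?_⟩
  set u := yy J x (i + 1) with hudef
  have hu1 : 1 ≤ u := yy_one_le hx _
  have hu0 : 0 < u := by linarith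
  obtain ⟨hfu, hfu1⟩ := win_half hu1
  set v0 := ⌊max a u⌋₊ with hv0
  set v1 := ⌊a + s⌋₊ with hv1
  have h1 : ∑ p ∈ (BP J x i).filter (fun p => a ≤ log (nN p) ∧ log (nN p) ≤ a + s),
      1 / (nN p : ℝ) ≤ ∑ v ∈ Finset.Icc v0 v1, sv 1 v := by
    apply win_le
    intro z hz
    rw [Finset.mem_filter, mem_BP'] at hz
    refine ⟨hz.1.1, ?_⟩
    rw [Finset.mem_Icc]
    exact ⟨Nat.floor_le_floor (max_le hz.2.1 hz.1.2.1.le), Nat.floor_le_floor hz.2.2⟩
  have hv0u : ⌊u⌋₊ ≤ v0 := Nat.floor_le_floor (le_max_right _ _)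
  have h2 : ∀ v ∈ Finset.Icc v0 v1, sv 1 v ≤ 2 * (1 + C2) / u := by
    intro v hv
    rw [Finset.mem_Icc] at hv
    have hv1' : 1 ≤ v := by omega
    have h3 := hu 1 v (v + 1) le_rfl hv1' (by omega)
    have h4 : WR 1 v (v + 1) = sv 1 v := by
      unfold WR
      simp
    rw [h4] at h3
    have hvpos : (0 : ℝ) < v := by exact_mod_cast hv1'
    have h5 : log (((v + 1 : ℕ) : ℝ) / (v : ℝ)) ≤ 1 / v := by
      have h6 : ((v + 1 : ℕ) : ℝ) / (v : ℝ) = 1 / v + 1 := by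
        push_cast
        field_simp
        ring
      rw [h6]
      have := log_le_sub_one_of_pos (show (0 : ℝ) < 1 / v + 1 by positivity)
      linarith
    have h7 : u / 2 ≤ v := by
      have : ((⌊u⌋₊ : ℕ) : ℝ) ≤ v := by exact_mod_cast (hv0u.trans hv.1)
      linarith
    have h8 : sv 1 v ≤ (1 + C2) / v := by
      have : 1 / (v : ℝ) + C2 * (((1 : ℕ) : ℝ) / v) = (1 + C2) / v := by
        push_cast
        ring
      linarith
    refine h8.trans ?_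
    rw [div_le_div_iff₀ hvpos hu0]
    nlinarith
  have h3 : ∑ v ∈ Finset.Icc v0 v1, sv 1 v ≤ ((Finset.Icc v0 v1).card : ℝ) * (2 * (1 + C2) / u) := by
    have := Finset.sum_le_card_nsmul (Finset.Icc v0 v1) (fun v => sv 1 v) _ h2
    simpa [nsmul_eq_mul] using this
  have h4 : ((Finset.Icc v0 v1).card : ℝ) ≤ 2 * (s + 1) := by
    rw [Nat.card_Icc]
    by_cases hle : v0 ≤ v1
    · have h5 : ((v1 + 1 - v0 : ℕ) : ℝ) = v1 + 1 - v0 := by
        rw [Nat.cast_sub (by omega)]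
        push_cast
        ring
      rw [h5]
      have h6 : 1 ≤ v1 := by omega
      have h7 : (0 : ℝ) ≤ a + s := by
        by_contra hneg
        push Not at hneg
        have : v1 = 0 := Nat.floor_of_nonpos hneg.le
        omega
      have h8 : (v1 : ℝ) ≤ a + s := Nat.floor_le h7
      have h9 := Nat.lt_floor_add_one (max a u)
      have h10 : a ≤ max a u := le_max_left _ _
      have h11 : a < (v0 : ℝ) + 1 := lt_of_le_of_lt h10 h9
      linarith
    · have : v1 + 1 - v0 = 0 := by omega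
      rw [this]
      push_cast
      linarith
  have hK : 0 ≤ 2 * (1 + C2) / u := by positivity
  calc _ ≤ _ := h1
    _ ≤ _ := h3
    _ ≤ 2 * (s + 1) * (2 * (1 + C2) / u) := mul_le_mul_of_nonneg_right h4 hK
    _ = 4 * (1 + C2) * (s + 1) / u := by ring

theorem BP_disj (J : ℕ) (x : ℝ) (i j : ℕ) (hx : exp 1 ≤ x) (p : GaussianInt)
    (hi : p ∈ BP J x i) (hj : p ∈ BP J x j) : i = j := by
  rw [mem_BP'] at hi hj
  by_contra hne
  rcases Nat.lt_or_gt_of_ne hne with h | h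
  · have := yy_mono (J := J) hx (show i + 2 ≤ j + 1 by omega)
    linarith [hi.2.2, hj.2.1]
  · have := yy_mono (J := J) hx (show j + 2 ≤ i + 1 by omega)
    linarith [hj.2.2, hi.2.1]

end Pool.Agent.NSqD
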