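import Pool.Agent.Lib.NSqD.Tup
import Pool.Agent.Lib.NSqD.Win
import Pool.Agent.Lib.NSqD.Nct

/-!
# BADN: few `m` have many close divisors

Put `t = log log X`, `K = 2 (1 + ε) t / J`, `κ0 = 2 (1 + ε) log 2 - 1`, `α = SP J X` (subtype), `wt = 1 / N`,
`lam = log N`, `blk p` = the block of `p`, `Y i = yy J X (i + 1)`, `μ i = t / J + C`, `K i = ⌊K⌋`,
`Θ = (log X)^κ0`. PROOF: for `m` in the set let `𝒜` be a family of more than `R = (log X)^κ1` subsets `A`
of `Mm` with `a ≤ sA A ≤ a + ℓ`. A `q`-tuple `(A_1 .. A_q)` of them gives `f : α → Finset (Fin q)`,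
`f p = {l : p ∈ A_l}`, injectively; `XX lam f = (sA A_l)_l` has distance `≤ ℓ` from the constant vector
`a`, the support of `f` is contained in `Mm`, so `Adm blk (K i) (J-2) f`. Hence
`R^q * #set ≤ ∑_f #{m ∈ [-X, X] : every p in the support of f divides m + i}`, over the `f` of `TUP`;
the product of the norms over the support is at most `exp (∑_i K (log X)^((i+2)/J)) ≤ X` for
`X ≥ X0`, so by `nct` this is at most `3 X ∑_f ww f ≤ 3 X A exp (2 t + 2 J C) (log X)^(q κ0)` (`TUP`, whose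
hypotheses are `BP_mertens`, `BP_window`, and `2^((j+1) K) / Y j = (log X)^(((j+1)/J) κ0) ≤ Θ`).
So `#set ≤ 3 A e^(2JC) X (log X)^(2 - q (κ1 - κ0))`; take `q ≥ 5 / (κ1 - κ0)` and `X` large.
`BADS`: `nct_sq` and `∑_{SP} 1/N^2 ≤ exp (-(log X)^(1/J)) ∑_{SP} 1/N`, `∑_{SP} 1/N ≤ t + J C`.
-/

set_option autoImplicit false

namespace Pool.Agent.NSqD

open Real
open Pool.Agent.NSqP

/-! ## eventual inequalities -/

private lemma ev_log {P : ℝ → Prop} (h : ∀ᶠ y in Filter.atTop, P y) :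
    ∃ X0 : ℕ, ∀ X : ℕ, X0 ≤ X → P (log (X : ℝ)) := by
  have h1 := (tendsto_log_atTop.comp tendsto_natCast_atTop_atTop).eventually h
  simpa [Filter.eventually_atTop] using h1

private lemma ev_ll (c : ℝ) (J : ℕ) (hJ : 1 ≤ J) :
    ∀ᶠ y : ℝ in Filter.atTop, c * log y ≤ y ^ ((1 : ℝ) / J) := by
  have hr : (0 : ℝ) < 1 / J := by
    have : (0 : ℝ) < J := by exact_mod_cast hJ
    positivity
  have h := isLittleO_log_rpow_atTop hr
  have hc : (0 : ℝ) < 1 / (|c| + 1) := by positivity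
  have h1 := h.def hc
  filter_upwards [h1, Filter.eventually_ge_atTop (1 : ℝ)] with y hy hy1
  have hlog : 0 ≤ log y := log_nonneg hy1
  have hp : 0 < y ^ ((1 : ℝ) / J) := rpow_pos_of_pos (by linarith) _
  rw [norm_of_nonneg hlog, norm_of_nonneg hp.le] at hy
  have h2 : (|c| + 1) * log y ≤ y ^ ((1 : ℝ) / J) := by
    have := mul_le_mul_of_nonneg_left hy (by positivity : (0 : ℝ) ≤ |c| + 1)
    calc (|c| + 1) * log y ≤ (|c| + 1) * (1 / (|c| + 1) * y ^ ((1 : ℝ) / J)) := this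
      _ = y ^ ((1 : ℝ) / J) := by field_simp
  have h3 : c * log y ≤ (|c| + 1) * log y := by
    apply mul_le_mul_of_nonneg_right _ hlog
    linarith [le_abs_self c]
  linarith

/-! ## the block of a medium prime -/

private noncomputable def bl (J : ℕ) (x : ℝ) (p : {p // p ∈ SP J x}) : ℕ :=
  (mem_SP.1 p.2).choose

private lemma bl_lt (J : ℕ) (x : ℝ) (p : {p // p ∈ SP J x}) : bl J x p < J - 2 :=
  (mem_SP.1 p.2).choose_spec.1

private lemma bl_mem (J : ℕ) (x : ℝ) (p : {p // p ∈ SP J x}) : p.1 ∈ BP J x (bl J x p) :=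
  (mem_SP.1 p.2).choose_spec.2

private lemma bl_eq (J : ℕ) (x : ℝ) (hx : exp 1 ≤ x) (p : {p // p ∈ SP J x}) (i : ℕ)
    (h : p.1 ∈ BP J x i) : bl J x p = i :=
  BP_disj J x _ _ hx p.1 (bl_mem J x p) h

open Classical in
private lemma sum_bl (J : ℕ) (x : ℝ) (i : ℕ) (Q : GaussianInt → Prop)
    (g : GaussianInt → ℝ) (hg : ∀ p, 0 ≤ g p) :
    ∑ p ∈ (Finset.univ : Finset {p // p ∈ SP J x}).filter (fun p => bl J x p = i ∧ Q p.1), g p.1 ≤
      ∑ p ∈ (BP J x i).filter Q, g p := by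
  rw [← Finset.sum_image (f := g) (g := fun p : {p // p ∈ SP J x} => p.1)
    (fun a _ b _ h => Subtype.ext h)]
  apply Finset.sum_le_sum_of_subset_of_nonneg
  · intro p hp
    rw [Finset.mem_image] at hp
    obtain ⟨r, hr, rfl⟩ := hp
    rw [Finset.mem_filter] at hr
    rw [Finset.mem_filter]
    refine ⟨?_, hr.2.2⟩
    have := bl_mem J x r
    rw [hr.2.1] at this
    exact this
  · intro p _ _
    exact hg p

open Classical in
private lemma card_bl (J : ℕ) (x : ℝ) (i : ℕ) (Q : GaussianInt → Prop) :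
    ((Finset.univ : Finset {p // p ∈ SP J x}).filter (fun p => bl J x p = i ∧ Q p.1)).card ≤
      ((BP J x i).filter Q).card := by
  have h := sum_bl J x i Q (fun _ => 1) (fun _ => zero_le_one)
  simp only [Finset.sum_const, nsmul_eq_mul, mul_one] at h
  exact_mod_cast h

/-! ## norms of the medium primes -/

private lemma nN_le {J : ℕ} (hJ : 3 ≤ J) {x : ℝ} (hy : 1 ≤ log x) {p : GaussianInt}
    (hp : p ∈ SP J x) : log (nN p : ℝ) ≤ log x * (log x) ^ (-((1 : ℝ) / J)) := by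
  obtain ⟨i, hi, hb⟩ := mem_SP.1 hp
  obtain ⟨h1, h2, h3⟩ := mem_BP.1 hb
  have hpos : (0 : ℝ) < nN p := lt_of_lt_of_le (exp_pos _) h1.le
  have hJ0 : (0 : ℝ) < J := by
    have : 0 < J := by omega
    exact_mod_cast this
  have h4 : log (nN p : ℝ) ≤ yy J x (i + 2) := by
    rw [← log_exp (yy J x (i + 2))]
    exact log_le_log hpos h2
  refine h4.trans ?_
  have h5 : log x * (log x) ^ (-((1 : ℝ) / J)) = (log x) ^ (1 - (1 : ℝ) / J) := by
    rw [sub_eq_add_neg, rpow_add (by linarith), rpow_one]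
  rw [h5]
  unfold yy
  apply rpow_le_rpow_of_exponent_le hy
  rw [div_le_iff₀ hJ0]
  have : ((i + 2 : ℕ) : ℝ) ≤ J - 1 := by
    have h6 : i + 2 + 1 ≤ J := by omega
    have h7 : ((i + 2 + 1 : ℕ) : ℝ) ≤ J := by exact_mod_cast h6
    push_cast at h7 ⊢
    linarith
  have h8 : (1 - (1 : ℝ) / J) * J = J - 1 := by field_simp
  rw [h8]
  exact this

private lemma nN_ge {J : ℕ} (hJ : 3 ≤ J) {x : ℝ} (hy : 1 ≤ log x) {p : GaussianInt}
    (hp : p ∈ SP J x) : exp ((log x) ^ ((1 : ℝ) / J)) ≤ (nN p : ℝ) := by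
  obtain ⟨i, hi, hb⟩ := mem_SP.1 hp
  obtain ⟨h1, h2, h3⟩ := mem_BP.1 hb
  refine le_trans ?_ h1.le
  apply exp_le_exp.2
  unfold yy
  apply rpow_le_rpow_of_exponent_le hy
  have hJ0 : (0 : ℝ) < J := by
    have : 0 < J := by omega
    exact_mod_cast this
  apply div_le_div_of_nonneg_right _ hJ0.le
  push_cast
  have : (0 : ℝ) ≤ i := by positivity
  linarith

private lemma SP_pi {J : ℕ} {x : ℝ} {p : GaussianInt} (hp : p ∈ SP J x) : IsPi p := by
  obtain ⟨i, hi, hb⟩ := mem_SP.1 hp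
  exact (mem_BP.1 hb).2.2

/-! ## squares -/

private lemma ev_exp (J : ℕ) (hJ : 1 ≤ J) (B : ℝ) :
    ∀ᶠ y : ℝ in Filter.atTop, 3 * (log y + B) * y ^ 2 ≤ exp (y ^ ((1 : ℝ) / J)) := by
  have hJ0 : (0 : ℝ) < J := by exact_mod_cast hJ
  have hr : (0 : ℝ) < 1 / J := by positivity
  have hz : Filter.Tendsto (fun y : ℝ => y ^ ((1 : ℝ) / J)) Filter.atTop Filter.atTop :=
    tendsto_rpow_atTop hr
  have h1 : ∀ᶠ z : ℝ in Filter.atTop, z ^ (4 * J) ≤ exp z := by
    have h2 := (tendsto_pow_mul_exp_neg_atTop_nhds_zero (4 * J)).eventually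
      (gt_mem_nhds (zero_lt_one' ℝ))
    filter_upwards [h2] with z hz
    rw [exp_neg, ← div_eq_mul_inv, div_lt_one (exp_pos z)] at hz
    exact hz.le
  filter_upwards [hz.eventually h1, Filter.eventually_ge_atTop (1 : ℝ),
    Filter.eventually_ge_atTop (3 * (1 + |B|))] with y h3 h4 h5
  refine le_trans ?_ h3
  have h6 : (y ^ ((1 : ℝ) / J)) ^ (4 * J) = y ^ 4 := by
    rw [← rpow_natCast, ← rpow_mul (by linarith)]
    have : (1 : ℝ) / J * ((4 * J : ℕ) : ℝ) = ((4 : ℕ) : ℝ) := by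
      push_cast
      field_simp
    rw [this, rpow_natCast]
  rw [h6]
  have h7 : log y ≤ y := by
    have := log_le_sub_one_of_pos (by linarith : 0 < y)
    linarith
  have h8 : 3 * (log y + B) ≤ y * y := by
    have h9 : 3 * (log y + B) ≤ 3 * (y + |B| * y) := by
      have : B ≤ |B| * y := by
        calc B ≤ |B| := le_abs_self B
          _ ≤ |B| * y := le_mul_of_one_le_right (abs_nonneg _) h4
      linarith
    have h10 : 3 * (y + |B| * y) = (3 * (1 + |B|)) * y := by ring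
    rw [h10] at h9
    exact h9.trans (mul_le_mul_of_nonneg_right h5 (by linarith))
  calc 3 * (log y + B) * y ^ 2 ≤ (y * y) * y ^ 2 :=
        mul_le_mul_of_nonneg_right h8 (by positivity)
    _ = y ^ 4 := by ring

open Classical in
theorem BADS (J : ℕ) (hJ : 3 ≤ J) : ∃ X0 : ℕ, ∀ X : ℕ, X0 ≤ X →
    (((Finset.Icc (-(X : ℤ)) X).filter (fun m => ∃ p ∈ SP J X, p ^ 2 ∣ zm m)).card : ℝ) ≤
      X / (log X) ^ 2 := by
  obtain ⟨C1, hC1, hmert⟩ := BP_mertens
  have hJ1 : 1 ≤ J := by omega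
  have hJ0 : (0 : ℝ) < J := by exact_mod_cast hJ1
  have hr : (0 : ℝ) < 1 / J := by positivity
  obtain ⟨X0, hX0⟩ := ev_log (P := fun y => 1 ≤ y ∧ 2 ≤ y ^ ((1 : ℝ) / J) ∧
      3 * (log y + J * C1) * y ^ 2 ≤ exp (y ^ ((1 : ℝ) / J)))
    ((Filter.eventually_ge_atTop (1 : ℝ)).and
      (((tendsto_rpow_atTop hr).eventually_ge_atTop 2).and (ev_exp J hJ1 (J * C1))))
  refine ⟨X0, fun X hX => ?_⟩
  obtain ⟨hy1, hz2, hexp⟩ := hX0 X hX
  set y := log (X : ℝ) with hyd
  have hyp : 0 < y := by linarith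
  have hXp : (0 : ℝ) < X := by
    rcases Nat.eq_zero_or_pos X with h | h
    · rw [hyd, h] at hy1
      simp at hy1
      norm_num at hy1
    · exact_mod_cast h
  have hxe : exp 1 ≤ (X : ℝ) := (le_log_iff_exp_le hXp).1 hy1
  have hpos : ∀ p ∈ SP J (X : ℝ), (0 : ℝ) < nN p := fun p hp =>
    lt_of_lt_of_le (exp_pos _) (nN_ge hJ hy1 hp)
  have hsq : ∀ p ∈ SP J (X : ℝ), (nN p : ℝ) ^ 2 ≤ X := by
    intro p hp
    have h1 := nN_le hJ hy1 hp
    have h2 : 2 * log (nN p : ℝ) ≤ y := by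
      have h3 : y * y ^ (-((1 : ℝ) / J)) * 2 ≤ y * y ^ (-((1 : ℝ) / J)) * y ^ ((1 : ℝ) / J) :=
        mul_le_mul_of_nonneg_left hz2 (by positivity)
      have h4 : y * y ^ (-((1 : ℝ) / J)) * y ^ ((1 : ℝ) / J) = y := by
        rw [mul_assoc, ← rpow_add hyp]
        simp
      linarith
    have h5 : log ((nN p : ℝ) ^ 2) ≤ log (X : ℝ) := by
      rw [log_pow]
      push_cast
      exact h2
    exact (log_le_log_iff (by have := hpos p hp; positivity) hXp).1 h5
  have hcount : ∀ p ∈ SP J (X : ℝ),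
      (((Finset.Icc (-(X : ℤ)) X).filter (fun m => p ^ 2 ∣ zm m)).card : ℝ) ≤
        3 * X * exp (-(y ^ ((1 : ℝ) / J))) * (1 / (nN p : ℝ)) := by
    intro p hp
    refine (nct_sq p (SP_pi hp) X (hsq p hp)).trans ?_
    have h1 := nN_ge hJ hy1 hp
    have h2 := hpos p hp
    have h3 : 1 / (nN p : ℝ) ≤ exp (-(y ^ ((1 : ℝ) / J))) := by
      rw [exp_neg, ← one_div]
      exact one_div_le_one_div_of_le (exp_pos _) h1
    have h4 : 3 * (X : ℝ) / (nN p : ℝ) ^ 2 = 3 * X * (1 / (nN p : ℝ)) * (1 / (nN p : ℝ)) := by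
      field_simp
    rw [h4]
    apply mul_le_mul_of_nonneg_right _ (by positivity)
    apply mul_le_mul_of_nonneg_left h3 (by positivity)
  have hset : (Finset.Icc (-(X : ℤ)) X).filter (fun m => ∃ p ∈ SP J (X : ℝ), p ^ 2 ∣ zm m) ⊆
      (Finset.range (J - 2)).biUnion (fun i => (BP J (X : ℝ) i).biUnion (fun p =>
        (Finset.Icc (-(X : ℤ)) X).filter (fun m => p ^ 2 ∣ zm m))) := by
    intro m hm
    rw [Finset.mem_filter] at hm
    obtain ⟨h1, p, hp, h2⟩ := hm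
    obtain ⟨i, hi, hb⟩ := mem_SP.1 hp
    rw [Finset.mem_biUnion]
    refine ⟨i, Finset.mem_range.2 hi, ?_⟩
    rw [Finset.mem_biUnion]
    exact ⟨p, hb, Finset.mem_filter.2 ⟨h1, h2⟩⟩
  set E := exp (-(y ^ ((1 : ℝ) / J))) with hE
  have hEp : 0 < E := exp_pos _
  have ht : 0 ≤ log y := log_nonneg hy1
  calc (((Finset.Icc (-(X : ℤ)) X).filter (fun m => ∃ p ∈ SP J (X : ℝ), p ^ 2 ∣ zm m)).card : ℝ)
      ≤ (((Finset.range (J - 2)).biUnion (fun i => (BP J (X : ℝ) i).biUnion (fun p =>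
        (Finset.Icc (-(X : ℤ)) X).filter (fun m => p ^ 2 ∣ zm m)))).card : ℝ) := by
        exact_mod_cast Finset.card_le_card hset
    _ ≤ ∑ i ∈ Finset.range (J - 2), ∑ p ∈ BP J (X : ℝ) i,
        (((Finset.Icc (-(X : ℤ)) X).filter (fun m => p ^ 2 ∣ zm m)).card : ℝ) := by
        have h1 : ((Finset.range (J - 2)).biUnion (fun i => (BP J (X : ℝ) i).biUnion (fun p =>
            (Finset.Icc (-(X : ℤ)) X).filter (fun m => p ^ 2 ∣ zm m)))).card ≤
            ∑ i ∈ Finset.range (J - 2), ∑ p ∈ BP J (X : ℝ) i,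
              ((Finset.Icc (-(X : ℤ)) X).filter (fun m => p ^ 2 ∣ zm m)).card := by
          refine Finset.card_biUnion_le.trans ?_
          apply Finset.sum_le_sum
          intro i _
          exact Finset.card_biUnion_le
        exact_mod_cast h1
    _ ≤ ∑ i ∈ Finset.range (J - 2), ∑ p ∈ BP J (X : ℝ) i, 3 * X * E * (1 / (nN p : ℝ)) := by
        apply Finset.sum_le_sum
        intro i hi
        apply Finset.sum_le_sum
        intro p hp
        exact hcount p (mem_SP.2 ⟨i, Finset.mem_range.1 hi, hp⟩)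
    _ ≤ ∑ i ∈ Finset.range (J - 2), 3 * X * E * (log y / J + C1) := by
        apply Finset.sum_le_sum
        intro i _
        rw [← Finset.mul_sum]
        apply mul_le_mul_of_nonneg_left _ (by positivity)
        have := (abs_le.1 (hmert J X i hJ1 hxe)).2
        linarith
    _ = ((J - 2 : ℕ) : ℝ) * (3 * X * E * (log y / J + C1)) := by
        rw [Finset.sum_const, Finset.card_range, nsmul_eq_mul]
    _ ≤ (J : ℝ) * (3 * X * E * (log y / J + C1)) := by
        apply mul_le_mul_of_nonneg_right _ (by positivity)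
        exact_mod_cast Nat.sub_le J 2
    _ = X * ((3 * (log y + J * C1)) * E) := by
        field_simp
    _ ≤ X * (1 / y ^ 2) := by
        apply mul_le_mul_of_nonneg_left _ hXp.le
        rw [le_div_iff₀ (by positivity)]
        calc 3 * (log y + J * C1) * E * y ^ 2 = (3 * (log y + J * C1) * y ^ 2) * E := by ring
          _ ≤ exp (y ^ ((1 : ℝ) / J)) * E := mul_le_mul_of_nonneg_right hexp hEp.le
          _ = 1 := by rw [hE, ← exp_add]; simp
    _ = X / y ^ 2 := by ring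

/-! ## tuples -/

open Classical in
/-- the function attached to a tuple of sets -/
private noncomputable def tf (J : ℕ) (x : ℝ) (q : ℕ) (g : Fin q → Finset GaussianInt) :
    {p // p ∈ SP J x} → Finset (Fin q) := fun p => Finset.univ.filter (fun l => p.1 ∈ g l)

open Classical in
private lemma mem_tf {J : ℕ} {x : ℝ} {q : ℕ} {g : Fin q → Finset GaussianInt}
    {p : {p // p ∈ SP J x}} {l : Fin q} : l ∈ tf J x q g p ↔ p.1 ∈ g l := by
  simp [tf]

open Classical in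
private lemma XX_tf {J : ℕ} {x : ℝ} {q : ℕ} {g : Fin q → Finset GaussianInt}
    (hg : ∀ l, g l ⊆ SP J x) (l : Fin q) :
    XX (fun p : {p // p ∈ SP J x} => log (nN p.1 : ℝ)) (tf J x q g) l = sA (g l) := by
  unfold XX
  rw [Finset.sum_apply]
  have h1 : ∀ p : {p // p ∈ SP J x},
      (log (nN p.1 : ℝ) • vec (tf J x q g p)) l =
        (fun r : GaussianInt => if r ∈ g l then log (nN r : ℝ) else 0) p.1 := by
    intro p
    rw [Pi.smul_apply, smul_eq_mul]
    unfold vec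
    simp only [mem_tf]
    split_ifs <;> simp
  rw [Finset.sum_congr rfl (fun p _ => h1 p)]
  rw [Finset.sum_coe_sort (SP J x) (fun r : GaussianInt => if r ∈ g l then log (nN r : ℝ) else 0)]
  rw [Finset.sum_ite_mem, Finset.inter_eq_right.2 (hg l)]
  rfl

open Classical in
private lemma tf_inj {J : ℕ} {x : ℝ} {q : ℕ} {g g' : Fin q → Finset GaussianInt}
    (hg : ∀ l, g l ⊆ SP J x) (hg' : ∀ l, g' l ⊆ SP J x) (h : tf J x q g = tf J x q g') :
    g = g' := by
  funext l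
  ext p
  constructor
  · intro hp
    have h1 : l ∈ tf J x q g ⟨p, hg l hp⟩ := mem_tf.2 hp
    rw [h] at h1
    exact mem_tf.1 h1
  · intro hp
    have h1 : l ∈ tf J x q g' ⟨p, hg' l hp⟩ := mem_tf.2 hp
    rw [← h] at h1
    exact mem_tf.1 h1

open Classical in
/-- the family of functions of the tuple sum -/
private noncomputable def FF (J : ℕ) (x : ℝ) (q : ℕ) (K : ℕ) (ℓ : ℝ) :
    Finset ({p // p ∈ SP J x} → Finset (Fin q)) :=
  Finset.univ.filter (fun f => Adm (bl J x) (fun _ => K) (J - 2) f ∧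
    Metric.infDist (XX (fun p : {p // p ∈ SP J x} => log (nN p.1 : ℝ)) f)
      (one1 q : Set (Fin q → ℝ)) ≤ ℓ)

open Classical in
private lemma count_tf {J : ℕ} {x : ℝ} (q : ℕ) (K : ℕ) {ℓ R : ℝ} (hℓ : 0 ≤ ℓ) (hR : 0 ≤ R)
    (m : ℤ) (hK : ∀ i < J - 2, ((BP J x i).filter (fun p => p ∣ zm m)).card ≤ K)
    (hM : Many (Mm J x m) ℓ R) :
    R ^ q ≤ (((FF J x q K ℓ).filter (fun f => ∀ p, f p ≠ ∅ → p.1 ∣ zm m)).card : ℝ) := by
  obtain ⟨a, ha⟩ := hM
  set fam := (Mm J x m).powerset.filter (fun A => a ≤ sA A ∧ sA A ≤ a + ℓ) with hfam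
  have h1 : R ^ q ≤ (fam.card : ℝ) ^ q := by
    apply pow_le_pow_left₀ hR
    exact ha.le
  refine h1.trans ?_
  have h2 : (Fintype.piFinset (fun _ : Fin q => fam)).card = fam.card ^ q := by
    rw [Fintype.card_piFinset_const]
  have h3 : ((fam.card : ℝ)) ^ q = ((Fintype.piFinset (fun _ : Fin q => fam)).card : ℝ) := by
    rw [h2]; push_cast; rfl
  rw [h3]
  have hsub : ∀ g ∈ Fintype.piFinset (fun _ : Fin q => fam), ∀ l, g l ⊆ Mm J x m ∧
      a ≤ sA (g l) ∧ sA (g l) ≤ a + ℓ := by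
    intro g hg l
    have := Fintype.mem_piFinset.1 hg l
    rw [hfam, Finset.mem_filter, Finset.mem_powerset] at this
    exact this
  have hMS : Mm J x m ⊆ SP J x := by
    intro p hp
    exact (mem_Mm.1 hp).1
  have h4 : (Fintype.piFinset (fun _ : Fin q => fam)).card ≤
      ((FF J x q K ℓ).filter (fun f => ∀ p, f p ≠ ∅ → p.1 ∣ zm m)).card := by
    apply Finset.card_le_card_of_injOn (tf J x q)
    · intro g hg
      have hg1 := hsub g hg
      have hdiv : ∀ p, tf J x q g p ≠ ∅ → p.1 ∣ zm m := by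
        intro p hp
        obtain ⟨l, hl⟩ := Finset.nonempty_iff_ne_empty.2 hp
        exact (mem_Mm.1 ((hg1 l).1 (mem_tf.1 hl))).2
      rw [Finset.mem_coe, Finset.mem_filter]
      refine ⟨?_, hdiv⟩
      unfold FF
      rw [Finset.mem_filter]
      refine ⟨Finset.mem_univ _, ⟨?_, ?_⟩, ?_⟩
      · intro p _
        exact bl_lt J x p
      · intro i
        by_cases hi : i < J - 2
        · refine le_trans ?_ (hK i hi)
          refine le_trans ?_ (card_bl J x i (fun p => p ∣ zm m))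
          apply Finset.card_le_card
          intro p hp
          rw [Finset.mem_filter] at hp ⊢
          exact ⟨hp.1, hp.2.1, hdiv p hp.2.2⟩
        · have : (Finset.univ.filter
              (fun p => bl J x p = i ∧ tf J x q g p ≠ ∅)) = ∅ := by
            apply Finset.filter_false_of_mem
            intro p _ h
            have := bl_lt J x p
            omega
          rw [this]
          simp
      · have hmem : (fun _ => a : Fin q → ℝ) ∈ (one1 q : Set (Fin q → ℝ)) := by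
          unfold one1
          rw [SetLike.mem_coe, Submodule.mem_span_singleton]
          refine ⟨a, ?_⟩
          funext l
          simp
        refine (Metric.infDist_le_dist_of_mem hmem).trans ?_
        rw [dist_pi_le_iff hℓ]
        intro l
        rw [XX_tf (fun l => ((hg1 l).1).trans hMS) l, Real.dist_eq, abs_le]
        constructor
        · linarith [(hg1 l).2.1]
        · linarith [(hg1 l).2.2]
    · intro g hg g' hg' h
      exact tf_inj (fun l => ((hsub g hg l).1).trans hMS)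
        (fun l => ((hsub g' hg' l).1).trans hMS) h
  exact_mod_cast h4

open Classical in
private lemma supp_card {J : ℕ} {x : ℝ} {q K : ℕ} {ℓ : ℝ}
    {f : {p // p ∈ SP J x} → Finset (Fin q)} (hf : f ∈ FF J x q K ℓ) :
    ((Finset.univ : Finset {p // p ∈ SP J x}).filter (fun p => f p ≠ ∅)).card ≤ (J - 2) * K := by
  unfold FF at hf
  rw [Finset.mem_filter] at hf
  obtain ⟨_, ⟨h1, h2⟩, _⟩ := hf
  have h3 : ∀ p ∈ (Finset.univ : Finset {p // p ∈ SP J x}).filter (fun p => f p ≠ ∅),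
      bl J x p ∈ Finset.range (J - 2) := by
    intro p hp
    rw [Finset.mem_filter] at hp
    exact Finset.mem_range.2 (h1 p hp.2)
  rw [Finset.card_eq_sum_card_fiberwise h3]
  calc _ ≤ ∑ i ∈ Finset.range (J - 2), K := by
        apply Finset.sum_le_sum
        intro i _
        refine le_trans (Finset.card_le_card ?_) (h2 i)
        intro p hp
        rw [Finset.mem_filter, Finset.mem_filter] at hp
        rw [Finset.mem_filter]
        exact ⟨Finset.mem_univ _, hp.2, hp.1.2⟩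
    _ = (J - 2) * K := by simp

open Classical in
private lemma supp_prod {J : ℕ} (hJ : 3 ≤ J) {x : ℝ} (hx : 0 < x) (hy : 1 ≤ log x) {q K : ℕ} {ℓ : ℝ}
    (hK : ((J - 2 : ℕ) : ℝ) * K ≤ (log x) ^ ((1 : ℝ) / J))
    {f : {p // p ∈ SP J x} → Finset (Fin q)} (hf : f ∈ FF J x q K ℓ) :
    ∏ p ∈ (Finset.univ : Finset {p // p ∈ SP J x}).filter (fun p => f p ≠ ∅), (nN p.1 : ℝ) ≤ x := by
  have hpos : ∀ p : {p // p ∈ SP J x}, (0 : ℝ) < nN p.1 := by
    intro p
    exact lt_of_lt_of_le (exp_pos _) (nN_ge hJ hy p.2)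
  have hP : 0 < ∏ p ∈ (Finset.univ : Finset {p // p ∈ SP J x}).filter (fun p => f p ≠ ∅),
      (nN p.1 : ℝ) := Finset.prod_pos (fun p _ => hpos p)
  rw [← log_le_log_iff hP hx, log_prod (fun p _ => (hpos p).ne')]
  set y := log x with hyd
  have hyp : 0 < y := by linarith
  have hz : 0 < y ^ (-((1 : ℝ) / J)) := rpow_pos_of_pos hyp _
  calc ∑ p ∈ (Finset.univ : Finset {p // p ∈ SP J x}).filter (fun p => f p ≠ ∅), log (nN p.1 : ℝ)
      ≤ ∑ p ∈ (Finset.univ : Finset {p // p ∈ SP J x}).filter (fun p => f p ≠ ∅),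
          y * y ^ (-((1 : ℝ) / J)) := by
        apply Finset.sum_le_sum
        intro p _
        exact nN_le hJ hy p.2
    _ = (((Finset.univ : Finset {p // p ∈ SP J x}).filter (fun p => f p ≠ ∅)).card : ℝ) *
          (y * y ^ (-((1 : ℝ) / J))) := by
        rw [Finset.sum_const, nsmul_eq_mul]
    _ ≤ (((J - 2 : ℕ) : ℝ) * K) * (y * y ^ (-((1 : ℝ) / J))) := by
        apply mul_le_mul_of_nonneg_right _ (by positivity)
        have := supp_card hf
        exact_mod_cast this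
    _ ≤ y ^ ((1 : ℝ) / J) * (y * y ^ (-((1 : ℝ) / J))) := by
        apply mul_le_mul_of_nonneg_right hK (by positivity)
    _ = y := by
        rw [mul_comm y, ← mul_assoc, ← rpow_add hyp]
        simp

open Classical in
private lemma count_f {J : ℕ} (hJ : 3 ≤ J) {X : ℕ} (hX : 1 ≤ X) (hy : 1 ≤ log (X : ℝ)) {q K : ℕ}
    {ℓ : ℝ} (hK : ((J - 2 : ℕ) : ℝ) * K ≤ (log (X : ℝ)) ^ ((1 : ℝ) / J))
    {f : {p // p ∈ SP J (X : ℝ)} → Finset (Fin q)} (hf : f ∈ FF J (X : ℝ) q K ℓ) :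
    (((Finset.Icc (-(X : ℤ)) X).filter (fun m => ∀ p, f p ≠ ∅ → p.1 ∣ zm m)).card : ℝ) ≤
      3 * X * ww (fun p : {p // p ∈ SP J (X : ℝ)} => 1 / (nN p.1 : ℝ)) f := by
  have hX0 : (0 : ℝ) < X := by exact_mod_cast hX
  have hprod := supp_prod hJ hX0 hy hK hf
  set G : Finset GaussianInt :=
    ((Finset.univ : Finset {p // p ∈ SP J (X : ℝ)}).filter (fun p => f p ≠ ∅)).image
      Subtype.val with hG
  have hGp : ∏ p ∈ G, (nN p : ℝ) =
      ∏ p ∈ (Finset.univ : Finset {p // p ∈ SP J (X : ℝ)}).filter (fun p => f p ≠ ∅),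
        (nN p.1 : ℝ) := by
    rw [hG, Finset.prod_image (fun a _ b _ h => Subtype.ext h)]
  have h1 := nct G (by
    intro p hp
    rw [hG, Finset.mem_image] at hp
    obtain ⟨r, _, rfl⟩ := hp
    exact SP_pi r.2) X (by rw [hGp]; exact hprod)
  have h2 : (Finset.Icc (-(X : ℤ)) X).filter (fun m => ∀ p, f p ≠ ∅ → p.1 ∣ zm m) =
      (Finset.Icc (-(X : ℤ)) X).filter (fun m => ∀ p ∈ G, p ∣ zm m) := by
    apply Finset.filter_congr
    intro m _
    constructor
    · intro h p hp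
      rw [hG, Finset.mem_image] at hp
      obtain ⟨r, hr, rfl⟩ := hp
      rw [Finset.mem_filter] at hr
      exact h r hr.2
    · intro h p hp
      apply h
      rw [hG, Finset.mem_image]
      exact ⟨p, Finset.mem_filter.2 ⟨Finset.mem_univ _, hp⟩, rfl⟩
  rw [h2]
  refine h1.trans (le_of_eq ?_)
  rw [hGp]
  unfold ww
  rw [Finset.prod_div_distrib, Finset.prod_const_one, div_eq_mul_one_div]

open Classical in
private lemma pow_bound {J : ℕ} {y t ε κ0 : ℝ} (hJ0 : (0 : ℝ) < J) (hy : 1 ≤ y) (ht : t = log y)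
    (hκ0 : κ0 = 2 * (1 + ε) * log 2 - 1) (hκp : 0 ≤ κ0) {K : ℕ}
    (hK : (K : ℝ) ≤ 2 * (1 + ε) * (t / J)) {j : ℕ} (hj : j + 1 ≤ J) :
    (2 : ℝ) ^ ((j + 1) * K) / y ^ (((j + 1 : ℕ) : ℝ) / J) ≤ y ^ κ0 := by
  have hyp : 0 < y := by linarith
  have ht0 : 0 ≤ t := by rw [ht]; exact log_nonneg hy
  have hl2 : 0 < log 2 := log_pos (by norm_num)
  have h1 : (2 : ℝ) ^ ((j + 1) * K) = exp (log 2 * (((j + 1 : ℕ) : ℝ) * K)) := by
    rw [← rpow_natCast, rpow_def_of_pos (by norm_num)]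
    push_cast
    ring_nf
  have h2 : y ^ (((j + 1 : ℕ) : ℝ) / J) = exp (t * (((j + 1 : ℕ) : ℝ) / J)) := by
    rw [rpow_def_of_pos hyp, ht]
  have h3 : y ^ κ0 = exp (t * κ0) := by
    rw [rpow_def_of_pos hyp, ht]
  rw [h1, h2, h3, ← exp_sub]
  apply exp_le_exp.2
  set s : ℝ := ((j + 1 : ℕ) : ℝ) with hs
  have hs0 : 0 ≤ s := by positivity
  have hsJ : s / J ≤ 1 := by
    rw [div_le_one hJ0, hs]
    exact_mod_cast hj
  have h4 : log 2 * (s * K) ≤ log 2 * (s * (2 * (1 + ε) * (t / J))) := by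
    apply mul_le_mul_of_nonneg_left _ hl2.le
    exact mul_le_mul_of_nonneg_left hK hs0
  have h5 : log 2 * (s * (2 * (1 + ε) * (t / J))) - t * (s / J) = (s / J) * (t * κ0) := by
    rw [hκ0]; ring
  have h6 : (s / J) * (t * κ0) ≤ 1 * (t * κ0) :=
    mul_le_mul_of_nonneg_right hsJ (by positivity)
  linarith

open Classical in
theorem BADN (ε κ1 ℓ : ℝ) (J : ℕ) (hε : 0 < ε) (hJ : 3 ≤ J)
    (hκ : 2 * (1 + ε) * log 2 - 1 < κ1) (hℓ : 0 ≤ ℓ) : ∃ X0 : ℕ, ∀ X : ℕ, X0 ≤ X →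
    (((Finset.Icc (-(X : ℤ)) X).filter (fun m =>
      (∀ i < J - 2, (((BP J X i).filter (fun p => p ∣ zm m)).card : ℝ) ≤
        2 * (1 + ε) * (log (log X) / J)) ∧
      Many (Mm J X m) ℓ ((log X) ^ κ1))).card : ℝ) ≤ X / (log X) ^ 2 := by
  obtain ⟨κ0, hκ0⟩ : ∃ κ0 : ℝ, κ0 = 2 * (1 + ε) * log 2 - 1 := ⟨_, rfl⟩
  rw [← hκ0] at hκ
  have hl2 : 0.6931471803 < log 2 := log_two_gt_d9
  have hκp : 0 < κ0 := by
    rw [hκ0]
    nlinarith
  obtain ⟨C1, hC1, hmert⟩ := BP_mertens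
  obtain ⟨C0, hC0, hwin⟩ := BP_window
  have hJ1 : 1 ≤ J := by omega
  have hJ0 : (0 : ℝ) < J := by exact_mod_cast hJ1
  obtain ⟨q, hq⟩ := exists_nat_ge (5 / (κ1 - κ0))
  have hd : 0 < κ1 - κ0 := by linarith
  have hq5 : 5 ≤ (κ1 - κ0) * q := by
    rw [div_le_iff₀ hd] at hq
    linarith
  have hq1 : 1 ≤ q := by
    rcases Nat.eq_zero_or_pos q with h | h
    · rw [h] at hq5
      norm_num at hq5
    · exact h
  obtain ⟨A, hA, htup⟩ := TUP q hq1 (J - 2) C0 ℓ hC0.le hℓ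
  obtain ⟨X0, hX0⟩ := ev_log (P := fun y => 1 ≤ y ∧
      (2 * (1 + ε)) * log y ≤ y ^ ((1 : ℝ) / J) ∧ 3 * A * exp (2 * J * C1) ≤ y)
    ((Filter.eventually_ge_atTop (1 : ℝ)).and
      ((ev_ll (2 * (1 + ε)) J hJ1).and (Filter.eventually_ge_atTop _)))
  refine ⟨X0, fun X hX => ?_⟩
  obtain ⟨hy1, hlog, hbig⟩ := hX0 X hX
  obtain ⟨y, hyd⟩ : ∃ y : ℝ, y = log (X : ℝ) := ⟨_, rfl⟩
  obtain ⟨t, htd⟩ : ∃ t : ℝ, t = log y := ⟨_, rfl⟩
  have hy1' : 1 ≤ y := by rw [hyd]; exact hy1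
  have hyp : 0 < y := by linarith
  have ht0 : 0 ≤ t := by rw [htd]; exact log_nonneg hy1'
  have hXpn : 1 ≤ X := by
    rcases Nat.eq_zero_or_pos X with h | h
    · rw [h] at hy1
      simp at hy1
      norm_num at hy1
    · exact h
  have hXp : (0 : ℝ) < X := by exact_mod_cast hXpn
  have hxe : exp 1 ≤ (X : ℝ) := (le_log_iff_exp_le hXp).1 hy1
  obtain ⟨K, hKd⟩ : ∃ K : ℕ, K = ⌊2 * (1 + ε) * (t / J)⌋₊ := ⟨_, rfl⟩
  have hKle : (K : ℝ) ≤ 2 * (1 + ε) * (t / J) := by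
    rw [hKd]
    exact Nat.floor_le (by positivity)
  have hK2 : ((J - 2 : ℕ) : ℝ) * K ≤ (log (X : ℝ)) ^ ((1 : ℝ) / J) := by
    refine le_trans ?_ hlog
    rw [← hyd, ← htd]
    calc ((J - 2 : ℕ) : ℝ) * K ≤ (J : ℝ) * (2 * (1 + ε) * (t / J)) := by
          apply mul_le_mul _ hKle (by positivity) (by positivity)
          exact_mod_cast Nat.sub_le J 2
      _ = 2 * (1 + ε) * t := by field_simp
  have hΘ : 1 ≤ y ^ κ0 := one_le_rpow hy1' hκp.le
  have hT := htup {p // p ∈ SP J (X : ℝ)} (fun p => 1 / (nN p.1 : ℝ))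
    (fun p => log (nN p.1 : ℝ)) (bl J (X : ℝ)) (fun _ => K) (fun _ => t / J + C1)
    (fun i => yy J (X : ℝ) (i + 1)) (y ^ κ0) (fun p => by positivity)
    (fun i _ => by unfold yy; rw [← hyd]; exact rpow_pos_of_pos hyp _)
    (by
      intro i _
      have h1 := sum_bl J (X : ℝ) i (fun _ => True) (fun p => 1 / (nN p : ℝ))
        (fun p => by positivity)
      simp only [and_true, Finset.filter_true] at h1
      refine h1.trans ?_
      have h2 := (abs_le.1 (hmert J X i hJ1 hxe)).2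
      rw [← hyd, ← htd] at h2
      linarith)
    (by
      intro i _ a s hs
      have h1 := sum_bl J (X : ℝ) i (fun p => a ≤ log (nN p : ℝ) ∧ log (nN p : ℝ) ≤ a + s)
        (fun p => 1 / (nN p : ℝ)) (fun p => by positivity)
      have h2 := hwin J X i hJ1 hxe a s hs
      refine le_trans (le_of_eq (Finset.sum_congr ?_ (fun _ _ => rfl))) (h1.trans
        (le_trans (le_of_eq (Finset.sum_congr ?_ (fun _ _ => rfl))) h2)) <;>
      · ext p
        simp)
    hΘ
    (by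
      intro j hj
      have h1 : ∑ i ∈ Finset.range (j + 1), (fun _ : ℕ => K) i = (j + 1) * K := by simp
      rw [h1]
      unfold yy
      rw [← hyd]
      exact pow_bound hJ0 hy1' htd hκ0 hκp.le hKle (by omega))
  have hFF : ∑ f ∈ FF J (X : ℝ) q K ℓ,
      ww (fun p : {p // p ∈ SP J (X : ℝ)} => 1 / (nN p.1 : ℝ)) f ≤
        A * exp (2 * ∑ i ∈ Finset.range (J - 2), (t / J + C1)) * (y ^ κ0) ^ q := by
    unfold FF
    refine le_trans (le_of_eq (Finset.sum_congr ?_ fun _ _ => rfl)) hT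
    ext f
    simp only [Finset.mem_filter, Finset.mem_univ, true_and]
  have hexp : exp (2 * ∑ i ∈ Finset.range (J - 2), (t / J + C1)) ≤ y ^ 2 * exp (2 * J * C1) := by
    have h1 : y ^ 2 = exp (2 * t) := by
      rw [htd, two_mul, exp_add, exp_log hyp, sq]
    rw [h1, ← exp_add]
    apply exp_le_exp.2
    rw [Finset.sum_const, Finset.card_range, nsmul_eq_mul]
    have h2 : ((J - 2 : ℕ) : ℝ) * (t / J + C1) ≤ (J : ℝ) * (t / J + C1) := by
      apply mul_le_mul_of_nonneg_right _ (by positivity)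
      exact_mod_cast Nat.sub_le J 2
    have h3 : (J : ℝ) * (t / J + C1) = t + J * C1 := by field_simp
    linarith
  -- the double count
  set MM := (Finset.Icc (-(X : ℤ)) X).filter (fun m =>
      (∀ i < J - 2, (((BP J X i).filter (fun p => p ∣ zm m)).card : ℝ) ≤
        2 * (1 + ε) * (log (log X) / J)) ∧
      Many (Mm J X m) ℓ ((log X) ^ κ1)) with hMM
  have h1 : (MM.card : ℝ) * (y ^ κ1) ^ q ≤
      ∑ m ∈ MM, (((FF J (X : ℝ) q K ℓ).filter (fun f => ∀ p, f p ≠ ∅ → p.1 ∣ zm m)).card : ℝ) := by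
    rw [← nsmul_eq_mul, ← Finset.sum_const]
    apply Finset.sum_le_sum
    intro m hm
    rw [hMM, Finset.mem_filter] at hm
    apply count_tf q K hℓ (rpow_nonneg hyp.le _) m _ _
    · intro i hi
      rw [hKd]
      apply Nat.le_floor
      have := hm.2.1 i hi
      rw [← hyd, ← htd] at this
      exact this
    · rw [hyd]
      exact hm.2.2
  have h2 : ∑ m ∈ MM,
      (((FF J (X : ℝ) q K ℓ).filter (fun f => ∀ p, f p ≠ ∅ → p.1 ∣ zm m)).card : ℝ) ≤
      ∑ m ∈ Finset.Icc (-(X : ℤ)) X,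
        (((FF J (X : ℝ) q K ℓ).filter (fun f => ∀ p, f p ≠ ∅ → p.1 ∣ zm m)).card : ℝ) := by
    apply Finset.sum_le_sum_of_subset_of_nonneg
    · rw [hMM]
      exact Finset.filter_subset _ _
    · intro m _ _
      positivity
  have h3 : ∑ m ∈ Finset.Icc (-(X : ℤ)) X,
        (((FF J (X : ℝ) q K ℓ).filter (fun f => ∀ p, f p ≠ ∅ → p.1 ∣ zm m)).card : ℝ) =
      ∑ f ∈ FF J (X : ℝ) q K ℓ,
        (((Finset.Icc (-(X : ℤ)) X).filter (fun m => ∀ p, f p ≠ ∅ → p.1 ∣ zm m)).card : ℝ) := by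
    simp only [Finset.card_filter]
    push_cast
    rw [Finset.sum_comm]
  have h4 : ∑ f ∈ FF J (X : ℝ) q K ℓ,
        (((Finset.Icc (-(X : ℤ)) X).filter (fun m => ∀ p, f p ≠ ∅ → p.1 ∣ zm m)).card : ℝ) ≤
      3 * X * ∑ f ∈ FF J (X : ℝ) q K ℓ,
        ww (fun p : {p // p ∈ SP J (X : ℝ)} => 1 / (nN p.1 : ℝ)) f := by
    rw [Finset.mul_sum]
    apply Finset.sum_le_sum
    intro f hf
    exact count_f hJ hXpn hy1 hK2 hf
  have h5 : (MM.card : ℝ) * (y ^ κ1) ^ q ≤
      3 * X * (A * (y ^ 2 * exp (2 * J * C1)) * (y ^ κ0) ^ q) := by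
    calc (MM.card : ℝ) * (y ^ κ1) ^ q ≤ 3 * X * ∑ f ∈ FF J (X : ℝ) q K ℓ,
          ww (fun p : {p // p ∈ SP J (X : ℝ)} => 1 / (nN p.1 : ℝ)) f :=
          h1.trans (h2.trans (h3.le.trans h4))
      _ ≤ 3 * X * (A * exp (2 * ∑ i ∈ Finset.range (J - 2), (t / J + C1)) * (y ^ κ0) ^ q) :=
          mul_le_mul_of_nonneg_left hFF (by positivity)
      _ ≤ _ := by
          apply mul_le_mul_of_nonneg_left _ (by positivity)
          apply mul_le_mul_of_nonneg_right _ (by positivity)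
          exact mul_le_mul_of_nonneg_left hexp hA.le
  have h6 : (y ^ κ0) ^ q * y ^ 5 ≤ (y ^ κ1) ^ q := by
    rw [← rpow_natCast (y ^ κ0), ← rpow_natCast (y ^ κ1), ← rpow_mul hyp.le, ← rpow_mul hyp.le,
      ← rpow_natCast y 5, ← rpow_add hyp]
    apply rpow_le_rpow_of_exponent_le hy1'
    push_cast
    linarith
  have hpos : 0 < (y ^ κ0) ^ q := by
    have := rpow_pos_of_pos hyp κ0
    positivity
  have h7 : ((MM.card : ℝ) * y ^ 2) * ((y ^ κ0) ^ q * y ^ 3) ≤
      X * ((y ^ κ0) ^ q * y ^ 3) := by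
    calc ((MM.card : ℝ) * y ^ 2) * ((y ^ κ0) ^ q * y ^ 3)
        = (MM.card : ℝ) * ((y ^ κ0) ^ q * y ^ 5) := by ring
      _ ≤ (MM.card : ℝ) * (y ^ κ1) ^ q := mul_le_mul_of_nonneg_left h6 (by positivity)
      _ ≤ 3 * X * (A * (y ^ 2 * exp (2 * J * C1)) * (y ^ κ0) ^ q) := h5
      _ = (3 * A * exp (2 * J * C1)) * (X * y ^ 2 * (y ^ κ0) ^ q) := by ring
      _ ≤ y * (X * y ^ 2 * (y ^ κ0) ^ q) := by
          apply mul_le_mul_of_nonneg_right _ (by positivity)
          rw [hyd]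
          exact hbig
      _ = X * ((y ^ κ0) ^ q * y ^ 3) := by ring
  have h8 : (MM.card : ℝ) * y ^ 2 ≤ X := le_of_mul_le_mul_right h7 (by positivity)
  rw [← hyd]
  rw [le_div_iff₀ (by positivity)]
  exact h8

end Pool.Agent.NSqD
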