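import Pool.Agent.Lib.NSqD.Win

/-!
# RBD: the number of representations of a good `m`

Put `z = zm m`, `t = log log X`. `E` is a set of pairs with `star u * v = z`; `(u, v)` is determined by
`g = star u ∣ z`. `rep_trivial`: `#E ≤ #divG z ≤ 4 * 2^(OmG z)`, `OmG z = OmG (star u) + OmG v ≤
2 (1 + ε) t`. `rep_block`: a prime dividing `z` divides `star u` or `v`.
`rep_good`: `M = Mm J X m`, `P_M = ∏_{p ∈ M} p ∣ z` (distinct elements of `IsPi` are not associated),
`z = P_M * w`; no `p ∈ SP` divides `w` (`p^2 ∤ z`). For `(u, v) ∈ E` put `g = star u`,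
`A = {p ∈ M : p ∣ g}`, `g = P_A * h`; then `h ∣ P_{M \ A} * w` and no `p ∈ M \ A` divides `h`, so
`h ∣ w`; `(h, A)` determines `(u, v)`, and `sA A = log N g - log N h ∈ [log (δ X) - log N h, log X - log N h]`,
a window of length `log (1/δ)`: at most `R` possible `A` for given `h` (`¬ Many`). So
`#E ≤ #divG w * R ≤ 4 * 2^(OmG w) * R`. `OmG w = OmG z - #M`, `OmG z ≤ 2 (1 + ε) t`; no `p ∈ SP` divides
both `star u` and `v` (`p^2 ∤ z`), so `#M = #{p ∈ SP : p ∣ star u} + #{p ∈ SP : p ∣ v} ≥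
2 (J - 2) (1 - ε) t / J` (blocks are disjoint, `BP_disj`); hence `OmG w ≤ (4/J + 4 ε) t`.
-/

set_option autoImplicit false

namespace Pool.Agent.NSqD

open Real
open Pool.Agent.NSqP
open Pool.Agent.MP484c84Par (ballG mem_ballG crossG dotG ne_zero_of_cross)

private lemma pow_two_exp (k : ℕ) (s : ℝ) (h : (k : ℝ) ≤ s) : (2 : ℝ) ^ k ≤ exp (log 2 * s) := by
  have h1 : (2 : ℝ) ^ k = exp (log 2 * k) := by
    rw [mul_comm, exp_nat_mul, exp_log (by norm_num)]
  rw [h1]
  exact exp_le_exp.2 (mul_le_mul_of_nonneg_left h (log_nonneg (by norm_num)))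

private lemma star_ne {u : GaussianInt} (hu : u ≠ 0) : star u ≠ 0 :=
  fun h => hu (star_eq_zero.1 h)

private lemma pair_inj {m : ℤ} {p q : GaussianInt × GaussianInt}
    (hp : crossG p.1 p.2 = 1 ∧ dotG p.1 p.2 = m) (hq : crossG q.1 q.2 = 1 ∧ dotG q.1 q.2 = m)
    (h : star p.1 = star q.1) : p = q := by
  have h1 : p.1 = q.1 := star_injective h
  have h2 : star p.1 * p.2 = star q.1 * q.2 := by
    rw [star_mul_eq hp.1, star_mul_eq hq.1, hp.2, hq.2]
  have h3 : star q.1 ≠ 0 := star_ne (ne_zero_of_cross hq.1).1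
  rw [h] at h2
  exact Prod.ext h1 (mul_left_cancel₀ h3 h2)

theorem rep_trivial (ε : ℝ) (J X : ℕ) (m : ℤ) (E : Finset (GaussianInt × GaussianInt))
    (hE : ∀ p ∈ E, crossG p.1 p.2 = 1 ∧ dotG p.1 p.2 = m ∧
      Tp ε J X (star p.1) ∧ Tp ε J X p.2) :
    (E.card : ℝ) ≤ 4 * exp (log 2 * (2 * (1 + ε) * log (log X))) := by
  classical
  rcases E.eq_empty_or_nonempty with rfl | ⟨p0, hp0⟩
  · rw [Finset.card_empty, Nat.cast_zero]
    positivity
  have h0 := hE p0 hp0
  have hz : star p0.1 * p0.2 = zm m := by rw [star_mul_eq h0.1, h0.2.1]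
  have hne := ne_zero_of_cross h0.1
  have hOm : (OmG (zm m) : ℝ) ≤ 2 * (1 + ε) * log (log X) := by
    rw [← hz, OmG_mul (star_ne hne.1) hne.2]
    push_cast
    have a := h0.2.2.1.1
    have b := h0.2.2.2.1
    linarith
  have hcard : E.card ≤ (divG (zm m)).card := by
    apply Finset.card_le_card_of_injOn (fun p => star p.1)
    · intro p hp
      have h := hE p hp
      rw [Finset.mem_coe, mem_divG (zm_ne m)]
      exact ⟨p.2, by rw [star_mul_eq h.1, h.2.1]⟩
    · intro p hp q hq h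
      exact pair_inj ⟨(hE p hp).1, (hE p hp).2.1⟩ ⟨(hE q hq).1, (hE q hq).2.1⟩ h
  have h4 : (E.card : ℝ) ≤ 4 * 2 ^ OmG (zm m) := by
    exact_mod_cast hcard.trans (card_div_le (zm_ne m))
  have h5 := pow_two_exp _ _ hOm
  linarith

open Classical in
theorem rep_block (ε : ℝ) (J X : ℕ) (u v : GaussianInt) (h : crossG u v = 1)
    (hu : Tp ε J X (star u)) (hv : Tp ε J X v) : ∀ i < J - 2,
      (((BP J X i).filter (fun p => p ∣ zm (dotG u v))).card : ℝ) ≤
        2 * (1 + ε) * (log (log X) / J) := by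
  intro i hi
  have h1 := (abs_le.1 (hu.2 i hi)).2
  have h2 := (abs_le.1 (hv.2 i hi)).2
  have h3 : (BP J X i).filter (fun p => p ∣ zm (dotG u v)) ⊆
      (BP J X i).filter (fun p => p ∣ star u) ∪ (BP J X i).filter (fun p => p ∣ v) := by
    intro p hp
    rw [Finset.mem_filter] at hp
    rw [Finset.mem_union, Finset.mem_filter, Finset.mem_filter]
    have hP : Prime p := ((mem_BP.1 hp.1).2.2).prime
    have h4 := hp.2
    rw [← star_mul_eq h] at h4
    rcases hP.dvd_or_dvd h4 with h5 | h5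
    · exact Or.inl ⟨hp.1, h5⟩
    · exact Or.inr ⟨hp.1, h5⟩
  have h4 : (((BP J X i).filter (fun p => p ∣ zm (dotG u v))).card : ℝ) ≤
      ((BP J X i).filter (fun p => p ∣ star u)).card +
        ((BP J X i).filter (fun p => p ∣ v)).card := by
    exact_mod_cast (Finset.card_le_card h3).trans (Finset.card_union_le _ _)
  linarith

private lemma SP_pi {J : ℕ} {x : ℝ} {p : GaussianInt} (hp : p ∈ SP J x) : IsPi p := by
  obtain ⟨i, _, h⟩ := mem_SP.1 hp
  exact (mem_BP.1 h).2.2

private lemma OmG_prod (S : Finset GaussianInt) (hS : ∀ p ∈ S, IsPi p) :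
    OmG (∏ p ∈ S, p) = S.card := by
  classical
  induction S using Finset.induction_on with
  | empty => simp [OmG_unit isUnit_one]
  | insert a S ha ih =>
    rw [Finset.prod_insert ha, OmG_mul, OmG_prime, ih, Finset.card_insert_of_notMem ha, add_comm]
    · exact fun p hp => hS p (Finset.mem_insert_of_mem hp)
    · exact (hS a (Finset.mem_insert_self _ _)).prime
    · exact (hS a (Finset.mem_insert_self _ _)).ne_zero
    · exact Finset.prod_ne_zero_iff.2 fun p hp => (hS p (Finset.mem_insert_of_mem hp)).ne_zero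

private lemma sA_eq (S : Finset GaussianInt) (hS : ∀ p ∈ S, IsPi p) :
    sA S = log (nN (∏ p ∈ S, p)) := by
  classical
  unfold sA
  induction S using Finset.induction_on with
  | empty => simp [nN_one]
  | insert a S ha ih =>
    have hS' : ∀ p ∈ S, IsPi p := fun p hp => hS p (Finset.mem_insert_of_mem hp)
    have h0 : (∏ p ∈ S, p) ≠ 0 := Finset.prod_ne_zero_iff.2 fun p hp => (hS' p hp).ne_zero
    rw [Finset.sum_insert ha, Finset.prod_insert ha, nN_mul, ih hS', Nat.cast_mul, log_mul]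
    · exact_mod_cast (nN_pos (hS a (Finset.mem_insert_self _ _)).ne_zero).ne'
    · exact_mod_cast (nN_pos h0).ne'

open Classical in
/-- lower bound for the number of medium prime factors of a typical element -/
private lemma SP_count {ε : ℝ} {J X : ℕ} (hJ : 3 ≤ J) (hX : 16 ≤ X) {u : GaussianInt}
    (hu : Tp ε J X u) :
    ((J : ℝ) - 2) * ((1 - ε) * (log (log X) / J)) ≤
      (((SP J X).filter (fun p => p ∣ u)).card : ℝ) := by
  have hx : exp 1 ≤ (X : ℝ) := by
    have h1 := exp_one_lt_d9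
    have h2 : (16 : ℝ) ≤ X := by exact_mod_cast hX
    linarith
  have h1 : ((SP J X).filter (fun p => p ∣ u)).card =
      ∑ i ∈ Finset.range (J - 2), ((BP J X i).filter (fun p => p ∣ u)).card := by
    unfold SP
    rw [Finset.filter_biUnion, Finset.card_biUnion]
    intro i _ j _ hne
    show Disjoint _ _
    rw [Finset.disjoint_left]
    intro p hp hq
    exact hne (BP_disj J X i j hx p (Finset.mem_filter.1 hp).1 (Finset.mem_filter.1 hq).1)
  rw [h1]
  push_cast
  have h2 : ∑ i ∈ Finset.range (J - 2), ((1 - ε) * (log (log X) / J)) ≤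
      ∑ i ∈ Finset.range (J - 2), (((BP J X i).filter (fun p => p ∣ u)).card : ℝ) := by
    apply Finset.sum_le_sum
    intro i hi
    have h := (abs_le.1 (hu.2 i (Finset.mem_range.1 hi))).1
    linarith
  rw [Finset.sum_const, Finset.card_range, nsmul_eq_mul] at h2
  have h3 : ((J - 2 : ℕ) : ℝ) = (J : ℝ) - 2 := by
    rw [Nat.cast_sub (by omega)]
    norm_num
  rw [h3] at h2
  exact h2

theorem rep_good (ε δ R : ℝ) (J X : ℕ) (m : ℤ) (E : Finset (GaussianInt × GaussianInt))
    (hε : 0 < ε) (hJ : 3 ≤ J) (hX : 16 ≤ X) (hδ : 0 < δ) (hδ1 : δ ≤ 1) (hR : 0 ≤ R)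
    (hE : ∀ p ∈ E, crossG p.1 p.2 = 1 ∧ dotG p.1 p.2 = m ∧ δ * X ≤ nN p.1 ∧ nN p.1 ≤ X ∧
      Tp ε J X (star p.1) ∧ Tp ε J X p.2)
    (hsq : ∀ p ∈ SP J X, ¬ p ^ 2 ∣ zm m)
    (hM : ¬ Many (Mm J X m) (log (1 / δ)) R) :
    (E.card : ℝ) ≤ 4 * exp (log 2 * ((4 / J + 4 * ε) * log (log X))) * R := by
  classical
  rcases E.eq_empty_or_nonempty with rfl | ⟨p0, hp0⟩
  · rw [Finset.card_empty, Nat.cast_zero]
    positivity
  obtain ⟨M, hMdef⟩ : ∃ M, M = Mm J X m := ⟨_, rfl⟩
  have hMpi : ∀ p ∈ M, IsPi p := fun p hp => by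
    rw [hMdef] at hp
    exact SP_pi (mem_Mm.1 hp).1
  have hz0 := zm_ne m
  have hX0 : (0 : ℝ) < X := by
    have : (16 : ℝ) ≤ X := by exact_mod_cast hX
    linarith
  -- the cofactor
  have hPM : (∏ p ∈ M, p) ∣ zm m := by
    rw [prod_dvd_iff M hMpi]
    intro p hp
    rw [hMdef] at hp
    exact (mem_Mm.1 hp).2
  obtain ⟨w, hw⟩ := hPM
  have hPM0 : (∏ p ∈ M, p) ≠ 0 := Finset.prod_ne_zero_iff.2 fun p hp => (hMpi p hp).ne_zero
  have hw0 : w ≠ 0 := by
    rintro rfl
    rw [mul_zero] at hw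
    exact hz0 hw
  -- divisors
  have hdec : ∀ g : GaussianInt, g ∣ zm m → ∃ h : GaussianInt,
      g = (∏ p ∈ M.filter (fun p => p ∣ g), p) * h ∧ h ∣ w ∧ h ≠ 0 := by
    intro g hg
    have hAM : M.filter (fun p => p ∣ g) ⊆ M := Finset.filter_subset _ _
    have h1 : (∏ p ∈ M.filter (fun p => p ∣ g), p) ∣ g := by
      rw [prod_dvd_iff _ (fun p hp => hMpi p (hAM hp))]
      exact fun p hp => (Finset.mem_filter.1 hp).2
    obtain ⟨h, hh⟩ := h1
    have hg0 : g ≠ 0 := by
      rintro rfl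
      exact hz0 (zero_dvd_iff.1 hg)
    have hh0 : h ≠ 0 := by
      rintro rfl
      rw [mul_zero] at hh
      exact hg0 hh
    refine ⟨h, hh, ?_, hh0⟩
    have hA0 : (∏ p ∈ M.filter (fun p => p ∣ g), p) ≠ 0 :=
      Finset.prod_ne_zero_iff.2 fun p hp => (hMpi p (hAM hp)).ne_zero
    have h2 : (∏ p ∈ M.filter (fun p => p ∣ g), p) * h ∣
        (∏ p ∈ M.filter (fun p => p ∣ g), p) * ((∏ p ∈ M \ M.filter (fun p => p ∣ g), p) * w) := by
      rw [← hh, ← mul_assoc, mul_comm (∏ p ∈ M.filter (fun p => p ∣ g), p),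
        Finset.prod_sdiff hAM, ← hw]
      exact hg
    have h3 := (mul_dvd_mul_iff_left hA0).1 h2
    have h4 : IsCoprime h (∏ p ∈ M \ M.filter (fun p => p ∣ g), p) := by
      apply IsCoprime.prod_right
      intro p hp
      rw [Finset.mem_sdiff] at hp
      have hp' := hMpi p hp.1
      apply IsCoprime.symm
      rw [Irreducible.coprime_iff_not_dvd hp'.prime.irreducible]
      intro hph
      apply hp.2
      rw [Finset.mem_filter]
      refine ⟨hp.1, ?_⟩
      rw [hh]
      exact Dvd.dvd.mul_left hph _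
    exact h4.dvd_of_dvd_mul_left h3
  choose! hf hf1 hf2 hf3 using hdec
  -- the window count
  have hwin : ∀ a : ℝ, ((M.powerset.filter (fun A => a ≤ sA A ∧ sA A ≤ a + log (1 / δ))).card : ℝ) ≤
      R := by
    intro a
    by_contra hcon
    push Not at hcon
    apply hM
    rw [← hMdef]
    refine ⟨a, ?_⟩
    convert hcon using 3
  have hcardE : E.card ≤ ∑ h ∈ divG w, (M.powerset.filter (fun A =>
      log (δ * X) - log (nN h) ≤ sA A ∧
        sA A ≤ log (δ * X) - log (nN h) + log (1 / δ))).card := by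
    rw [← Finset.card_sigma]
    apply Finset.card_le_card_of_injOn (fun p => (⟨hf (star p.1),
      M.filter (fun q => q ∣ star p.1)⟩ : (_ : GaussianInt) × Finset GaussianInt))
    · intro p hp
      have h := hE p hp
      have hg : star p.1 ∣ zm m := ⟨p.2, by rw [star_mul_eq h.1, h.2.1]⟩
      have hne := (ne_zero_of_cross h.1).1
      rw [Finset.mem_coe, Finset.mem_sigma]
      refine ⟨(mem_divG hw0).2 (hf2 _ hg), ?_⟩
      rw [Finset.mem_filter, Finset.mem_powerset]
      refine ⟨Finset.filter_subset _ _, ?_⟩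
      simp only
      have h1 : sA (M.filter (fun q => q ∣ star p.1)) =
          log (nN p.1) - log (nN (hf (star p.1))) := by
        rw [sA_eq _ (fun q hq => hMpi q (Finset.filter_subset _ _ hq))]
        have h2 : nN p.1 = nN (∏ q ∈ M.filter (fun q => q ∣ star p.1), q) *
            nN (hf (star p.1)) := by
          rw [← nN_mul, ← hf1 _ hg, nN_star]
        have h3 : (nN p.1 : ℝ) = (nN (∏ q ∈ M.filter (fun q => q ∣ star p.1), q) : ℝ) *
            (nN (hf (star p.1)) : ℝ) := by exact_mod_cast h2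
        have h4 : (nN (hf (star p.1)) : ℝ) ≠ 0 := by
          exact_mod_cast (nN_pos (hf3 _ hg)).ne'
        have h5 : (nN (∏ q ∈ M.filter (fun q => q ∣ star p.1), q) : ℝ) ≠ 0 := by
          have h6 : (∏ q ∈ M.filter (fun q => q ∣ star p.1), q) ≠ 0 :=
            Finset.prod_ne_zero_iff.2 fun q hq =>
              (hMpi q (Finset.filter_subset _ _ hq)).ne_zero
          exact_mod_cast (nN_pos h6).ne'
        rw [h3, log_mul h5 h4]
        ring
      have h2 : log (δ * X) ≤ log (nN p.1) :=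
        log_le_log (by positivity) h.2.2.1
      have h3 : log (nN p.1) ≤ log (δ * X) + log (1 / δ) := by
        rw [← log_mul (by positivity) (by positivity)]
        apply log_le_log
        · exact_mod_cast nN_pos hne
        · have : δ * (X : ℝ) * (1 / δ) = X := by field_simp
          rw [this]
          exact_mod_cast h.2.2.2.1
      rw [h1]
      constructor <;> linarith
    · intro p hp q hq hpq
      have h := hE p hp
      have h' := hE q hq
      have hg : star p.1 ∣ zm m := ⟨p.2, by rw [star_mul_eq h.1, h.2.1]⟩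
      have hg' : star q.1 ∣ zm m := ⟨q.2, by rw [star_mul_eq h'.1, h'.2.1]⟩
      simp only [Sigma.mk.injEq, heq_eq_eq] at hpq
      apply pair_inj ⟨h.1, h.2.1⟩ ⟨h'.1, h'.2.1⟩
      rw [hf1 _ hg, hf1 _ hg', hpq.1, hpq.2]
  have hcard2 : (E.card : ℝ) ≤ (divG w).card * R := by
    have h1 : (E.card : ℝ) ≤ ((∑ h ∈ divG w, (M.powerset.filter (fun A =>
      log (δ * X) - log (nN h) ≤ sA A ∧
        sA A ≤ log (δ * X) - log (nN h) + log (1 / δ))).card : ℕ) : ℝ) := by exact_mod_cast hcardE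
    refine h1.trans ?_
    push_cast
    refine (Finset.sum_le_sum (fun h _ => hwin (log (δ * X) - log (nN h)))).trans ?_
    rw [Finset.sum_const, nsmul_eq_mul]
  -- the number of prime factors of `w`
  have h0 := hE p0 hp0
  have hz : star p0.1 * p0.2 = zm m := by rw [star_mul_eq h0.1, h0.2.1]
  have hne := ne_zero_of_cross h0.1
  have hOmz : (OmG (zm m) : ℝ) ≤ 2 * (1 + ε) * log (log X) := by
    rw [← hz, OmG_mul (star_ne hne.1) hne.2]
    push_cast
    have a := h0.2.2.2.2.1.1
    have b := h0.2.2.2.2.2.1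
    linarith
  have hOmw : OmG (zm m) = M.card + OmG w := by
    rw [hw, OmG_mul hPM0 hw0, OmG_prod M hMpi]
  have hMcard : (((SP J X).filter (fun p => p ∣ star p0.1)).card : ℝ) +
      ((SP J X).filter (fun p => p ∣ p0.2)).card ≤ M.card := by
    have hd : Disjoint ((SP J X).filter (fun p => p ∣ star p0.1))
        ((SP J X).filter (fun p => p ∣ p0.2)) := by
      rw [Finset.disjoint_left]
      intro p hp hq
      rw [Finset.mem_filter] at hp hq
      apply hsq p hp.1
      rw [← hz, pow_two]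
      exact mul_dvd_mul hp.2 hq.2
    have h1 : ((SP J X).filter (fun p => p ∣ star p0.1)) ∪
        ((SP J X).filter (fun p => p ∣ p0.2)) ⊆ M := by
      intro p hp
      rw [hMdef, mem_Mm, ← hz]
      rw [Finset.mem_union, Finset.mem_filter, Finset.mem_filter] at hp
      rcases hp with hp | hp
      · exact ⟨hp.1, Dvd.dvd.mul_right hp.2 _⟩
      · exact ⟨hp.1, Dvd.dvd.mul_left hp.2 _⟩
    have h2 := Finset.card_le_card h1
    rw [Finset.card_union_of_disjoint hd] at h2
    exact_mod_cast h2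
  have hc1 := SP_count hJ hX h0.2.2.2.2.1
  have hc2 := SP_count hJ hX h0.2.2.2.2.2
  have ht : 0 ≤ log (log (X : ℝ)) := by
    apply log_nonneg
    have h1 : exp 1 ≤ (X : ℝ) := by
      have h1 := exp_one_lt_d9
      have h2 : (16 : ℝ) ≤ X := by exact_mod_cast hX
      linarith
    rw [le_log_iff_exp_le hX0]
    exact h1
  have hJ0 : (0 : ℝ) < J := by
    have : 0 < J := by omega
    exact_mod_cast this
  have hOmw2 : (OmG w : ℝ) ≤ (4 / J + 4 * ε) * log (log X) := by
    have h1 : (OmG (zm m) : ℝ) = M.card + OmG w := by exact_mod_cast hOmw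
    have h2 : (OmG w : ℝ) ≤ 2 * (1 + ε) * log (log X) -
        2 * (((J : ℝ) - 2) * ((1 - ε) * (log (log X) / J))) := by linarith
    refine h2.trans ?_
    have h3 : 2 * (1 + ε) * log (log X) - 2 * (((J : ℝ) - 2) * ((1 - ε) * (log (log X) / J))) =
        (4 / J + 4 * ε) * log (log X) - 4 * ε * (log (log X) / J) := by
      field_simp
      ring
    rw [h3]
    have h4 : 0 ≤ 4 * ε * (log (log (X : ℝ)) / J) := by positivity
    linarith
  have h6 := pow_two_exp _ _ hOmw2
  have h7 : ((divG w).card : ℝ) ≤ 4 * 2 ^ OmG w := by exact_mod_cast card_div_le hw0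
  calc (E.card : ℝ) ≤ (divG w).card * R := hcard2
    _ ≤ (4 * exp (log 2 * ((4 / J + 4 * ε) * log (log X)))) * R := by
        apply mul_le_mul_of_nonneg_right _ hR
        linarith

end Pool.Agent.NSqD
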