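import Pool.Agent.Lib.NSqD.Typb
import Pool.Agent.Lib.NSqD.Badn
import Pool.Agent.Lib.NSqD.Rbd
import Pool.Agent.Lib.NSqP.Count

/-!
# CNT: from a positive proportion of edges to many `n`, with the exponent `2 log 2 - 1 + ε`

PROOF: frame as in `NSqP/Count.lean` (`small_edges`, `nb_count`, `cl_fst`, `cl_snd` there are private: copy).
Let `η = κ - (2 log 2 - 1)`, `ε = min (η / 20) (1/100)`, `J ≥ 3`, `J ≥ 1/ε`, `κ1 = 2 (1 + ε) log 2 - 1 + ε`.
`δ` with `C1 √δ ≤ c / 8`, `ℓ = log (1/δ)`. Remove from `EG P x` the edges with `N u ≤ δ x` or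
`N v ≤ δ x`, and those with `u` or `v` outside `T = {u : Tp u ∧ Tp (star u)}` (`TYPB2`; each `u` has at most
`3/√δ` neighbours): `E1`, `#E1 ≥ (c/2) x`. Let `Bad` be the set of the `m ∈ [-x, x]` in one of the two
sets of `BADN`, `BADS`: `#Bad ≤ 2 x / (log x)^2`; each `m` has at most `4 (log x)^1.4` edges in `E1`
(`rep_trivial`, `2 (1 + ε) log 2 ≤ 1.41`), so at most `(c/4) x` edges of `E1` have `dotG ∈ Bad`; the
others: at least `(c/4) x` edges, and each `m ∉ Bad` has at most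
`R' = 4 (log x)^((4/J + 4ε) log 2 + κ1)` edges (`rep_good`, the block condition holds by `rep_block`). So
there are at least `(c/4) x / R'` values `m = dotG`, at least half as many `n = |m|` in `{n ≤ x : P n}`
(`cl_image`), and `(c/8) x / R' ≥ x / (log x)^κ` for large `x` since
`(4/J + 4ε) log 2 + κ1 ≤ 2 log 2 - 1 + 8 ε < κ`.
-/

set_option autoImplicit false

namespace Pool.Agent.NSqD

open Real
open Pool.Agent.NSqP
open Pool.Agent.NSqC (EG mem_EG)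
open Pool.Agent.MP484c84Par (ballG mem_ballG crossG dotG)

private lemma cn_mem_ball {z : GaussianInt} {x : ℕ} : z ∈ ballG x ↔ nN z ≤ x := by
  rw [mem_ballG, ← nN_cast_int]
  exact Nat.cast_le

private lemma cn_sqrt {δ : ℝ} (hδ : 0 < δ) {x : ℕ} {u : GaussianInt} (hu : u ≠ 0)
    (h : δ * x ≤ nN u) : 3 * √((x : ℝ) / nN u) ≤ 3 / √δ := by
  have hN : (0 : ℝ) < nN u := by exact_mod_cast nN_pos hu
  have h1 : (x : ℝ) / nN u ≤ 1 / δ := by
    rw [div_le_div_iff₀ hN hδ]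
    linarith
  calc 3 * √((x : ℝ) / nN u) ≤ 3 * √(1 / δ) := by gcongr
    _ = 3 / √δ := by rw [Real.sqrt_div zero_le_one, Real.sqrt_one]; ring

private lemma cn_fst {δ : ℝ} (hδ : 0 < δ) {x : ℕ} (E : Finset (GaussianInt × GaussianInt))
    (T : Finset GaussianInt)
    (hE : ∀ p ∈ E, nN p.2 ≤ x ∧ crossG p.1 p.2 = 1 ∧ p.1 ∈ T)
    (hT : ∀ u ∈ T, u ≠ 0 ∧ δ * x ≤ nN u ∧ nN u ≤ x) :
    (E.card : ℝ) ≤ 3 / √δ * T.card := by
  classical
  have h0 : E.card = ∑ u ∈ T, (E.filter (fun p => p.1 = u)).card :=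
    Finset.card_eq_sum_card_fiberwise (fun p hp => (hE p hp).2.2)
  rw [h0]
  push_cast
  have h1 : ∀ u ∈ T, ((E.filter (fun p => p.1 = u)).card : ℝ) ≤ 3 / √δ := by
    intro u hu
    obtain ⟨hu0, hu1, hu2⟩ := hT u hu
    refine le_trans ?_ ((nb_count u hu0 x hu2).trans (cn_sqrt hδ hu0 hu1))
    norm_cast
    apply Finset.card_le_card_of_injOn (fun p => p.2)
    · intro p hp
      have hp' := Finset.mem_filter.1 (Finset.mem_coe.1 hp)
      obtain ⟨h1, h2, h3⟩ := hE p hp'.1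
      rw [Finset.mem_coe, Finset.mem_filter, cn_mem_ball]
      exact ⟨h1, by rw [← hp'.2]; exact h2⟩
    · intro p hp q hq h
      have hp' := Finset.mem_filter.1 (Finset.mem_coe.1 hp)
      have hq' := Finset.mem_filter.1 (Finset.mem_coe.1 hq)
      exact Prod.ext (hp'.2.trans hq'.2.symm) h
  calc ∑ u ∈ T, ((E.filter (fun p => p.1 = u)).card : ℝ) ≤ ∑ u ∈ T, 3 / √δ :=
        Finset.sum_le_sum h1
    _ = 3 / √δ * T.card := by rw [Finset.sum_const, nsmul_eq_mul, mul_comm]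

private lemma cn_snd {δ : ℝ} (hδ : 0 < δ) {x : ℕ} (E : Finset (GaussianInt × GaussianInt))
    (T : Finset GaussianInt)
    (hE : ∀ p ∈ E, nN p.1 ≤ x ∧ crossG p.1 p.2 = 1 ∧ p.2 ∈ T)
    (hT : ∀ u ∈ T, u ≠ 0 ∧ δ * x ≤ nN u ∧ nN u ≤ x) :
    (E.card : ℝ) ≤ 3 / √δ * T.card := by
  classical
  have h1 : (E.image (fun p => (p.2, -p.1))).card = E.card := by
    apply Finset.card_image_of_injOn
    intro p _ q _ h
    rw [Prod.mk.injEq] at h
    exact Prod.ext (neg_injective h.2) h.1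
  rw [← h1]
  apply cn_fst hδ _ T _ hT
  intro q hq
  rw [Finset.mem_image] at hq
  obtain ⟨p, hp, rfl⟩ := hq
  obtain ⟨h2, h3, h4⟩ := hE p hp
  refine ⟨?_, ?_, h4⟩
  · have : nN (-p.1) = nN p.1 := by simp [nN, Zsqrtd.norm_def]
    simpa [this] using h2
  · unfold crossG at h3 ⊢
    simp only [Zsqrtd.re_neg, Zsqrtd.im_neg]
    linarith

private lemma cn_ann {x : ℕ} {u : GaussianInt} (hu : u ≠ 0) (h : nN u ≤ x) :
    u ∈ ann 0 (x : ℝ) := by
  rw [mem_ann (Nat.cast_nonneg x)]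
  exact ⟨by exact_mod_cast nN_pos hu, by exact_mod_cast h⟩

private lemma cn_dot {x : ℕ} {p : GaussianInt × GaussianInt} (h1 : nN p.1 ≤ x) (h2 : nN p.2 ≤ x)
    (h3 : crossG p.1 p.2 = 1) : (dotG p.1 p.2).natAbs ≤ x := by
  have hdc := MP484c84Par.dot_cross p.1 p.2
  rw [h3] at hdc
  have g1 : p.1.norm ≤ (x : ℤ) := mem_ballG.1 (cn_mem_ball.2 h1)
  have g2 : p.2.norm ≤ (x : ℤ) := mem_ballG.1 (cn_mem_ball.2 h2)
  have hnn : p.1.norm * p.2.norm ≤ x * x :=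
    mul_le_mul g1 g2 (MP484c84Par.norm_nonneg' _) (by positivity)
  have : (dotG p.1 p.2).natAbs ^ 2 ≤ x ^ 2 := by
    have : ((dotG p.1 p.2).natAbs ^ 2 : ℤ) ≤ x ^ 2 := by
      rw [Int.natCast_natAbs, sq_abs]; nlinarith
    exact_mod_cast this
  exact (Nat.pow_le_pow_iff_left (by norm_num)).1 this

open Classical in
private lemma cn_image {P : ℕ → Prop} (x : ℕ) (E : Finset (GaussianInt × GaussianInt))
    (hE : E ⊆ EG P x) :
    (E.image (fun p => dotG p.1 p.2)).card ≤ 2 * ((Finset.Icc 1 x).filter P).card := by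
  have hmaps : ∀ d ∈ E.image (fun p => dotG p.1 p.2), d.natAbs ∈ (Finset.Icc 1 x).filter P := by
    intro d hd
    rw [Finset.mem_image] at hd
    obtain ⟨p, hp, rfl⟩ := hd
    obtain ⟨h1, h2, h3, h4, h5⟩ := mem_EG.1 (hE hp)
    rw [Finset.mem_filter, Finset.mem_Icc]
    exact ⟨⟨by omega, cn_dot h1 h2 h3⟩, h5⟩
  refine Finset.card_le_mul_card_image_of_maps_to hmaps 2 ?_
  intro n _
  have hsub : (E.image (fun p => dotG p.1 p.2)).filter (fun d => d.natAbs = n) ⊆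
      {(n : ℤ), -(n : ℤ)} := by
    intro d hd
    have h := (Finset.mem_filter.1 hd).2
    rw [Finset.mem_insert, Finset.mem_singleton]
    omega
  exact (Finset.card_le_card hsub).trans Finset.card_le_two

/-- `A ≤ B exp (b t)` for large `t` -/
private lemma cn_large (A B b : ℝ) (hB : 0 < B) (hb : 0 < b) :
    ∀ᶠ t : ℝ in Filter.atTop, A ≤ B * exp (b * t) := by
  have h1 : Filter.Tendsto (fun t : ℝ => exp (b * t)) Filter.atTop Filter.atTop :=
    Real.tendsto_exp_atTop.comp (Filter.tendsto_id.const_mul_atTop hb)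
  exact (h1.const_mul_atTop hB).eventually_ge_atTop A

open Classical in
theorem count_D (c κ : ℝ) (hc : 0 < c) (hκ : 2 * log 2 - 1 < κ) : ∃ x0 : ℕ, ∀ x : ℕ, x0 ≤ x →
    ∀ P : ℕ → Prop, c * x ≤ ((EG P x).card : ℝ) →
      (x : ℝ) / (log x) ^ κ ≤ (((Finset.Icc 1 x).filter P).card : ℝ) := by
  have hlog2 : log 2 < 0.6931471808 := Real.log_two_lt_d9
  have hlog2p : 0 < log 2 := Real.log_pos (by norm_num)
  obtain ⟨C1, hC1, hsm⟩ := small_edges
  -- the parameters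
  obtain ⟨η, hη⟩ : ∃ η : ℝ, η = κ - (2 * log 2 - 1) := ⟨_, rfl⟩
  have hη0 : 0 < η := by rw [hη]; linarith
  obtain ⟨ε, hε0, hε1, hε2⟩ : ∃ ε : ℝ, 0 < ε ∧ ε ≤ η / 20 ∧ ε ≤ 1 / 100 :=
    ⟨min (η / 20) (1 / 100), by positivity, min_le_left _ _, min_le_right _ _⟩
  obtain ⟨J, hJ3, hJε⟩ : ∃ J : ℕ, 3 ≤ J ∧ 1 / ε ≤ J := by
    obtain ⟨n, hn⟩ := exists_nat_ge (1 / ε)
    exact ⟨max 3 n, le_max_left _ _, hn.trans (by exact_mod_cast le_max_right _ _)⟩
  have hJ0 : (0 : ℝ) < J := by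
    have : (3 : ℝ) ≤ J := by exact_mod_cast hJ3
    linarith
  have hJinv : 1 / (J : ℝ) ≤ ε := by
    rw [div_le_iff₀ hε0] at hJε
    rw [div_le_iff₀ hJ0]
    linarith
  obtain ⟨κ1, hκ1⟩ : ∃ κ1 : ℝ, κ1 = 2 * (1 + ε) * log 2 - 1 + ε := ⟨_, rfl⟩
  obtain ⟨a, ha⟩ : ∃ a : ℝ, a = log 2 * (4 / J + 4 * ε) + κ1 := ⟨_, rfl⟩
  have haκ : a ≤ κ - η / 2 := by
    have h1 : 4 / (J : ℝ) ≤ 4 * ε := by
      have : 4 / (J : ℝ) = 4 * (1 / J) := by ring
      rw [this]; linarith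
    have h2 : log 2 * (4 / J + 4 * ε) ≤ log 2 * (8 * ε) := by
      apply mul_le_mul_of_nonneg_left _ hlog2p.le
      linarith
    have h3 : log 2 * ε ≤ 0.6931471808 * ε := mul_le_mul_of_nonneg_right hlog2.le hε0.le
    rw [ha, hκ1]
    nlinarith
  obtain ⟨C2, xt, hC2, hxt, htyp⟩ := TYPB2 ε hε0 J hJ3
  obtain ⟨δ, hδ0, hδ1, hδC⟩ : ∃ δ : ℝ, 0 < δ ∧ δ ≤ 1 ∧ C1 * √δ ≤ c / 8 := by
    refine ⟨min 1 ((c / (8 * C1)) ^ 2), by positivity, min_le_left _ _, ?_⟩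
    have h1 : √(min 1 ((c / (8 * C1)) ^ 2)) ≤ c / (8 * C1) := by
      rw [Real.sqrt_le_left (by positivity)]
      exact min_le_right _ _
    calc C1 * √(min 1 ((c / (8 * C1)) ^ 2)) ≤ C1 * (c / (8 * C1)) := by gcongr
      _ = c / 8 := by field_simp
  have hsδ : 0 < √δ := Real.sqrt_pos.2 hδ0
  obtain ⟨Xb, hbadn⟩ := BADN ε κ1 (log (1 / δ)) J hε0 hJ3 (by rw [hκ1]; linarith)
    (Real.log_nonneg (by rw [le_div_iff₀ hδ0]; linarith))
  obtain ⟨Xs, hbads⟩ := BADS J hJ3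
  -- large `x`
  have hev : ∀ᶠ t : ℝ in Filter.atTop, 32 ≤ c * exp (59 / 100 * t) ∧
      32 ≤ c * exp (η / 2 * t) ∧ 1 ≤ t ∧ 24 * C2 / (√δ * c) ≤ t :=
    (cn_large 32 c (59 / 100) hc (by norm_num)).and
      ((cn_large 32 c (η / 2) hc (by positivity)).and
        ((Filter.eventually_ge_atTop 1).and (Filter.eventually_ge_atTop _)))
  have hLL : Filter.Tendsto (fun x : ℕ => log (log (x : ℝ))) Filter.atTop Filter.atTop :=
    Real.tendsto_log_atTop.comp (Real.tendsto_log_atTop.comp tendsto_natCast_atTop_atTop)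
  obtain ⟨x1, hx1⟩ := Filter.eventually_atTop.1 (hLL.eventually hev)
  refine ⟨max (max x1 16) (max ⌈xt⌉₊ (max Xb Xs)), fun x hx P hE => ?_⟩
  rw [max_le_iff, max_le_iff, max_le_iff, max_le_iff] at hx
  obtain ⟨⟨hxx1, hxx16⟩, hxxt, hxxb, hxxs⟩ := hx
  obtain ⟨hbig1, hbig2, ht1, htC⟩ := hx1 x hxx1
  have hx16 : (16 : ℝ) ≤ x := by exact_mod_cast hxx16
  have hx0 : (0 : ℝ) < x := by linarith
  have hxt' : xt ≤ (x : ℝ) := Nat.ceil_le.1 hxxt
  obtain ⟨t, ht⟩ : ∃ t : ℝ, t = log (log (x : ℝ)) := ⟨_, rfl⟩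
  rw [← ht] at hbig1 hbig2 ht1 htC
  have hlogx : 0 < log (x : ℝ) := Real.log_pos (by linarith)
  have ht0 : 0 < t := by linarith
  -- the good edges
  obtain ⟨T, hT⟩ : ∃ T : Finset GaussianInt, T = (ann 0 (x : ℝ)).filter
    (fun u => δ * x ≤ nN u ∧ (Tp ε J x u ∧ Tp ε J x (star u))) := ⟨_, rfl⟩
  obtain ⟨T', hT'⟩ : ∃ T' : Finset GaussianInt, T' = (ann 0 (x : ℝ)).filter
    (fun u => δ * x ≤ nN u ∧ ¬ (Tp ε J x u ∧ Tp ε J x (star u))) := ⟨_, rfl⟩
  have hTm : ∀ u ∈ T, u ≠ 0 ∧ δ * x ≤ nN u ∧ nN u ≤ x := by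
    intro u hu
    rw [hT, Finset.mem_filter] at hu
    refine ⟨ne_zero_of_mem_ann le_rfl hu.1, hu.2.1, ?_⟩
    have := ((mem_ann hx0.le).1 hu.1).2
    exact_mod_cast this
  have hTm' : ∀ u ∈ T', u ≠ 0 ∧ δ * x ≤ nN u ∧ nN u ≤ x := by
    intro u hu
    rw [hT', Finset.mem_filter] at hu
    refine ⟨ne_zero_of_mem_ann le_rfl hu.1, hu.2.1, ?_⟩
    have := ((mem_ann hx0.le).1 hu.1).2
    exact_mod_cast this
  have hTcard : (T'.card : ℝ) ≤ C2 * x / t := by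
    have h := htyp x hxt'
    rw [← ht] at h
    refine le_trans ?_ h
    norm_cast
    apply Finset.card_le_card
    intro u hu
    rw [hT', Finset.mem_filter] at hu
    rw [Finset.mem_filter]
    exact ⟨hu.1, hu.2.2⟩
  obtain ⟨E, hEdef⟩ : ∃ E, E = EG P x := ⟨_, rfl⟩
  rw [← hEdef] at hE
  obtain ⟨E1, hE1⟩ : ∃ E1, E1 = E.filter (fun p => p.1 ∈ T ∧ p.2 ∈ T) := ⟨_, rfl⟩
  have hmem : ∀ p ∈ E, nN p.1 ≤ x ∧ nN p.2 ≤ x ∧ crossG p.1 p.2 = 1 ∧ p.1 ≠ 0 ∧ p.2 ≠ 0 := by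
    intro p hp
    rw [hEdef] at hp
    obtain ⟨h1, h2, h3, -, -⟩ := mem_EG.1 hp
    obtain ⟨hv, hw⟩ := MP484c84Par.ne_zero_of_cross h3
    exact ⟨h1, h2, h3, hv, hw⟩
  have hall : E ⊆ allEdges x := by
    intro p hp
    obtain ⟨h1, h2, h3, -, -⟩ := hmem p hp
    unfold allEdges
    rw [Finset.mem_filter, Finset.mem_product]
    exact ⟨⟨cn_mem_ball.2 h1, cn_mem_ball.2 h2⟩, h3⟩
  obtain ⟨A1, hA1⟩ : ∃ A, A = E.filter (fun p => (nN p.1 : ℝ) ≤ δ * x) := ⟨_, rfl⟩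
  obtain ⟨A2, hA2⟩ : ∃ A, A = E.filter (fun p => (nN p.2 : ℝ) ≤ δ * x) := ⟨_, rfl⟩
  obtain ⟨B1, hB1⟩ : ∃ B, B = E.filter (fun p => p.1 ∈ T') := ⟨_, rfl⟩
  obtain ⟨B2, hB2⟩ : ∃ B, B = E.filter (fun p => p.2 ∈ T') := ⟨_, rfl⟩
  have hA1c : (A1.card : ℝ) ≤ c / 8 * x := by
    have h1 := (hsm x δ hδ0 hδ1).1
    have h2 : (A1.card : ℝ) ≤ C1 * √δ * x := by
      refine le_trans ?_ h1
      rw [hA1]
      norm_cast
      exact Finset.card_le_card (Finset.filter_subset_filter _ hall)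
    refine h2.trans ?_
    gcongr
  have hA2c : (A2.card : ℝ) ≤ c / 8 * x := by
    have h1 := (hsm x δ hδ0 hδ1).2
    have h2 : (A2.card : ℝ) ≤ C1 * √δ * x := by
      refine le_trans ?_ h1
      rw [hA2]
      norm_cast
      exact Finset.card_le_card (Finset.filter_subset_filter _ hall)
    refine h2.trans ?_
    gcongr
  have hbnd : 3 / √δ * (C2 * x / t) ≤ c / 8 * x := by
    rw [div_le_iff₀ (by positivity)] at htC
    have h3 : 3 / √δ * (C2 * x / t) = (3 * C2 * x) / (√δ * t) := by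
      field_simp
    rw [h3, div_le_iff₀ (by positivity)]
    nlinarith
  have hB1c : (B1.card : ℝ) ≤ c / 8 * x := by
    have h1 := cn_fst hδ0 (x := x) B1 T' (by
      intro p hp
      rw [hB1, Finset.mem_filter] at hp
      obtain ⟨h1, h2, h3, -, -⟩ := hmem p hp.1
      exact ⟨h2, h3, hp.2⟩) hTm'
    refine h1.trans (le_trans ?_ hbnd)
    gcongr
  have hB2c : (B2.card : ℝ) ≤ c / 8 * x := by
    have h1 := cn_snd hδ0 (x := x) B2 T' (by
      intro p hp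
      rw [hB2, Finset.mem_filter] at hp
      obtain ⟨h1, h2, h3, -, -⟩ := hmem p hp.1
      exact ⟨h1, h3, hp.2⟩) hTm'
    refine h1.trans (le_trans ?_ hbnd)
    gcongr
  have hcover : E ⊆ E1 ∪ (A1 ∪ (A2 ∪ (B1 ∪ B2))) := by
    intro p hp
    obtain ⟨h1, h2, h3, hv, hw⟩ := hmem p hp
    simp only [Finset.mem_union, hE1, hA1, hA2, hB1, hB2, hT, hT', Finset.mem_filter]
    have ha1 := cn_ann hv h1
    have ha2 := cn_ann hw h2
    by_cases q1 : (nN p.1 : ℝ) ≤ δ * x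
    · right; left; exact ⟨hp, q1⟩
    by_cases q2 : (nN p.2 : ℝ) ≤ δ * x
    · right; right; left; exact ⟨hp, q2⟩
    rw [not_le] at q1 q2
    by_cases q3 : Tp ε J x p.1 ∧ Tp ε J x (star p.1)
    · by_cases q4 : Tp ε J x p.2 ∧ Tp ε J x (star p.2)
      · left; exact ⟨hp, ⟨ha1, q1.le, q3⟩, ⟨ha2, q2.le, q4⟩⟩
      · right; right; right; right
        exact ⟨hp, ha2, q2.le, q4⟩
    · right; right; right; left
      exact ⟨hp, ha1, q1.le, q3⟩
  have hE1c : c / 2 * x ≤ (E1.card : ℝ) := by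
    have h1 := (Finset.card_le_card hcover).trans (Finset.card_union_le _ _)
    have h2 : (A1 ∪ (A2 ∪ (B1 ∪ B2))).card ≤ A1.card + (A2.card + (B1.card + B2.card)) := by
      refine (Finset.card_union_le _ _).trans ?_
      gcongr
      refine (Finset.card_union_le _ _).trans ?_
      gcongr
      exact Finset.card_union_le _ _
    have h3 : (E.card : ℝ) ≤ E1.card + (A1.card + (A2.card + (B1.card + B2.card))) := by
      exact_mod_cast h1.trans (Nat.add_le_add_left h2 _)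
    linarith
  -- facts about the edges in `E1`
  have hE1m : ∀ p ∈ E1, crossG p.1 p.2 = 1 ∧ δ * x ≤ nN p.1 ∧ nN p.1 ≤ x ∧
      Tp ε J x (star p.1) ∧ Tp ε J x p.2 := by
    intro p hp
    rw [hE1, Finset.mem_filter, hT, Finset.mem_filter, Finset.mem_filter] at hp
    obtain ⟨h1, h2, h3, -, -⟩ := hmem p hp.1
    exact ⟨h3, hp.2.1.2.1, h1, hp.2.1.2.2.2, hp.2.2.2.2.1⟩
  have hE1I : ∀ p ∈ E1, dotG p.1 p.2 ∈ Finset.Icc (-(x : ℤ)) x := by
    intro p hp
    rw [hE1, Finset.mem_filter] at hp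
    obtain ⟨h1, h2, h3, -, -⟩ := hmem p hp.1
    have h4 := cn_dot h1 h2 h3
    rw [Finset.mem_Icc]
    omega
  -- the bad `m`
  have hpow1 : (log (x : ℝ)) ^ κ1 = exp (κ1 * t) := by
    rw [Real.rpow_def_of_pos hlogx, mul_comm, ht]
  have hpow2 : (log (x : ℝ)) ^ 2 = exp (2 * t) := by
    rw [ht, two_mul, Real.exp_add, Real.exp_log hlogx, sq]
  have hpowκ : (log (x : ℝ)) ^ κ = exp (κ * t) := by
    rw [Real.rpow_def_of_pos hlogx, mul_comm, ht]
  obtain ⟨Bd1, hBd1⟩ : ∃ B, B = (Finset.Icc (-(x : ℤ)) x).filter (fun m =>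
      (∀ i < J - 2, (((BP J x i).filter (fun p => p ∣ zm m)).card : ℝ) ≤
        2 * (1 + ε) * (log (log x) / J)) ∧
      Many (Mm J x m) (log (1 / δ)) ((log (x : ℝ)) ^ κ1)) := ⟨_, rfl⟩
  obtain ⟨Bd2, hBd2⟩ : ∃ B, B =
    (Finset.Icc (-(x : ℤ)) x).filter (fun m => ∃ p ∈ SP J x, p ^ 2 ∣ zm m) := ⟨_, rfl⟩
  have hBd1c : (Bd1.card : ℝ) ≤ x / exp (2 * t) := by
    rw [hBd1, ← hpow2]; exact hbadn x hxxb
  have hBd2c : (Bd2.card : ℝ) ≤ x / exp (2 * t) := by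
    rw [hBd2, ← hpow2]; exact hbads x hxxs
  obtain ⟨Bd, hBd⟩ : ∃ B, B = Bd1 ∪ Bd2 := ⟨_, rfl⟩
  have hBdc : (Bd.card : ℝ) ≤ 2 * (x / exp (2 * t)) := by
    have : (Bd.card : ℝ) ≤ Bd1.card + Bd2.card := by
      rw [hBd]; exact_mod_cast Finset.card_union_le _ _
    linarith
  -- the edges with bad `m`
  obtain ⟨Eb, hEb⟩ : ∃ B, B = E1.filter (fun p => dotG p.1 p.2 ∈ Bd) := ⟨_, rfl⟩
  obtain ⟨Eg, hEg⟩ : ∃ B, B = E1.filter (fun p => dotG p.1 p.2 ∉ Bd) := ⟨_, rfl⟩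
  have hsplit : Eb.card + Eg.card = E1.card := by
    rw [hEb, hEg]
    exact Finset.card_filter_add_card_filter_not _
  have hEbc : (Eb.card : ℝ) ≤ c / 4 * x := by
    have h1 : Eb.card = ∑ m ∈ Bd, (Eb.filter (fun p => dotG p.1 p.2 = m)).card :=
      Finset.card_eq_sum_card_fiberwise (fun p hp => by
        rw [hEb] at hp
        exact (Finset.mem_filter.1 (Finset.mem_coe.1 hp)).2)
    have h2 : ∀ m ∈ Bd, ((Eb.filter (fun p => dotG p.1 p.2 = m)).card : ℝ) ≤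
        4 * exp (141 / 100 * t) := by
      intro m _
      have h3 := rep_trivial ε J x m (Eb.filter (fun p => dotG p.1 p.2 = m)) (by
        intro p hp
        rw [Finset.mem_filter, hEb, Finset.mem_filter] at hp
        obtain ⟨g1, g2, g3, g4, g5⟩ := hE1m p hp.1.1
        exact ⟨g1, hp.2, g4, g5⟩)
      refine h3.trans ?_
      rw [← ht]
      have h4 : log 2 * (2 * (1 + ε) * t) ≤ 141 / 100 * t := by
        have h5 : log 2 * (2 * (1 + ε)) ≤ 141 / 100 := by nlinarith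
        calc log 2 * (2 * (1 + ε) * t) = log 2 * (2 * (1 + ε)) * t := by ring
          _ ≤ 141 / 100 * t := mul_le_mul_of_nonneg_right h5 ht0.le
      have h6 := Real.exp_le_exp.2 h4
      linarith
    have h7 : (Eb.card : ℝ) ≤ Bd.card * (4 * exp (141 / 100 * t)) := by
      rw [h1]
      push_cast
      calc ∑ m ∈ Bd, ((Eb.filter (fun p => dotG p.1 p.2 = m)).card : ℝ) ≤
            ∑ m ∈ Bd, 4 * exp (141 / 100 * t) := Finset.sum_le_sum h2
        _ = _ := by rw [Finset.sum_const, nsmul_eq_mul]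
    have h8 : (Eb.card : ℝ) ≤ 2 * (x / exp (2 * t)) * (4 * exp (141 / 100 * t)) :=
      h7.trans (mul_le_mul_of_nonneg_right hBdc (by positivity))
    refine h8.trans ?_
    have h9 : exp (2 * t) = exp (141 / 100 * t) * exp (59 / 100 * t) := by
      rw [← Real.exp_add]; congr 1; ring
    have h10 : 0 < exp (141 / 100 * t) := Real.exp_pos _
    have h11 : 0 < exp (59 / 100 * t) := Real.exp_pos _
    rw [h9]
    have h12 : 2 * (x / (exp (141 / 100 * t) * exp (59 / 100 * t))) * (4 * exp (141 / 100 * t)) =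
        8 * x / exp (59 / 100 * t) := by
      field_simp
      ring
    rw [h12, div_le_iff₀ h11]
    have h13 : x * 32 ≤ x * (c * exp (59 / 100 * t)) := mul_le_mul_of_nonneg_left hbig1 hx0.le
    linarith
  have hEgc : c / 4 * x ≤ (Eg.card : ℝ) := by
    have : (Eb.card : ℝ) + Eg.card = E1.card := by exact_mod_cast hsplit
    linarith
  -- the good `m`
  have hgood : (Eg.card : ℝ) ≤
      ((Eg.image (fun p => dotG p.1 p.2)).card : ℝ) * (4 * exp (a * t)) := by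
    have h1 : Eg.card = ∑ m ∈ Eg.image (fun p => dotG p.1 p.2),
        (Eg.filter (fun p => dotG p.1 p.2 = m)).card :=
      Finset.card_eq_sum_card_image (fun p => dotG p.1 p.2) Eg
    have h2 : ∀ m ∈ Eg.image (fun p => dotG p.1 p.2),
        ((Eg.filter (fun p => dotG p.1 p.2 = m)).card : ℝ) ≤ 4 * exp (a * t) := by
      intro m hm
      rw [Finset.mem_image] at hm
      obtain ⟨p0, hp0, hp0m⟩ := hm
      rw [hEg, Finset.mem_filter] at hp0
      have hmI := hE1I p0 hp0.1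
      have hmB := hp0.2
      rw [hp0m] at hmI hmB
      obtain ⟨g1, g2, g3, g4, g5⟩ := hE1m p0 hp0.1
      have hblk := rep_block ε J x p0.1 p0.2 g1 g4 g5
      rw [hp0m] at hblk
      rw [hBd, Finset.mem_union, not_or, hBd1, hBd2, Finset.mem_filter, Finset.mem_filter] at hmB
      have hMany : ¬ Many (Mm J x m) (log (1 / δ)) ((log (x : ℝ)) ^ κ1) :=
        fun h => hmB.1 ⟨hmI, hblk, h⟩
      have hsq : ∀ p ∈ SP J x, ¬ p ^ 2 ∣ zm m := fun p hp h => hmB.2 ⟨hmI, p, hp, h⟩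
      have h3 := rep_good ε δ ((log (x : ℝ)) ^ κ1) J x m (Eg.filter (fun p => dotG p.1 p.2 = m))
        hε0 hJ3 hxx16 hδ0 hδ1 (by positivity) (by
          intro p hp
          rw [Finset.mem_filter, hEg, Finset.mem_filter] at hp
          obtain ⟨f1, f2, f3, f4, f5⟩ := hE1m p hp.1.1
          exact ⟨f1, hp.2, f2, f3, f4, f5⟩) hsq hMany
      refine h3.trans (le_of_eq ?_)
      rw [hpow1, ← ht, mul_assoc, ← Real.exp_add, ha]
      congr 2
      ring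
    rw [h1]
    push_cast
    calc ∑ m ∈ Eg.image (fun p => dotG p.1 p.2), ((Eg.filter (fun p => dotG p.1 p.2 = m)).card : ℝ)
        ≤ ∑ m ∈ Eg.image (fun p => dotG p.1 p.2), 4 * exp (a * t) := Finset.sum_le_sum h2
      _ = _ := by rw [Finset.sum_const, nsmul_eq_mul]
  have him := cn_image (P := P) x Eg (by
    intro p hp
    rw [hEg, Finset.mem_filter, hE1, Finset.mem_filter, hEdef] at hp
    exact hp.1.1)
  have him' : ((Eg.image (fun p => dotG p.1 p.2)).card : ℝ) ≤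
      2 * (((Finset.Icc 1 x).filter P).card : ℝ) := by exact_mod_cast him
  obtain ⟨S, hS⟩ : ∃ S : ℝ, S = (((Finset.Icc 1 x).filter P).card : ℝ) := ⟨_, rfl⟩
  rw [← hS] at him' ⊢
  have hS0 : 0 ≤ S := by rw [hS]; exact Nat.cast_nonneg _
  rw [hpowκ, div_le_iff₀ (Real.exp_pos _)]
  have hfin1 : c / 4 * x ≤ 2 * S * (4 * exp (a * t)) :=
    hEgc.trans (hgood.trans (mul_le_mul_of_nonneg_right him' (by positivity)))
  have hfin2 : exp (a * t) * exp (η / 2 * t) ≤ exp (κ * t) := by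
    rw [← Real.exp_add]
    apply Real.exp_le_exp.2
    have h1 : a * t + η / 2 * t = (a + η / 2) * t := by ring
    rw [h1]
    exact mul_le_mul_of_nonneg_right (by linarith) ht0.le
  have hea : 0 < exp (a * t) := Real.exp_pos _
  have heη : 0 < exp (η / 2 * t) := Real.exp_pos _
  -- `c x ≤ 32 S exp (a t) ≤ c S exp (a t) exp (η t / 2) ≤ c S exp (κ t)`
  have hfin3 : c * x ≤ c * (S * exp (κ * t)) := by
    calc c * (x : ℝ) = 4 * (c / 4 * x) := by ring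
      _ ≤ 4 * (2 * S * (4 * exp (a * t))) := by linarith
      _ = (S * exp (a * t)) * 32 := by ring
      _ ≤ (S * exp (a * t)) * (c * exp (η / 2 * t)) :=
          mul_le_mul_of_nonneg_left hbig2 (by positivity)
      _ = c * (S * (exp (a * t) * exp (η / 2 * t))) := by ring
      _ ≤ c * (S * exp (κ * t)) := by gcongr
  exact le_of_mul_le_mul_left hfin3 hc

end Pool.Agent.NSqD
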