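import Pool.Agent.Lib.NSqD.Defs

/-!
# CUBE: a coset of a subspace of dimension `d` contains at most `2 ^ d` vectors with entries `0, 1`

PROOF: induction on `d`. `d = 0`: `W = ⊥`, `vec c = x0`, and `vec` is injective. `d + 1`: `W ≠ ⊥`, so
some coordinate `i` is not zero on `W`; `W0 = W ⊓ ker (v ↦ v i)` has dimension `d`. The `c` with
`vec c - x0 ∈ W` and `i ∈ c` lie in one coset of `W0` (if there is one such `c1`, then
`vec c - vec c1 ∈ W0` for all the others), and so do those with `i ∉ c`: `2 ^ d + 2 ^ d`.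
-/

set_option autoImplicit false

namespace Pool.Agent.NSqD

open Real

lemma vec_inj {q : ℕ} {c c' : Finset (Fin q)} (h : vec c = vec c') : c = c' := by
  ext i
  have h1 : vec c i = vec c' i := by rw [h]
  simp only [vec] at h1
  by_cases hc : i ∈ c <;> by_cases hc' : i ∈ c' <;> simp_all

open Classical in
lemma cube_aux (q : ℕ) (d : ℕ) : ∀ (W : Submodule ℝ (Fin q → ℝ)) (x0 : Fin q → ℝ),
    Module.finrank ℝ W ≤ d →
    ((Finset.univ : Finset (Finset (Fin q))).filter (fun c => vec c - x0 ∈ W)).card ≤ 2 ^ d := by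
  induction d with
  | zero =>
    intro W x0 hW
    have hW0 : W = ⊥ := Submodule.finrank_eq_zero.mp (Nat.le_zero.mp hW)
    rw [pow_zero, Finset.card_le_one]
    intro a ha b hb
    rw [Finset.mem_filter, hW0, Submodule.mem_bot, sub_eq_zero] at ha hb
    exact vec_inj (ha.2.trans hb.2.symm)
  | succ d ih =>
    intro W x0 hW
    by_cases hbot : W = ⊥
    · refine le_trans (ih W x0 ?_) (Nat.pow_le_pow_right (by norm_num) (Nat.le_succ d))
      rw [hbot, finrank_bot]
      exact Nat.zero_le d
    obtain ⟨w, hw, hw0⟩ := Submodule.exists_mem_ne_zero_of_ne_bot hbot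
    obtain ⟨i, hi⟩ := Function.ne_iff.mp hw0
    let W0 : Submodule ℝ (Fin q → ℝ) := W ⊓ LinearMap.ker (LinearMap.proj i)
    have hlt : W0 < W := by
      refine lt_of_le_of_ne inf_le_left (fun h => hi ?_)
      have h1 : w ∈ W0 := by rw [h]; exact hw
      have h2 := (Submodule.mem_inf.mp h1).2
      simpa using h2
    have hfr : Module.finrank ℝ W0 ≤ d := by
      have := Submodule.finrank_lt_finrank_of_lt hlt
      omega
    -- each half lies in one coset of `W0`
    have key : ∀ T : Finset (Finset (Fin q)),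
        (∀ c ∈ T, vec c - x0 ∈ W) → (∀ c ∈ T, ∀ c' ∈ T, (i ∈ c ↔ i ∈ c')) →
        T.card ≤ 2 ^ d := by
      intro T hT1 hT2
      rcases T.eq_empty_or_nonempty with hT | ⟨c1, hc1⟩
      · rw [hT, Finset.card_empty]; exact Nat.zero_le _
      refine le_trans (Finset.card_le_card ?_) (ih W0 (vec c1) hfr)
      intro c hc
      rw [Finset.mem_filter]
      refine ⟨Finset.mem_univ c, Submodule.mem_inf.mpr ⟨?_, ?_⟩⟩
      · have h1 := W.sub_mem (hT1 c hc) (hT1 c1 hc1)
        rwa [sub_sub_sub_cancel_right] at h1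
      · rw [LinearMap.mem_ker, LinearMap.proj_apply, Pi.sub_apply]
        have h2 := hT2 c hc c1 hc1
        simp only [vec, h2, sub_self]
    have hsplit := Finset.card_filter_add_card_filter_not
      (s := (Finset.univ : Finset (Finset (Fin q))).filter (fun c => vec c - x0 ∈ W))
      (fun c : Finset (Fin q) => i ∈ c)
    rw [← hsplit, pow_succ, mul_two]
    refine Nat.add_le_add (key _ ?_ ?_) (key _ ?_ ?_)
    · intro c hc
      exact (Finset.mem_filter.mp (Finset.mem_filter.mp hc).1).2
    · intro c hc c' hc'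
      exact ⟨fun _ => (Finset.mem_filter.mp hc').2, fun _ => (Finset.mem_filter.mp hc).2⟩
    · intro c hc
      exact (Finset.mem_filter.mp (Finset.mem_filter.mp hc).1).2
    · intro c hc c' hc'
      exact ⟨fun h => absurd h (Finset.mem_filter.mp hc).2,
        fun h => absurd h (Finset.mem_filter.mp hc').2⟩

open Classical in
theorem cube_card (q : ℕ) (W : Submodule ℝ (Fin q → ℝ)) (x0 : Fin q → ℝ) :
    ((Finset.univ : Finset (Finset (Fin q))).filter (fun c => vec c - x0 ∈ W)).card ≤
      2 ^ Module.finrank ℝ W :=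
  cube_aux q (Module.finrank ℝ W) W x0 le_rfl

end Pool.Agent.NSqD
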