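import Pool.Agent.Lib.NSqC.Defs
import Pool.Agent.Lib.NSqP.OmG

/-!
# Many `n` from a positive proportion of factorizations: definitions

`yy J x i = (log x) ^ (i / J)`; the block `i` consists of the Gaussian primes `π` (in the open first
quadrant, norm an odd prime) with `yy J x (i + 1) < log N π ≤ yy J x (i + 2)`, `i < J - 2`; `SP` is the
union of the blocks (the medium primes). `zm m = m + i`, `Mm` the medium primes dividing it,
`sA A` the logarithm of the norm of the product over `A`. `Many M ℓ R`: some window of length `ℓ`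
contains the logarithms of the norms of more than `R` products of subsets of `M`.
-/

set_option autoImplicit false

namespace Pool.Agent.NSqD

open Real
open Pool.Agent.NSqP
open Pool.Agent.NSqC (EG mem_EG)
open Pool.Agent.MP484c84Par (ballG mem_ballG crossG dotG)

/-- `(log x) ^ (i / J)` -/
noncomputable def yy (J : ℕ) (x : ℝ) (i : ℕ) : ℝ := (log x) ^ ((i : ℝ) / J)

open Classical in
/-- block `i` of the medium Gaussian primes -/
noncomputable def BP (J : ℕ) (x : ℝ) (i : ℕ) : Finset GaussianInt :=
  (ann (exp (yy J x (i + 1))) (exp (yy J x (i + 2)))).filter IsPi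

open Classical in
/-- the medium Gaussian primes -/
noncomputable def SP (J : ℕ) (x : ℝ) : Finset GaussianInt :=
  (Finset.range (J - 2)).biUnion (BP J x)

open Classical in
/-- typical Gaussian integers: at most `(1 + ε) log log x` prime factors, about `log log x / J`
prime factors in every block -/
def Tp (ε : ℝ) (J : ℕ) (x : ℝ) (u : GaussianInt) : Prop :=
  (OmG u : ℝ) ≤ (1 + ε) * log (log x) ∧
  ∀ i < J - 2, |(((BP J x i).filter (fun p => p ∣ u)).card : ℝ) - log (log x) / J| ≤
    ε * (log (log x) / J)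

/-- the Gaussian integer `m + i` -/
def zm (m : ℤ) : GaussianInt := ⟨m, 1⟩

/-- logarithm of the norm of the product -/
noncomputable def sA (A : Finset GaussianInt) : ℝ := ∑ p ∈ A, log (nN p)

open Classical in
/-- the medium primes dividing `m + i` -/
noncomputable def Mm (J : ℕ) (x : ℝ) (m : ℤ) : Finset GaussianInt :=
  (SP J x).filter (fun p => p ∣ zm m)

/-- some window of length `ℓ` contains the logarithms of more than `R` products -/
def Many (M : Finset GaussianInt) (ℓ R : ℝ) : Prop :=
  ∃ a : ℝ, R < ((M.powerset.filter (fun A => a ≤ sA A ∧ sA A ≤ a + ℓ)).card : ℝ)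

/-! ## tuples -/

/-- the `0/1` vector of a class -/
def vec {q : ℕ} (c : Finset (Fin q)) : Fin q → ℝ := fun i => if i ∈ c then 1 else 0

/-- the line of the constant vectors -/
def one1 (q : ℕ) : Submodule ℝ (Fin q → ℝ) := Submodule.span ℝ {fun _ => 1}

/-- the vector of the sums of the `q` subsets -/
def XX {α : Type} [Fintype α] {q : ℕ} (lam : α → ℝ) (f : α → Finset (Fin q)) : Fin q → ℝ :=
  ∑ p, lam p • vec (f p)

open Classical in
/-- the weight: product over the union of the `q` subsets -/
def ww {α : Type} [Fintype α] {q : ℕ} (wt : α → ℝ) (f : α → Finset (Fin q)) : ℝ :=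
  ∏ p ∈ Finset.univ.filter (fun p => f p ≠ ∅), wt p

open Classical in
/-- only primes of the blocks `< j`, at most `K i` primes of block `i` -/
def Adm {α : Type} [Fintype α] {q : ℕ} (blk : α → ℕ) (K : ℕ → ℕ) (j : ℕ)
    (f : α → Finset (Fin q)) : Prop :=
  (∀ p, f p ≠ ∅ → blk p < j) ∧
    ∀ i, (Finset.univ.filter (fun p => blk p = i ∧ f p ≠ ∅)).card ≤ K i

/-! ## basic facts -/

@[simp] lemma vec_empty {q : ℕ} : vec (∅ : Finset (Fin q)) = 0 := by
  funext i; simp [vec]

lemma zm_ne (m : ℤ) : zm m ≠ 0 := by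
  intro h
  have := congrArg Zsqrtd.im h
  simp [zm] at this

lemma star_mul_eq {u v : GaussianInt} (h : crossG u v = 1) : star u * v = zm (dotG u v) :=
  MP484c84Par.mul_eq_mk h

lemma mem_BP {J : ℕ} {x : ℝ} {i : ℕ} {p : GaussianInt} :
    p ∈ BP J x i ↔ exp (yy J x (i + 1)) < (nN p : ℝ) ∧ (nN p : ℝ) ≤ exp (yy J x (i + 2)) ∧
      IsPi p := by
  classical
  unfold BP
  rw [Finset.mem_filter, mem_ann (exp_pos _).le, and_assoc]

lemma mem_SP {J : ℕ} {x : ℝ} {p : GaussianInt} :
    p ∈ SP J x ↔ ∃ i < J - 2, p ∈ BP J x i := by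
  classical
  unfold SP
  simp

lemma mem_Mm {J : ℕ} {x : ℝ} {m : ℤ} {p : GaussianInt} :
    p ∈ Mm J x m ↔ p ∈ SP J x ∧ p ∣ zm m := by
  classical
  unfold Mm
  rw [Finset.mem_filter]

end Pool.Agent.NSqD
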