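import Pool.Agent.Lib.NSqP.End
import Pool.Agent.Lib.NSqP.All
import Pool.Agent.Lib.NSqD.Cnt

/-!
# RESA: the parity theorem with the exponent `2 log 2 - 1 + ε`

PROOF: as `NSqP.main` (file `NSqP/Main.lean`), with `count_D` for `P n := g (n ^ 2 + 1) = e` instead of
`count_lower`: `edges g e x ⊆ EG P x` (`mem_edges`, `mem_EG`; `F g p.1 * F g p.2 = g (dotG ^ 2 + 1)` as in
`cl_image` of `NSqP/Count.lean`; `dotG ≠ 0` is in `mem_edges`), and `(Finset.Icc 1 x).filter P` is `signSet g e x`.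
-/

set_option autoImplicit false

namespace Pool.Agent.NSqD

open Real
open Pool.Agent.NSqP
open Pool.Agent.NSqC (EG mem_EG)
open Pool.Agent.MP484c84Par (CM F badEdges edges signSet badEdges_subset mem_edges dotG mem_ballG)

private lemma edges_EG {g : ℕ → ℤ} (hg : CM g) (e : ℤ) (x : ℕ) :
    edges g e x ⊆ EG (fun n => g (n ^ 2 + 1) = e) x := by
  intro p hp
  obtain ⟨h1, h2, h3, h4, h5⟩ := mem_edges.1 hp
  obtain ⟨hv, hw⟩ := MP484c84Par.ne_zero_of_cross h3
  have hFm : F g p.1 * F g p.2 = g ((dotG p.1 p.2).natAbs ^ 2 + 1) := by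
    rw [← MP484c84Par.F_mul_star hg hv hw, MP484c84Par.mul_eq_mk h3, MP484c84Par.F_mk_one]
  rw [mem_EG]
  refine ⟨?_, ?_, h3, h4, ?_⟩
  · rw [← nN_cast_int] at h1
    exact_mod_cast h1
  · rw [← nN_cast_int] at h2
    exact_mod_cast h2
  · show g ((dotG p.1 p.2).natAbs ^ 2 + 1) = e
    rw [← hFm]
    exact h5

theorem mainD (p : ℕ) (hp : p.Prime) (hp4 : p = 2 ∨ p % 4 = 1) :
    ∃ c : ℝ, 0 < c ∧ ∀ κ : ℝ, 2 * log 2 - 1 < κ → ∃ x0 : ℕ, ∀ g : ℕ → ℤ, CM g → g p = -1 →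
      ∀ x : ℕ, x0 ≤ x → ∀ e : ℤ, (e = 1 ∨ e = -1) →
        c * x ≤ ((prs g e x).card : ℝ) ∧
        (x : ℝ) / (log x) ^ κ ≤ ((signSet g e x).card : ℝ) := by
  obtain ⟨c1, hc1, N1, h1⟩ := THMA p hp hp4
  obtain ⟨c2, hc2, N2, h2⟩ := plus_edges
  refine ⟨min c1 c2 / 8, by positivity, fun κ hκ => ?_⟩
  obtain ⟨x1, h3⟩ := count_D (min c1 c2) κ (lt_min hc1 hc2) hκ
  refine ⟨max (max N1 N2) x1, fun g hg hgp x hx e he => ?_⟩
  have hN1 : N1 ≤ x := le_trans (le_trans (le_max_left _ _) (le_max_left _ _)) hx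
  have hN2 : N2 ≤ x := le_trans (le_trans (le_max_right _ _) (le_max_left _ _)) hx
  have hx1 : x1 ≤ x := le_trans (le_max_right _ _) hx
  have hx0 : (0 : ℝ) ≤ x := Nat.cast_nonneg x
  have hE : min c1 c2 * x ≤ ((edges g e x).card : ℝ) := by
    rcases he with rfl | rfl
    · exact (mul_le_mul_of_nonneg_right (min_le_right _ _) hx0).trans (h2 g hg x hN2)
    · refine (mul_le_mul_of_nonneg_right (min_le_left _ _) hx0).trans
        ((h1 g hg hgp x hN1).trans ?_)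
      exact_mod_cast Finset.card_le_card (badEdges_subset hg x)
  constructor
  · have h4 : ((edges g e x).card : ℝ) ≤ 8 * ((prs g e x).card : ℝ) := by
      exact_mod_cast edges_le_prs hg e x
    linarith
  · refine (h3 x hx1 (fun n => g (n ^ 2 + 1) = e) (hE.trans ?_)).trans ?_
    · exact_mod_cast Finset.card_le_card (edges_EG hg e x)
    · refine Nat.cast_le.2 (Finset.card_le_card ?_)
      intro n hn
      have hn' : n ∈ Finset.Icc 1 x ∧ g (n ^ 2 + 1) = e := by simpa using hn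
      unfold signSet
      exact Finset.mem_filter.2 hn'

end Pool.Agent.NSqD
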