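import Pool.Agent.Lib.LogG.GPos
import Pool.Agent.Lib.NSqD.Cnt

/-!
# RESB: many `n` with a factorization `n ^ 2 + 1 = d e` in given classes

PROOF: as `LogG.classes_count` (file `LogG/GPos.lean`, end), with
`P n := ∃ d ∣ n ^ 2 + 1, α n < d ∧ d ≤ β n ∧ Ω d = a ∧ Ω ((n ^ 2 + 1) / d) = b`
and `y = ⌊x / (β + 2 / α + 1)⌋`: for `n ≤ y`, `d = N u ≤ β n ≤ x` and `e = N v = (n ^ 2 + 1) / d ≤ 2 n / α ≤ x`,
so the pairs `(u, v)` of `sum_PP y` are in `EG P x`; `classes_positive k a b α β` at `y`, `count_D`.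
-/

set_option autoImplicit false

namespace Pool.Agent.NSqD

open Real
open Pool.Agent.NSqP
open Pool.Agent.LogG
open Pool.Agent.MP484c84Par (ballG mem_ballG crossG dotG)

private lemma ResB_norms {α β : ℝ} (hα : 0 < α) (hαβ : α < β) {x n d e : ℕ} (hn1 : 1 ≤ n)
    (hn : (n : ℝ) * (β + 2 / α + 1) ≤ x) (hde : n ^ 2 + 1 = d * e) (h1 : α * n < d)
    (h2 : (d : ℝ) ≤ β * n) : d ≤ x ∧ e ≤ x := by
  have hn1r : (1 : ℝ) ≤ n := by exact_mod_cast hn1
  have hn0 : (0 : ℝ) < n := by linarith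
  have h2α : 0 < 2 / α := by positivity
  have hβ : 0 < β := hα.trans hαβ
  have hd : (d : ℝ) ≤ x := by nlinarith
  have hder : (n : ℝ) ^ 2 + 1 = d * e := by exact_mod_cast hde
  have he : (e : ℝ) ≤ x := by
    have e0 : (0 : ℝ) ≤ e := Nat.cast_nonneg e
    have h3 : α * n * e ≤ 2 * (n : ℝ) ^ 2 := by
      calc α * n * e ≤ d * e := mul_le_mul_of_nonneg_right h1.le e0
        _ = (n : ℝ) ^ 2 + 1 := hder.symm
        _ ≤ 2 * (n : ℝ) ^ 2 := by nlinarith
    have h4 : (e : ℝ) ≤ 2 / α * n := by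
      rw [div_mul_eq_mul_div, le_div_iff₀ hα]
      nlinarith
    nlinarith
  exact ⟨by exact_mod_cast hd, by exact_mod_cast he⟩

open Classical in
theorem classes_count_D (k : ℕ) [NeZero k] (a b : ZMod k) (α β : ℝ) (hα : 0 < α) (hαβ : α < β)
    (κ : ℝ) (hκ : 2 * log 2 - 1 < κ) : ∃ x0 : ℕ, ∀ x : ℕ, x0 ≤ x →
      (x : ℝ) / (log x) ^ κ ≤ (((Finset.Icc 1 x).filter (fun n : ℕ => ∃ d : ℕ, d ∣ n ^ 2 + 1 ∧
        α * n < d ∧ (d : ℝ) ≤ β * n ∧ (ArithmeticFunction.cardFactors d : ZMod k) = a ∧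
        (ArithmeticFunction.cardFactors ((n ^ 2 + 1) / d) : ZMod k) = b)).card : ℝ) := by
  obtain ⟨c, hc, x1, hx1⟩ := classes_positive k a b α β hα hαβ
  set T : ℝ := β + 2 / α + 1 with hT
  have hβ : 0 < β := hα.trans hαβ
  have hT1 : 1 < T := by
    have : 0 < 2 / α := by positivity
    linarith
  have hT0 : 0 < T := by linarith
  obtain ⟨x2, hx2⟩ := count_D (2 * c / T) κ (by positivity) hκ
  refine ⟨max (⌈T * (x1 + 1)⌉₊) x2, fun x hx => ?_⟩
  have hxx1 : ⌈T * (x1 + 1)⌉₊ ≤ x := (le_max_left _ _).trans hx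
  have hxx2 : x2 ≤ x := (le_max_right _ _).trans hx
  have hxT : T * (x1 + 1) ≤ x := (Nat.le_ceil _).trans (by exact_mod_cast hxx1)
  set P : ℕ → Prop := fun n : ℕ => ∃ d : ℕ, d ∣ n ^ 2 + 1 ∧
        α * n < d ∧ (d : ℝ) ≤ β * n ∧ (ArithmeticFunction.cardFactors d : ZMod k) = a ∧
        (ArithmeticFunction.cardFactors ((n ^ 2 + 1) / d) : ZMod k) = b with hP
  have key : 2 * c / T * x ≤ ((Pool.Agent.NSqC.EG P x).card : ℝ) := by
    set y : ℕ := ⌊(x : ℝ) / T⌋₊ with hy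
    have hxT0 : 0 ≤ (x : ℝ) / T := by positivity
    have hyT : (y : ℝ) * T ≤ x := by
      have := Nat.floor_le hxT0
      rw [← hy] at this
      rwa [le_div_iff₀ hT0] at this
    have hyT' : (x : ℝ) < (y + 1) * T := by
      have := Nat.lt_floor_add_one ((x : ℝ) / T)
      rw [← hy] at this
      rwa [div_lt_iff₀ hT0] at this
    have hyx1 : x1 + 1 ≤ y := by
      rw [hy]
      apply Nat.le_floor
      rw [le_div_iff₀ hT0]
      push_cast
      linarith
    have h1 := hx1 y (by omega)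
    have h2 := Pool.Agent.LogCh.sum_PP y (fun n d : ℕ => if (α * n < ((d : ℕ) : ℝ) ∧
      ((d : ℕ) : ℝ) ≤ β * n) ∧ (ArithmeticFunction.cardFactors d : ZMod k) = a ∧
      (ArithmeticFunction.cardFactors ((n ^ 2 + 1) / d) : ZMod k) = b then (1 : ℝ) else 0)
    have h3 : ∑ n ∈ Finset.Icc 1 y, ∑ d ∈ (n ^ 2 + 1).divisors,
        (if (α * n < ((d : ℕ) : ℝ) ∧
      ((d : ℕ) : ℝ) ≤ β * n) ∧ (ArithmeticFunction.cardFactors d : ZMod k) = a ∧
      (ArithmeticFunction.cardFactors ((n ^ 2 + 1) / d) : ZMod k) = b then (1 : ℝ) else 0) =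
        ∑ n ∈ Finset.Icc 1 y, CV α β k a b n := by
      refine Finset.sum_congr rfl fun n _ => ?_
      unfold CV DV
      rw [Finset.filter_filter, Finset.sum_boole]
    rw [h3, Finset.sum_boole] at h2
    have h4 : (Pool.Agent.LogCh.PP y).filter (fun p : GaussianInt × GaussianInt =>
        (α * ((dotG p.1 p.2).toNat : ℕ) < ((nN p.1 : ℕ) : ℝ) ∧
        ((nN p.1 : ℕ) : ℝ) ≤ β * ((dotG p.1 p.2).toNat : ℕ)) ∧
        (ArithmeticFunction.cardFactors (nN p.1) : ZMod k) = a ∧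
        (ArithmeticFunction.cardFactors (((dotG p.1 p.2).toNat ^ 2 + 1) / nN p.1) : ZMod k) = b)
        ⊆ Pool.Agent.NSqC.EG P x := by
      intro p hp
      rw [Finset.mem_filter] at hp
      obtain ⟨hpP, ⟨g1, g2⟩, g3, g4⟩ := hp
      obtain ⟨m1, m2, m3⟩ := Pool.Agent.LogCh.mem_PP.1 hpP
      have hn7 : (((dotG p.1 p.2).toNat : ℕ) : ℤ) = dotG p.1 p.2 :=
        Int.toNat_of_nonneg (by omega)
      have hn1 : 1 ≤ (dotG p.1 p.2).toNat := by omega
      have hnat : (dotG p.1 p.2).natAbs = (dotG p.1 p.2).toNat := by omega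
      set n := (dotG p.1 p.2).toNat with hn
      have hde : n ^ 2 + 1 = nN p.1 * nN p.2 := by
        have h5 := Pool.Agent.LogCh.dot_cross_nN p.1 p.2
        rw [m1] at h5
        have h8 : ((n ^ 2 + 1 : ℕ) : ℤ) = ((nN p.1 * nN p.2 : ℕ) : ℤ) := by
          push_cast
          rw [hn7]
          linarith
        exact_mod_cast h8
      have hny : n ≤ y := by
        have : (n : ℤ) ≤ y := by rw [hn7]; exact m3
        exact_mod_cast this
      have hnyr : (n : ℝ) ≤ y := by exact_mod_cast hny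
      have hnT : (n : ℝ) * (β + 2 / α + 1) ≤ x :=
        (mul_le_mul_of_nonneg_right hnyr hT0.le).trans hyT
      obtain ⟨k1, k2⟩ := ResB_norms hα hαβ hn1 hnT hde g1 g2
      rw [Pool.Agent.NSqC.mem_EG]
      refine ⟨k1, k2, m1, by omega, ?_⟩
      rw [hnat]
      exact ⟨nN p.1, ⟨nN p.2, hde⟩, g1, g2, g3, g4⟩
    have h5 : 4 * ∑ n ∈ Finset.Icc 1 y, CV α β k a b n ≤
        ((Pool.Agent.NSqC.EG P x).card : ℝ) := by
      rw [← h2]
      exact_mod_cast Finset.card_le_card h4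
    have h7 : (1 : ℝ) ≤ y := by
      have : 1 ≤ y := by omega
      exact_mod_cast this
    have h8 : 2 * c / T * x ≤ 4 * (c * y) := by
      rw [div_mul_eq_mul_div, div_le_iff₀ hT0]
      have h9 : (x : ℝ) ≤ 2 * (y * T) := by nlinarith
      nlinarith
    linarith
  have h := hx2 x hxx2 P key
  refine h.trans (Nat.cast_le.2 (Finset.card_le_card fun n hn => ?_))
  simpa [hP] using hn

end Pool.Agent.NSqD
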