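import Pool.Agent.Lib.NSqD.Cube

/-!
# TUP: the sum over tuples of subsets with close sums

STATEMENT proved by induction. Let `W` be a subspace of `ℝ^q` containing the constant vectors,
`n = q - dim W`, and `F W j = ∑ ww wt f` over the `f` with `Adm blk K j f`,
`infDist (XX lam f) W ≤ ℓ`. Then for every `j ≤ m`
`F W j ≤ A * ∏_{i<j} (2^((dim W - 1) * K i) * exp (2 μ i)) * Θ^n`, `A = A (W, j)` independent of the data.
Outer induction on `n`, inner induction on `j`. `j = 0`: only `f = ∅`, `F ≤ 1`. Step `j → j + 1`: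
(a) the `f` with `vec (f p) ∈ W` for all `p` in block `j`: `f ↦ (f_low, f_top)` (set `f` to `∅` in, resp.
outside block `j`) is injective, `ww f = ww f_low * ww f_top`, `XX f - XX f_low ∈ W`, so the sum is
at most `F W j * T`, `T = ∑ ww f_top` over the `f_top` supported in block `j` with values `c`,
`vec c ∈ W`, support of size `≤ K j`. With `c' = #{c : vec c ∈ W} ≤ 2^dim W =: C` (`cube_card`) and
`1 ≤ (C/2)^(K j - #supp)`: `T ≤ (C/2)^(K j) ∏_{blk p = j} (1 + (c' - 1) (2/C) wt p) ≤
(C/2)^(K j) exp (2 μ j)` (`Finset.prod_univ_sum` / `Fintype.piFinset`).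
(b) the `f` with `vec (f p) ∉ W` for some `p` in block `j`: sum over `c` with `vec c ∉ W`, `p` in block
`j`, `f p = c`; `f' = Function.update f p ∅`; `ww f = wt p * ww f'`, `XX f = XX f' + lam p • vec c`.
Then `infDist (XX f') (W ⊔ span {vec c}) ≤ ℓ`, and for fixed `f'` the `lam p` that occur have
differences `≤ s = 2 ℓ / infDist (vec c) W` (`W` is closed, so the distance is positive), so they lie
in `[a, a + s]`, `a` the smallest one: the sum over `p` of `wt p` is `≤ C0 (s + 1) / Y j`. So this part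
is at most `∑_c C0 (s_c + 1) / Y j * F (W ⊔ span {vec c}) (j + 1)`; `dim` goes up by one, and
`∏_{i ≤ j} 2^(K i) / Y j ≤ Θ`.
-/

set_option autoImplicit false

namespace Pool.Agent.NSqD

open Real

open Classical in
/-- the sum over the tuples of subsets of the blocks `< j` whose sums are close to `W` -/
noncomputable def TupF {α : Type} [Fintype α] {q : ℕ} (wt lam : α → ℝ) (blk : α → ℕ) (K : ℕ → ℕ) (ℓ : ℝ)
    (W : Submodule ℝ (Fin q → ℝ)) (j : ℕ) : ℝ :=
  ∑ f ∈ (Finset.univ : Finset (α → Finset (Fin q))).filter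
    (fun f => Adm blk K j f ∧ Metric.infDist (XX lam f) (W : Set (Fin q → ℝ)) ≤ ℓ), ww wt f

open Classical in
/-- the sum over the tuples of subsets of block `j` with classes in `W` -/
noncomputable def TupT {α : Type} [Fintype α] {q : ℕ} (wt : α → ℝ) (blk : α → ℕ) (k : ℕ)
    (W : Submodule ℝ (Fin q → ℝ)) (j : ℕ) : ℝ :=
  ∑ f ∈ (Finset.univ : Finset (α → Finset (Fin q))).filter
    (fun f => (∀ p, f p ≠ ∅ → blk p = j) ∧ (∀ p, vec (f p) ∈ W) ∧
      (Finset.univ.filter (fun p => f p ≠ ∅)).card ≤ k), ww wt f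

private lemma tupa_inf {q : ℕ} (W : Submodule ℝ (Fin q → ℝ)) (x w : Fin q → ℝ) (hw : w ∈ W) :
    Metric.infDist x (W : Set (Fin q → ℝ)) ≤ Metric.infDist (x + w) (W : Set (Fin q → ℝ)) := by
  refine (Metric.le_infDist ⟨0, W.zero_mem⟩).2 fun y hy => ?_
  have h : y - w ∈ (W : Set (Fin q → ℝ)) := W.sub_mem hy hw
  refine (Metric.infDist_le_dist_of_mem h).trans (le_of_eq ?_)
  rw [dist_eq_norm, dist_eq_norm]
  congr 1
  abel

open Classical in
/-- L1: the tuples whose classes in block `j` lie in `W` -/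
theorem tup_a {α : Type} [Fintype α] {q : ℕ} (wt lam : α → ℝ) (hwt : ∀ p, 0 ≤ wt p) (blk : α → ℕ)
    (K : ℕ → ℕ) (ℓ : ℝ) (W : Submodule ℝ (Fin q → ℝ)) (j : ℕ) :
    ∑ f ∈ (Finset.univ : Finset (α → Finset (Fin q))).filter
      (fun f => (Adm blk K (j + 1) f ∧ Metric.infDist (XX lam f) (W : Set (Fin q → ℝ)) ≤ ℓ) ∧
        ∀ p, blk p = j → vec (f p) ∈ W), ww wt f ≤
      TupF wt lam blk K ℓ W j * TupT wt blk (K j) W j := by
  set lo : (α → Finset (Fin q)) → (α → Finset (Fin q)) := fun f p => if blk p = j then ∅ else f p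
    with hlo
  set tp : (α → Finset (Fin q)) → (α → Finset (Fin q)) := fun f p => if blk p = j then f p else ∅
    with htp
  have hww : ∀ f : α → Finset (Fin q), ww wt f = ww wt (lo f) * ww wt (tp f) := by
    intro f
    unfold ww
    rw [Finset.prod_filter, Finset.prod_filter, Finset.prod_filter, ← Finset.prod_mul_distrib]
    refine Finset.prod_congr rfl fun p _ => ?_
    simp only [hlo, htp]
    by_cases h1 : blk p = j <;> by_cases h2 : f p = ∅ <;> simp [h1, h2]
  have hXX : ∀ f : α → Finset (Fin q), XX lam f = XX lam (lo f) + XX lam (tp f) := by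
    intro f
    unfold XX
    rw [← Finset.sum_add_distrib]
    refine Finset.sum_congr rfl fun p _ => ?_
    simp only [hlo, htp]
    by_cases h1 : blk p = j <;> simp [h1]
  have hnn : ∀ f : α → Finset (Fin q), 0 ≤ ww wt f := fun f => by
    unfold ww
    exact Finset.prod_nonneg fun p _ => hwt p
  unfold TupF TupT
  rw [Finset.sum_mul_sum, ← Finset.sum_product']
  set S := (Finset.univ : Finset (α → Finset (Fin q))).filter
      (fun f => (Adm blk K (j + 1) f ∧ Metric.infDist (XX lam f) (W : Set (Fin q → ℝ)) ≤ ℓ) ∧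
        ∀ p, blk p = j → vec (f p) ∈ W) with hS
  have hinj : Set.InjOn (fun f => (lo f, tp f)) (S : Set (α → Finset (Fin q))) := by
    intro f _ g _ h
    simp only [Prod.mk.injEq] at h
    funext p
    have h1 := congrFun h.1 p
    have h2 := congrFun h.2 p
    simp only [hlo, htp] at h1 h2
    by_cases hp : blk p = j
    · simpa [hp] using h2
    · simpa [hp] using h1
  calc ∑ f ∈ S, ww wt f = ∑ f ∈ S, ww wt (lo f) * ww wt (tp f) :=
        Finset.sum_congr rfl fun f _ => hww f
    _ = ∑ x ∈ S.image (fun f => (lo f, tp f)), ww wt x.1 * ww wt x.2 := by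
        rw [Finset.sum_image hinj]
    _ ≤ _ := by
        refine Finset.sum_le_sum_of_subset_of_nonneg ?_ fun x _ _ => mul_nonneg (hnn _) (hnn _)
        intro x hx
        obtain ⟨f, hf, rfl⟩ := Finset.mem_image.1 hx
        obtain ⟨⟨⟨a1, a2⟩, a3⟩, a4⟩ := (Finset.mem_filter.1 hf).2
        have htW : ∀ p, vec (tp f p) ∈ W := by
          intro p
          simp only [htp]
          by_cases hp : blk p = j
          · simpa [hp] using a4 p hp
          · simp [hp]
        rw [Finset.mem_product, Finset.mem_filter, Finset.mem_filter]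
        refine ⟨⟨Finset.mem_univ _, ⟨?_, ?_⟩, ?_⟩, Finset.mem_univ _, ?_, htW, ?_⟩
        · intro p hp
          simp only [hlo] at hp
          by_cases hb : blk p = j
          · simp [hb] at hp
          · simp only [hb, if_false] at hp
            have := a1 p hp
            omega
        · intro i
          refine le_trans (Finset.card_le_card ?_) (a2 i)
          intro p hp
          rw [Finset.mem_filter] at hp ⊢
          refine ⟨hp.1, hp.2.1, ?_⟩
          have h := hp.2.2
          simp only [hlo] at h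
          by_cases hb : blk p = j
          · simp [hb] at h
          · simpa [hb] using h
        · refine (tupa_inf W _ (XX lam (tp f)) ?_).trans ?_
          · unfold XX
            exact W.sum_mem fun p _ => W.smul_mem _ (htW p)
          · rw [← hXX]; exact a3
        · intro p hp
          by_contra hb
          simp [htp, hb] at hp
        · refine le_trans (Finset.card_le_card ?_) (a2 j)
          intro p hp
          rw [Finset.mem_filter] at hp ⊢
          have h := hp.2
          simp only [htp] at h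
          by_cases hb : blk p = j
          · exact ⟨hp.1, hb, by simpa [hb] using h⟩
          · simp [hb] at h

open Classical in
/-- L2: the sum over one block -/
theorem tup_T {α : Type} [Fintype α] {q : ℕ} (wt : α → ℝ) (hwt : ∀ p, 0 ≤ wt p) (blk : α → ℕ)
    (k : ℕ) (W : Submodule ℝ (Fin q → ℝ)) (hW : 1 ≤ Module.finrank ℝ W) (j : ℕ) (μ : ℝ)
    (hμ : ∑ p ∈ Finset.univ.filter (fun p => blk p = j), wt p ≤ μ) :
    TupT wt blk k W j ≤ (2 : ℝ) ^ ((Module.finrank ℝ W - 1) * k) * exp (2 * μ) := by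
  obtain ⟨d, hd⟩ : ∃ d, Module.finrank ℝ W = d + 1 := ⟨_, (Nat.sub_add_cancel hW).symm⟩
  set Z : Finset (Finset (Fin q)) := Finset.univ.filter (fun c => vec c ∈ W) with hZ
  have hZc : (Z.card : ℝ) ≤ 2 ^ (d + 1) := by
    have h := cube_card q W 0
    rw [hd] at h
    have h2 : Z.card ≤ 2 ^ (d + 1) := by
      refine le_trans (Finset.card_le_card ?_) h
      intro c hc
      rw [Finset.mem_filter] at hc ⊢
      exact ⟨hc.1, by simpa using hc.2⟩
    exact_mod_cast h2
  have hZe : (∅ : Finset (Fin q)) ∈ Z := by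
    rw [hZ, Finset.mem_filter]
    exact ⟨Finset.mem_univ _, by simp⟩
  set D : ℝ := 2 ^ d with hD
  have hD1 : (1 : ℝ) ≤ D := one_le_pow₀ (by norm_num)
  have hD0 : (0 : ℝ) < D := by linarith
  set g : α → Finset (Fin q) → ℝ := fun p c => if c = ∅ then 1 else D⁻¹ * wt p with hg
  have hg0 : ∀ p c, 0 ≤ g p c := by
    intro p c
    simp only [hg]
    split_ifs
    · norm_num
    · exact mul_nonneg (inv_nonneg.2 hD0.le) (hwt p)
  set t : α → Finset (Finset (Fin q)) := fun p => if blk p = j then Z else {∅} with ht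
  have h1 : ∀ f : α → Finset (Fin q), (Finset.univ.filter (fun p => f p ≠ ∅)).card ≤ k →
      ww wt f ≤ D ^ k * ∏ p, g p (f p) := by
    intro f hf
    have e1 : ∏ p, g p (f p) = (D⁻¹) ^ (Finset.univ.filter (fun p => f p ≠ ∅)).card * ww wt f := by
      unfold ww
      rw [← Finset.prod_const, ← Finset.prod_mul_distrib, Finset.prod_filter]
      refine Finset.prod_congr rfl fun p _ => ?_
      simp only [hg]
      by_cases h : f p = ∅ <;> simp [h]
    have hw0 : 0 ≤ ww wt f := by
      unfold ww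
      exact Finset.prod_nonneg fun p _ => hwt p
    rw [e1, ← mul_assoc]
    have e2 : (1 : ℝ) ≤ D ^ k * (D⁻¹) ^ (Finset.univ.filter (fun p => f p ≠ ∅)).card := by
      rw [inv_pow, ← div_eq_mul_inv, le_div_iff₀ (by positivity), one_mul]
      exact pow_le_pow_right₀ hD1 hf
    nlinarith
  have h2 : TupT wt blk k W j ≤ D ^ k * ∑ f ∈ Fintype.piFinset t, ∏ p, g p (f p) := by
    unfold TupT
    rw [Finset.mul_sum]
    calc _ ≤ ∑ f ∈ (Finset.univ : Finset (α → Finset (Fin q))).filter
            (fun f => (∀ p, f p ≠ ∅ → blk p = j) ∧ (∀ p, vec (f p) ∈ W) ∧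
            (Finset.univ.filter (fun p => f p ≠ ∅)).card ≤ k), D ^ k * ∏ p, g p (f p) :=
          Finset.sum_le_sum fun f hf => h1 f (Finset.mem_filter.1 hf).2.2.2
      _ ≤ _ := by
          refine Finset.sum_le_sum_of_subset_of_nonneg ?_ fun f _ _ =>
            mul_nonneg (by positivity) (Finset.prod_nonneg fun p _ => hg0 p _)
          intro f hf
          obtain ⟨a1, a2, _⟩ := (Finset.mem_filter.1 hf).2
          rw [Fintype.mem_piFinset]
          intro p
          simp only [ht]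
          by_cases hp : blk p = j
          · simp only [hp, if_true, hZ, Finset.mem_filter, Finset.mem_univ, true_and]
            exact a2 p
          · simp only [hp, if_false, Finset.mem_singleton]
            by_contra hne
            exact hp (a1 p hne)
  have h3 : ∑ f ∈ Fintype.piFinset t, ∏ p, g p (f p) = ∏ p, ∑ c ∈ t p, g p c :=
    (Finset.prod_univ_sum t g).symm
  have h4 : ∀ p, ∑ c ∈ t p, g p c ≤ exp (2 * (if blk p = j then wt p else 0)) := by
    intro p
    simp only [ht]
    by_cases hp : blk p = j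
    · simp only [hp, if_true]
      rw [← Finset.add_sum_erase Z _ hZe]
      have e1 : ∑ c ∈ Z.erase ∅, g p c = ((Z.card : ℝ) - 1) * (D⁻¹ * wt p) := by
        have : ∀ c ∈ Z.erase ∅, g p c = D⁻¹ * wt p := by
          intro c hc
          simp only [hg]
          rw [if_neg (Finset.ne_of_mem_erase hc)]
        rw [Finset.sum_congr rfl this, Finset.sum_const, Finset.card_erase_of_mem hZe, nsmul_eq_mul,
          Nat.cast_sub (Finset.card_pos.2 ⟨_, hZe⟩)]
        simp
      rw [e1]
      have e2 : g p ∅ = 1 := by simp [hg]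
      rw [e2]
      have e3 : ((Z.card : ℝ) - 1) * (D⁻¹ * wt p) ≤ 2 * wt p := by
        rw [← mul_assoc]
        apply mul_le_mul_of_nonneg_right _ (hwt p)
        rw [← div_eq_mul_inv, div_le_iff₀ hD0]
        rw [pow_succ] at hZc
        linarith
      have := add_one_le_exp (2 * wt p)
      linarith
    · simp [hp, hg]
  have h5 : ∏ p, ∑ c ∈ t p, g p c ≤ exp (2 * μ) := by
    calc _ ≤ ∏ p, exp (2 * (if blk p = j then wt p else 0)) :=
          Finset.prod_le_prod (fun p _ => Finset.sum_nonneg fun c _ => hg0 p c) fun p _ => h4 p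
      _ = exp (2 * ∑ p ∈ Finset.univ.filter (fun p => blk p = j), wt p) := by
          rw [← exp_sum, ← Finset.mul_sum, Finset.sum_filter]
      _ ≤ _ := exp_le_exp.2 (by linarith)
  rw [hd, Nat.add_sub_cancel, pow_mul]
  calc TupT wt blk k W j ≤ D ^ k * ∏ p, ∑ c ∈ t p, g p c := by rw [← h3]; exact h2
    _ ≤ _ := mul_le_mul_of_nonneg_left h5 (by positivity)

/-! ### distances to a subspace -/

private lemma h71_exists {q : ℕ} (W : Submodule ℝ (Fin q → ℝ)) (x : Fin q → ℝ) :
    ∃ w ∈ W, Metric.infDist x (W : Set (Fin q → ℝ)) = dist x w := by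
  have hc : IsClosed (W : Set (Fin q → ℝ)) := W.closed_of_finiteDimensional
  obtain ⟨w, hw, h⟩ := hc.exists_infDist_eq_dist ⟨0, W.zero_mem⟩ x
  exact ⟨w, hw, h⟩

private lemma h71_sub {q : ℕ} (W : Submodule ℝ (Fin q → ℝ)) (x y : Fin q → ℝ) :
    Metric.infDist (x - y) (W : Set (Fin q → ℝ)) ≤
      Metric.infDist x (W : Set (Fin q → ℝ)) + Metric.infDist y (W : Set (Fin q → ℝ)) := by
  obtain ⟨w, hw, h⟩ := h71_exists W x
  obtain ⟨w', hw', h'⟩ := h71_exists W y
  rw [h, h']
  refine le_trans (Metric.infDist_le_dist_of_mem (W.sub_mem hw hw')) ?_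
  rw [dist_eq_norm, dist_eq_norm, dist_eq_norm]
  have e : x - y - (w - w') = (x - w) - (y - w') := by abel
  rw [e]
  exact norm_sub_le _ _

private lemma h71_smul {q : ℕ} (W : Submodule ℝ (Fin q → ℝ)) (r : ℝ) (v : Fin q → ℝ) :
    |r| * Metric.infDist v (W : Set (Fin q → ℝ)) ≤
      Metric.infDist (r • v) (W : Set (Fin q → ℝ)) := by
  by_cases hr : r = 0
  · rw [hr, abs_zero, zero_mul]; exact Metric.infDist_nonneg
  obtain ⟨w, hw, h⟩ := h71_exists W (r • v)
  rw [h, dist_eq_norm]
  have e : r • v - w = r • (v - r⁻¹ • w) := by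
    rw [smul_sub, smul_inv_smul₀ hr]
  rw [e, norm_smul, Real.norm_eq_abs]
  refine mul_le_mul_of_nonneg_left ?_ (abs_nonneg r)
  rw [← dist_eq_norm]
  exact Metric.infDist_le_dist_of_mem (W.smul_mem _ hw)

private lemma h71_pos {q : ℕ} (W : Submodule ℝ (Fin q → ℝ)) (v : Fin q → ℝ) (hv : v ∉ W) :
    0 < Metric.infDist v (W : Set (Fin q → ℝ)) := by
  have hc : IsClosed (W : Set (Fin q → ℝ)) := W.closed_of_finiteDimensional
  exact (hc.notMem_iff_infDist_pos ⟨0, W.zero_mem⟩).mp hv

private lemma h71_sup {q : ℕ} (W : Submodule ℝ (Fin q → ℝ)) (x v : Fin q → ℝ) (r ℓ : ℝ)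
    (h : Metric.infDist (x + r • v) (W : Set (Fin q → ℝ)) ≤ ℓ) :
    Metric.infDist x ((W ⊔ Submodule.span ℝ {v} : Submodule ℝ (Fin q → ℝ)) :
      Set (Fin q → ℝ)) ≤ ℓ := by
  obtain ⟨w, hw, h'⟩ := h71_exists W (x + r • v)
  rw [h'] at h
  refine le_trans (Metric.infDist_le_dist_of_mem (y := w - r • v) ?_) ?_
  · exact Submodule.sub_mem _ (Submodule.mem_sup_left hw)
      (Submodule.mem_sup_right (Submodule.smul_mem _ _ (Submodule.mem_span_singleton_self v)))
  · refine le_trans (le_of_eq ?_) h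
    rw [dist_eq_norm, dist_eq_norm]
    congr 1
    abel

/-! ### updating a tuple at one place -/

private lemma h71_XX {α : Type} [Fintype α] [DecidableEq α] {q : ℕ} (lam : α → ℝ)
    (f : α → Finset (Fin q)) (p : α) (hp : f p = ∅) (c : Finset (Fin q)) :
    XX lam (Function.update f p c) = XX lam f + lam p • vec c := by
  unfold XX
  rw [← Finset.add_sum_erase _ _ (Finset.mem_univ p),
    ← Finset.add_sum_erase Finset.univ (fun p => lam p • vec (f p)) (Finset.mem_univ p)]
  simp only [Function.update_self, hp, vec_empty, smul_zero, zero_add]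
  rw [add_comm]
  congr 1
  refine Finset.sum_congr rfl (fun x hx => ?_)
  rw [Function.update_of_ne (Finset.ne_of_mem_erase hx)]

open Classical in
private lemma h71_ww {α : Type} [Fintype α] {q : ℕ} (wt : α → ℝ)
    (f : α → Finset (Fin q)) (p : α) (hp : f p = ∅) (c : Finset (Fin q)) (hc : c ≠ ∅) :
    ww wt (Function.update f p c) = wt p * ww wt f := by
  unfold ww
  have e : Finset.univ.filter (fun x => Function.update f p c x ≠ ∅) =
      insert p (Finset.univ.filter (fun x => f x ≠ ∅)) := by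
    ext x
    rw [Finset.mem_insert, Finset.mem_filter, Finset.mem_filter]
    by_cases hx : x = p
    · subst hx
      simp [hc]
    · rw [Function.update_of_ne hx]
      simp [hx]
  rw [e, Finset.prod_insert]
  simp [hp]

open Classical in
private lemma h71_Adm {α : Type} [Fintype α] {q : ℕ} (blk : α → ℕ) (K : ℕ → ℕ) (j : ℕ)
    (f : α → Finset (Fin q)) (p : α) (hp : f p = ∅) (c : Finset (Fin q))
    (h : Adm blk K j (Function.update f p c)) : Adm blk K j f := by
  have key : ∀ x, f x ≠ ∅ → Function.update f p c x ≠ ∅ := by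
    intro x hx
    by_cases hxp : x = p
    · exact absurd (hxp ▸ hp) hx
    · rwa [Function.update_of_ne hxp]
  refine ⟨fun x hx => h.1 x (key x hx), fun i => le_trans (Finset.card_le_card ?_) (h.2 i)⟩
  intro x hx
  rw [Finset.mem_filter] at hx ⊢
  exact ⟨hx.1, hx.2.1, key x hx.2.2⟩

private lemma h71_ww_nonneg {α : Type} [Fintype α] {q : ℕ} (wt : α → ℝ) (hwt : ∀ p, 0 ≤ wt p)
    (f : α → Finset (Fin q)) : 0 ≤ ww wt f := by
  unfold ww
  exact Finset.prod_nonneg (fun p _ => hwt p)

open Classical in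
/-- the weights of the places where `c` may be inserted -/
private lemma h71_win {α : Type} [Fintype α] {q : ℕ} (wt lam : α → ℝ) (hwt : ∀ p, 0 ≤ wt p)
    (blk : α → ℕ) (ℓ : ℝ) (hℓ : 0 ≤ ℓ) (W : Submodule ℝ (Fin q → ℝ)) (j : ℕ) (C0 Y : ℝ)
    (hY : ∀ a s : ℝ, 0 ≤ s →
      ∑ p ∈ Finset.univ.filter (fun p => blk p = j ∧ a ≤ lam p ∧ lam p ≤ a + s), wt p ≤
        C0 * (s + 1) / Y) (x : Fin q → ℝ) (c : Finset (Fin q)) (hc : vec c ∉ W)
    (P : Finset α) (hP : ∀ p ∈ P, blk p = j ∧
      Metric.infDist (x + lam p • vec c) (W : Set (Fin q → ℝ)) ≤ ℓ) :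
    ∑ p ∈ P, wt p ≤ C0 * (2 * ℓ / Metric.infDist (vec c) (W : Set (Fin q → ℝ)) + 1) / Y := by
  set D : ℝ := Metric.infDist (vec c) (W : Set (Fin q → ℝ)) with hD
  have hDpos : 0 < D := h71_pos W _ hc
  have hs : 0 ≤ 2 * ℓ / D := by positivity
  rcases P.eq_empty_or_nonempty with he | hne
  · rw [he, Finset.sum_empty]
    exact le_trans (Finset.sum_nonneg (fun p _ => hwt p)) (hY 0 (2 * ℓ / D) hs)
  obtain ⟨p0, hp0, hmin⟩ := Finset.exists_min_image P lam hne
  refine le_trans (Finset.sum_le_sum_of_subset_of_nonneg ?_ (fun p _ _ => hwt p))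
    (hY (lam p0) (2 * ℓ / D) hs)
  intro p hp
  rw [Finset.mem_filter]
  refine ⟨Finset.mem_univ p, (hP p hp).1, hmin p hp, ?_⟩
  have h1 : |lam p - lam p0| * D ≤ ℓ + ℓ := by
    refine le_trans (h71_smul W (lam p - lam p0) (vec c)) ?_
    have e : (lam p - lam p0) • vec c = (x + lam p • vec c) - (x + lam p0 • vec c) := by
      rw [sub_smul]; abel
    rw [e]
    exact le_trans (h71_sub W _ _) (add_le_add (hP p hp).2 (hP p0 hp0).2)
  have h2 : (lam p - lam p0) * D ≤ 2 * ℓ := by
    refine le_trans (mul_le_mul_of_nonneg_right (le_abs_self _) hDpos.le) ?_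
    linarith
  have h3 : lam p - lam p0 ≤ 2 * ℓ / D := by
    rw [le_div_iff₀ hDpos]; exact h2
  linarith

open Classical in
/-- L3: the tuples with a class outside `W` in block `j` -/
theorem tup_b {α : Type} [Fintype α] {q : ℕ} (wt lam : α → ℝ) (hwt : ∀ p, 0 ≤ wt p) (blk : α → ℕ)
    (K : ℕ → ℕ) (ℓ : ℝ) (hℓ : 0 ≤ ℓ) (W : Submodule ℝ (Fin q → ℝ)) (j : ℕ) (C0 Y : ℝ)
    (hY : ∀ a s : ℝ, 0 ≤ s →
      ∑ p ∈ Finset.univ.filter (fun p => blk p = j ∧ a ≤ lam p ∧ lam p ≤ a + s), wt p ≤
        C0 * (s + 1) / Y) :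
    ∑ f ∈ (Finset.univ : Finset (α → Finset (Fin q))).filter
      (fun f => (Adm blk K (j + 1) f ∧ Metric.infDist (XX lam f) (W : Set (Fin q → ℝ)) ≤ ℓ) ∧
        ∃ p, blk p = j ∧ vec (f p) ∉ W), ww wt f ≤
      ∑ c ∈ (Finset.univ : Finset (Finset (Fin q))).filter (fun c => vec c ∉ W),
        C0 * (2 * ℓ / Metric.infDist (vec c) (W : Set (Fin q → ℝ)) + 1) / Y *
          TupF wt lam blk K ℓ (W ⊔ Submodule.span ℝ {vec c}) (j + 1) := by
  set S : Finset (α → Finset (Fin q)) := (Finset.univ : Finset (α → Finset (Fin q))).filter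
      (fun f => (Adm blk K (j + 1) f ∧ Metric.infDist (XX lam f) (W : Set (Fin q → ℝ)) ≤ ℓ) ∧
        ∃ p, blk p = j ∧ vec (f p) ∉ W) with hS
  set B : Finset α := Finset.univ.filter (fun p => blk p = j) with hB
  set Cs : Finset (Finset (Fin q)) :=
    (Finset.univ : Finset (Finset (Fin q))).filter (fun c => vec c ∉ W) with hCs
  have h1 : ∑ f ∈ S, ww wt f ≤
      ∑ f ∈ S, ∑ c ∈ Cs, ∑ p ∈ B, if f p = c then ww wt f else 0 := by
    refine Finset.sum_le_sum (fun f hf => ?_)
    rw [hS, Finset.mem_filter] at hf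
    obtain ⟨-, -, p, hp, hpW⟩ := hf
    have hpB : p ∈ B := by rw [hB, Finset.mem_filter]; exact ⟨Finset.mem_univ p, hp⟩
    have hcC : f p ∈ Cs := by rw [hCs, Finset.mem_filter]; exact ⟨Finset.mem_univ _, hpW⟩
    have hnn : ∀ c ∈ Cs, 0 ≤ ∑ p ∈ B, (if f p = c then ww wt f else 0) := by
      intro c _
      refine Finset.sum_nonneg (fun p _ => ?_)
      split_ifs
      · exact h71_ww_nonneg wt hwt f
      · exact le_rfl
    refine le_trans ?_ (Finset.single_le_sum hnn hcC)
    refine le_trans (le_of_eq ?_) (Finset.single_le_sum (f := fun p' =>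
      if f p' = f p then ww wt f else 0) (fun p' _ => ?_) hpB)
    · simp
    · split_ifs
      · exact h71_ww_nonneg wt hwt f
      · exact le_rfl
  refine le_trans h1 ?_
  rw [Finset.sum_comm]
  refine Finset.sum_le_sum (fun c hc => ?_)
  rw [hCs, Finset.mem_filter] at hc
  have hcW : vec c ∉ W := hc.2
  have hc0 : c ≠ ∅ := by
    rintro rfl
    exact hcW (by rw [vec_empty]; exact W.zero_mem)
  set S' : Finset (α → Finset (Fin q)) := (Finset.univ : Finset (α → Finset (Fin q))).filter
    (fun f => Adm blk K (j + 1) f ∧ Metric.infDist (XX lam f)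
      ((W ⊔ Submodule.span ℝ {vec c} : Submodule ℝ (Fin q → ℝ)) : Set (Fin q → ℝ)) ≤ ℓ) with hS'
  have h2 : ∀ p ∈ B, ∑ f ∈ S, (if f p = c then ww wt f else 0) =
      ∑ f ∈ S', if (f p = ∅ ∧ Function.update f p c ∈ S) then wt p * ww wt f else 0 := by
    intro p _
    rw [← Finset.sum_filter, ← Finset.sum_filter]
    refine Finset.sum_nbij' (fun f => Function.update f p ∅) (fun f => Function.update f p c)
      ?_ ?_ ?_ ?_ ?_
    · intro f hf
      rw [Finset.mem_filter] at hf
      obtain ⟨hfS, hfp⟩ := hf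
      have hback : Function.update (Function.update f p ∅) p c = f := by
        rw [Function.update_idem, ← hfp, Function.update_eq_self]
      have hz : Function.update f p ∅ p = ∅ := Function.update_self p ∅ f
      rw [Finset.mem_filter]
      refine ⟨?_, hz, ?_⟩
      · rw [hS', Finset.mem_filter]
        rw [hS, Finset.mem_filter] at hfS
        refine ⟨Finset.mem_univ _, ?_, ?_⟩
        · refine h71_Adm blk K (j + 1) (Function.update f p ∅) p hz c ?_
          rw [hback]; exact hfS.2.1.1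
        · refine h71_sup W _ (vec c) (lam p) ℓ ?_
          rw [← h71_XX lam (Function.update f p ∅) p hz c, hback]
          exact hfS.2.1.2
      · rw [hback]; exact hfS
    · intro f hf
      rw [Finset.mem_filter] at hf
      obtain ⟨-, hfp, hfS⟩ := hf
      rw [Finset.mem_filter]
      exact ⟨hfS, Function.update_self p c f⟩
    · intro f hf
      rw [Finset.mem_filter] at hf
      simp only [Function.update_idem]
      rw [← hf.2, Function.update_eq_self]
    · intro f hf
      rw [Finset.mem_filter] at hf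
      simp only [Function.update_idem]
      rw [← hf.2.1, Function.update_eq_self]
    · intro f hf
      rw [Finset.mem_filter] at hf
      obtain ⟨hfS, hfp⟩ := hf
      have hback : Function.update (Function.update f p ∅) p c = f := by
        rw [Function.update_idem, ← hfp, Function.update_eq_self]
      have hz : Function.update f p ∅ p = ∅ := Function.update_self p ∅ f
      have := h71_ww wt (Function.update f p ∅) p hz c hc0
      rw [hback] at this
      exact this
  rw [Finset.sum_comm, Finset.sum_congr rfl h2, Finset.sum_comm]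
  unfold TupF
  rw [Finset.mul_sum]
  refine Finset.sum_le_sum (fun f hf => ?_)
  rw [← Finset.sum_filter, ← Finset.sum_mul]
  refine mul_le_mul_of_nonneg_right ?_ (h71_ww_nonneg wt hwt f)
  refine h71_win wt lam hwt blk ℓ hℓ W j C0 Y hY (XX lam f) c hcW _ ?_
  intro p hp
  rw [Finset.mem_filter] at hp
  obtain ⟨hpB, hfp, hfS⟩ := hp
  rw [hB, Finset.mem_filter] at hpB
  rw [hS, Finset.mem_filter] at hfS
  refine ⟨hpB.2, ?_⟩
  rw [← h71_XX lam f p hfp c]
  exact hfS.2.1.2


/-- the hypotheses on the data -/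
private def tupDat (m : ℕ) (C0 : ℝ) {α : Type} [Fintype α] (wt lam : α → ℝ) (blk : α → ℕ) (K : ℕ → ℕ)
    (μ Y : ℕ → ℝ) (Θ : ℝ) : Prop :=
  (∀ p, 0 ≤ wt p) ∧ (∀ i < m, 0 < Y i) ∧
  (∀ i < m, ∑ p ∈ Finset.univ.filter (fun p => blk p = i), wt p ≤ μ i) ∧
  (∀ i < m, ∀ a s : ℝ, 0 ≤ s →
    ∑ p ∈ Finset.univ.filter (fun p => blk p = i ∧ a ≤ lam p ∧ lam p ≤ a + s), wt p ≤
      C0 * (s + 1) / Y i) ∧
  1 ≤ Θ ∧ (∀ j < m, (2 : ℝ) ^ (∑ i ∈ Finset.range (j + 1), K i) / Y j ≤ Θ)

private noncomputable def tupB (d n : ℕ) (K : ℕ → ℕ) (μ : ℕ → ℝ) (Θ : ℝ) (j : ℕ) : ℝ :=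
  (2 : ℝ) ^ ((d - 1) * ∑ i ∈ Finset.range j, K i) * exp (2 * ∑ i ∈ Finset.range j, μ i) * Θ ^ n

private lemma ww_nonneg' {α : Type} [Fintype α] {q : ℕ} {wt : α → ℝ} (hwt : ∀ p, 0 ≤ wt p)
    (f : α → Finset (Fin q)) : 0 ≤ ww wt f := by
  classical
  unfold ww
  exact Finset.prod_nonneg fun p _ => hwt p

private lemma TupF_nonneg' {α : Type} [Fintype α] {q : ℕ} {wt : α → ℝ} (hwt : ∀ p, 0 ≤ wt p)
    (lam : α → ℝ) (blk : α → ℕ) (K : ℕ → ℕ) (ℓ : ℝ) (W : Submodule ℝ (Fin q → ℝ)) (j : ℕ) :
    0 ≤ TupF wt lam blk K ℓ W j := by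
  unfold TupF
  exact Finset.sum_nonneg fun f _ => ww_nonneg' hwt f

private lemma TupT_nonneg' {α : Type} [Fintype α] {q : ℕ} {wt : α → ℝ} (hwt : ∀ p, 0 ≤ wt p)
    (blk : α → ℕ) (k : ℕ) (W : Submodule ℝ (Fin q → ℝ)) (j : ℕ) :
    0 ≤ TupT wt blk k W j := by
  unfold TupT
  exact Finset.sum_nonneg fun f _ => ww_nonneg' hwt f

private lemma TupF_zero' {α : Type} [Fintype α] {q : ℕ} (wt : α → ℝ)
    (lam : α → ℝ) (blk : α → ℕ) (K : ℕ → ℕ) (ℓ : ℝ) (W : Submodule ℝ (Fin q → ℝ)) :
    TupF wt lam blk K ℓ W 0 ≤ 1 := by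
  classical
  unfold TupF
  have h1 : ((Finset.univ : Finset (α → Finset (Fin q))).filter
      (fun f => Adm blk K 0 f ∧ Metric.infDist (XX lam f) (W : Set (Fin q → ℝ)) ≤ ℓ)) ⊆
      {fun _ => ∅} := by
    intro f hf
    have h := (Finset.mem_filter.1 hf).2.1.1
    rw [Finset.mem_singleton]
    funext p
    by_contra hp
    exact absurd (h p hp) (by omega)
  have h2 : ∀ f ∈ ({fun _ => ∅} : Finset (α → Finset (Fin q))), ww wt f = 1 := by
    intro f hf
    rw [Finset.mem_singleton] at hf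
    subst hf
    unfold ww
    simp
  calc _ ≤ ∑ f ∈ ({fun _ => ∅} : Finset (α → Finset (Fin q))), ww wt f := by
        apply Finset.sum_le_sum_of_subset_of_nonneg h1
        intro f hf _
        rw [h2 f hf]; norm_num
    _ = 1 := by rw [Finset.sum_congr rfl h2]; simp

open Classical in
private lemma tup_ind (q m : ℕ) (C0 ℓ : ℝ) (hC0 : 0 ≤ C0) (hℓ : 0 ≤ ℓ) :
    ∀ n : ℕ, ∀ W : Submodule ℝ (Fin q → ℝ), 1 ≤ Module.finrank ℝ W → Module.finrank ℝ W + n = q →
      ∀ j ≤ m, ∃ A : ℝ, 0 < A ∧ ∀ (α : Type) [Fintype α] (wt lam : α → ℝ) (blk : α → ℕ) (K : ℕ → ℕ)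
        (μ Y : ℕ → ℝ) (Θ : ℝ), tupDat m C0 wt lam blk K μ Y Θ →
        TupF wt lam blk K ℓ W j ≤ A * tupB (Module.finrank ℝ W) n K μ Θ j := by
  intro n
  induction n with
  | zero =>
    intro W hW1 hW2 j
    have hWtop : W = ⊤ := by
      apply Submodule.eq_top_of_finrank_eq
      rw [Module.finrank_fin_fun]
      omega
    induction j with
    | zero =>
      intro _
      refine ⟨1, one_pos, fun α _ wt lam blk K μ Y Θ hD => ?_⟩
      refine (TupF_zero' wt lam blk K ℓ W).trans ?_
      simp [tupB]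
    | succ j ihj =>
      intro hj
      obtain ⟨A, hA, h1⟩ := ihj (by omega)
      refine ⟨A, hA, fun α _ wt lam blk K μ Y Θ hD => ?_⟩
      obtain ⟨d1, d2, d3, d4, d5, d6⟩ := hD
      have h2 := h1 α wt lam blk K μ Y Θ ⟨d1, d2, d3, d4, d5, d6⟩
      have h3 := tup_a wt lam d1 blk K ℓ W j
      have h4 := tup_T wt d1 blk (K j) W hW1 j (μ j) (d3 j (by omega))
      have h5 : TupF wt lam blk K ℓ W (j + 1) ≤ TupF wt lam blk K ℓ W j * TupT wt blk (K j) W j := by
        refine le_trans (le_of_eq ?_) h3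
        unfold TupF
        refine Finset.sum_congr ?_ fun _ _ => rfl
        ext f
        simp only [Finset.mem_filter, Finset.mem_univ, true_and]
        constructor
        · exact fun h => ⟨h, fun p _ => by rw [hWtop]; exact Submodule.mem_top⟩
        · exact fun h => h.1
      calc TupF wt lam blk K ℓ W (j + 1) ≤ TupF wt lam blk K ℓ W j * TupT wt blk (K j) W j := h5
        _ ≤ (A * tupB (Module.finrank ℝ W) 0 K μ Θ j) *
            ((2 : ℝ) ^ ((Module.finrank ℝ W - 1) * K j) * exp (2 * μ j)) :=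
          mul_le_mul h2 h4 (TupT_nonneg' d1 blk _ W j)
            ((TupF_nonneg' d1 lam blk K ℓ W j).trans h2)
        _ = A * tupB (Module.finrank ℝ W) 0 K μ Θ (j + 1) := by
          unfold tupB
          rw [Finset.sum_range_succ, Finset.sum_range_succ, mul_add, mul_add, pow_add, exp_add]
          ring
  | succ n ih =>
    intro W hW1 hW2 j
    induction j with
    | zero =>
      intro _
      refine ⟨1, one_pos, fun α _ wt lam blk K μ Y Θ hD => ?_⟩
      refine (TupF_zero' wt lam blk K ℓ W).trans ?_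
      have : (1 : ℝ) ≤ Θ ^ (n + 1) := one_le_pow₀ hD.2.2.2.2.1
      simpa [tupB] using this
    | succ j ihj =>
      intro hj
      obtain ⟨A, hA, h1⟩ := ihj (by omega)
      have hc : ∀ c : Finset (Fin q), ∃ B : ℝ, 0 < B ∧ (vec c ∉ W →
          ∀ (α : Type) [Fintype α] (wt lam : α → ℝ) (blk : α → ℕ) (K : ℕ → ℕ)
          (μ Y : ℕ → ℝ) (Θ : ℝ), tupDat m C0 wt lam blk K μ Y Θ →
          TupF wt lam blk K ℓ (W ⊔ Submodule.span ℝ {vec c}) (j + 1) ≤
            B * tupB (Module.finrank ℝ W + 1) n K μ Θ (j + 1)) := by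
        intro c
        by_cases hcW : vec c ∈ W
        · exact ⟨1, one_pos, fun h => absurd hcW h⟩
        · have hfr : Module.finrank ℝ (W ⊔ Submodule.span ℝ {vec c} : Submodule ℝ (Fin q → ℝ)) =
              Module.finrank ℝ W + 1 := by
            have := Submodule.finrank_sup_span_singleton hcW
            exact this
          obtain ⟨B, hB, h⟩ := ih (W ⊔ Submodule.span ℝ {vec c}) (by omega) (by omega) (j + 1) hj
          refine ⟨B, hB, fun _ => ?_⟩
          rw [hfr] at h
          exact h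
      choose B hB hBc using hc
      set s : Finset (Fin q) → ℝ := fun c =>
        2 * ℓ / Metric.infDist (vec c) (W : Set (Fin q → ℝ)) + 1 with hs
      have hs0 : ∀ c, 0 ≤ s c := fun c => by
        have : 0 ≤ Metric.infDist (vec c) (W : Set (Fin q → ℝ)) := Metric.infDist_nonneg
        positivity
      refine ⟨A + ∑ c : Finset (Fin q), C0 * s c * B c, ?_, fun α _ wt lam blk K μ Y Θ hD => ?_⟩
      · have : 0 ≤ ∑ c : Finset (Fin q), C0 * s c * B c :=
          Finset.sum_nonneg fun c _ => mul_nonneg (mul_nonneg hC0 (hs0 c)) (hB c).le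
        linarith
      obtain ⟨d1, d2, d3, d4, d5, d6⟩ := hD
      have h2 := h1 α wt lam blk K μ Y Θ ⟨d1, d2, d3, d4, d5, d6⟩
      have h3 := tup_a wt lam d1 blk K ℓ W j
      have h4 := tup_T wt d1 blk (K j) W hW1 j (μ j) (d3 j (by omega))
      have h6 := tup_b wt lam d1 blk K ℓ hℓ W j C0 (Y j) (d4 j (by omega))
      have hYj := d2 j (by omega)
      have h5 : TupF wt lam blk K ℓ W (j + 1) =
          ∑ f ∈ (Finset.univ : Finset (α → Finset (Fin q))).filter
            (fun f => (Adm blk K (j + 1) f ∧ Metric.infDist (XX lam f) (W : Set (Fin q → ℝ)) ≤ ℓ) ∧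
              ∀ p, blk p = j → vec (f p) ∈ W), ww wt f +
          ∑ f ∈ (Finset.univ : Finset (α → Finset (Fin q))).filter
            (fun f => (Adm blk K (j + 1) f ∧ Metric.infDist (XX lam f) (W : Set (Fin q → ℝ)) ≤ ℓ) ∧
              ∃ p, blk p = j ∧ vec (f p) ∉ W), ww wt f := by
        unfold TupF
        rw [← Finset.sum_filter_add_sum_filter_not _ (fun f => ∀ p, blk p = j → vec (f p) ∈ W),
          Finset.filter_filter, Finset.filter_filter]
        congr 1
        refine Finset.sum_congr ?_ fun _ _ => rfl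
        ext f
        simp only [Finset.mem_filter, Finset.mem_univ, true_and, not_forall, exists_prop]
      have h7 : TupF wt lam blk K ℓ W j * TupT wt blk (K j) W j ≤
          A * tupB (Module.finrank ℝ W) (n + 1) K μ Θ (j + 1) := by
        calc _ ≤ (A * tupB (Module.finrank ℝ W) (n + 1) K μ Θ j) *
            ((2 : ℝ) ^ ((Module.finrank ℝ W - 1) * K j) * exp (2 * μ j)) :=
              mul_le_mul h2 h4 (TupT_nonneg' d1 blk _ W j)
                ((TupF_nonneg' d1 lam blk K ℓ W j).trans h2)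
          _ = _ := by
            unfold tupB
            rw [Finset.sum_range_succ, Finset.sum_range_succ, mul_add, mul_add, pow_add, exp_add]
            ring
      have h8 : ∀ c ∈ (Finset.univ : Finset (Finset (Fin q))).filter (fun c => vec c ∉ W),
          C0 * s c / Y j * TupF wt lam blk K ℓ (W ⊔ Submodule.span ℝ {vec c}) (j + 1) ≤
            C0 * s c * B c * tupB (Module.finrank ℝ W) (n + 1) K μ Θ (j + 1) := by
        intro c hcm
        have hcW := (Finset.mem_filter.1 hcm).2
        have h9 := hBc c hcW α wt lam blk K μ Y Θ ⟨d1, d2, d3, d4, d5, d6⟩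
        have h10 : tupB (Module.finrank ℝ W + 1) n K μ Θ (j + 1) / Y j ≤
            tupB (Module.finrank ℝ W) (n + 1) K μ Θ (j + 1) := by
          unfold tupB
          have e1 : (Module.finrank ℝ W + 1 - 1) * ∑ i ∈ Finset.range (j + 1), K i =
              (Module.finrank ℝ W - 1) * ∑ i ∈ Finset.range (j + 1), K i +
                ∑ i ∈ Finset.range (j + 1), K i := by
            obtain ⟨d, hd⟩ : ∃ d, Module.finrank ℝ W = d + 1 := ⟨_, (Nat.sub_add_cancel hW1).symm⟩
            rw [hd]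
            simp only [Nat.add_sub_cancel]
            ring
          rw [e1, pow_add]
          have h11 := d6 j (by omega)
          set S := ∑ i ∈ Finset.range (j + 1), K i
          have h12 : 0 ≤ (2 : ℝ) ^ ((Module.finrank ℝ W - 1) * S) *
              exp (2 * ∑ i ∈ Finset.range (j + 1), μ i) * Θ ^ n := by
            have : (0 : ℝ) ≤ Θ := by linarith
            positivity
          calc _ = ((2 : ℝ) ^ ((Module.finrank ℝ W - 1) * S) *
              exp (2 * ∑ i ∈ Finset.range (j + 1), μ i) * Θ ^ n) * ((2 : ℝ) ^ S / Y j) := by ring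
            _ ≤ ((2 : ℝ) ^ ((Module.finrank ℝ W - 1) * S) *
              exp (2 * ∑ i ∈ Finset.range (j + 1), μ i) * Θ ^ n) * Θ :=
                mul_le_mul_of_nonneg_left h11 h12
            _ = _ := by ring
        calc C0 * s c / Y j * TupF wt lam blk K ℓ (W ⊔ Submodule.span ℝ {vec c}) (j + 1)
            ≤ C0 * s c / Y j * (B c * tupB (Module.finrank ℝ W + 1) n K μ Θ (j + 1)) := by
              apply mul_le_mul_of_nonneg_left h9
              exact div_nonneg (mul_nonneg hC0 (hs0 c)) hYj.le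
          _ = C0 * s c * B c * (tupB (Module.finrank ℝ W + 1) n K μ Θ (j + 1) / Y j) := by ring
          _ ≤ _ := mul_le_mul_of_nonneg_left h10
              (mul_nonneg (mul_nonneg hC0 (hs0 c)) (hB c).le)
      have hT0 : 0 ≤ tupB (Module.finrank ℝ W) (n + 1) K μ Θ (j + 1) := by
        unfold tupB
        have : (0 : ℝ) ≤ Θ := by linarith
        positivity
      rw [h5, add_mul]
      refine add_le_add (h3.trans h7) (h6.trans ((Finset.sum_le_sum h8).trans ?_))
      rw [Finset.sum_mul]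
      exact Finset.sum_le_sum_of_subset_of_nonneg (Finset.filter_subset _ _)
        fun c _ _ => mul_nonneg (mul_nonneg (mul_nonneg hC0 (hs0 c)) (hB c).le) hT0

open Classical in
theorem TUP (q : ℕ) (hq : 1 ≤ q) (m : ℕ) (C0 ℓ : ℝ) (hC0 : 0 ≤ C0) (hℓ : 0 ≤ ℓ) :
    ∃ A : ℝ, 0 < A ∧ ∀ (α : Type) [Fintype α] (wt lam : α → ℝ) (blk : α → ℕ) (K : ℕ → ℕ)
      (μ Y : ℕ → ℝ) (Θ : ℝ), (∀ p, 0 ≤ wt p) → (∀ i < m, 0 < Y i) →
      (∀ i < m, ∑ p ∈ Finset.univ.filter (fun p => blk p = i), wt p ≤ μ i) →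
      (∀ i < m, ∀ a s : ℝ, 0 ≤ s →
        ∑ p ∈ Finset.univ.filter (fun p => blk p = i ∧ a ≤ lam p ∧ lam p ≤ a + s), wt p ≤
          C0 * (s + 1) / Y i) →
      1 ≤ Θ → (∀ j < m, (2 : ℝ) ^ (∑ i ∈ Finset.range (j + 1), K i) / Y j ≤ Θ) →
      ∑ f ∈ (Finset.univ : Finset (α → Finset (Fin q))).filter
          (fun f => Adm blk K m f ∧ Metric.infDist (XX lam f) (one1 q : Set (Fin q → ℝ)) ≤ ℓ),
        ww wt f ≤ A * exp (2 * ∑ i ∈ Finset.range m, μ i) * Θ ^ q := by
  have hfr : Module.finrank ℝ (one1 q) = 1 := by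
    unfold one1
    apply finrank_span_singleton
    intro h
    have := congrFun h ⟨0, by omega⟩
    simp at this
  obtain ⟨A, hA, h⟩ := tup_ind q m C0 ℓ hC0 hℓ (q - 1) (one1 q) (by omega) (by omega) m le_rfl
  refine ⟨A, hA, fun α _ wt lam blk K μ Y Θ d1 d2 d3 d4 d5 d6 => ?_⟩
  have h1 := h α wt lam blk K μ Y Θ ⟨d1, d2, d3, d4, d5, d6⟩
  rw [hfr] at h1
  refine h1.trans ?_
  unfold tupB
  simp only [Nat.sub_self, zero_mul, pow_zero, one_mul]
  rw [mul_assoc]
  apply mul_le_mul_of_nonneg_left _ hA.le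
  apply mul_le_mul_of_nonneg_left _ (exp_pos _).le
  exact pow_le_pow_right₀ d5 (by omega)

end Pool.Agent.NSqD
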