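import Pool.Agent.Lib.NSqD.Win
import Pool.Agent.Lib.NSqP.Typ
import Pool.Agent.Lib.NSqP.TK

/-!
# TYPB: almost all `u` are typical

PROOF: `TYP ε` for the first condition. For each of the `J - 2` blocks: `TK` with `S = BP J x i`
(norms `≤ exp ((log x)^((J-1)/J)) ≤ x^(1/4)` for large `x`), `W = ∑ 1/N`, `|W - log log x / J| ≤ C ≤
(ε/2) log log x / J` for large `x` (`BP_mertens`), Chebyshev's inequality. `ann 0 x` is invariant under
`star` (`nN (star u) = nN u`).
-/

set_option autoImplicit false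

namespace Pool.Agent.NSqD

open Real
open Pool.Agent.NSqP

/-- the primes of a block have norm at most `x ^ (1/4)` -/
private lemma tb_norm {J : ℕ} (hJ : 3 ≤ J) {x : ℝ} (hx : exp ((4 : ℝ) ^ J) ≤ x) {i : ℕ}
    (hi : i < J - 2) {p : GaussianInt} (hp : p ∈ BP J x i) : (nN p : ℝ) ^ 4 ≤ x := by
  have hx0 : 0 < x := lt_of_lt_of_le (exp_pos _) hx
  have hJ0 : (0 : ℝ) < J := by
    have : 0 < J := by omega
    exact_mod_cast this
  have hl : (4 : ℝ) ^ J ≤ log x := by
    rw [le_log_iff_exp_le hx0]; exact hx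
  have h4 : (1 : ℝ) ≤ (4 : ℝ) ^ J := one_le_pow₀ (by norm_num)
  have hl1 : 1 ≤ log x := h4.trans hl
  have hl0 : 0 < log x := by linarith
  have h1 := (mem_BP.1 hp).2.1
  have h2 : yy J x (i + 2) ≤ (log x) ^ (1 - 1 / (J : ℝ)) := by
    unfold yy
    apply rpow_le_rpow_of_exponent_le hl1
    rw [div_le_iff₀ hJ0, sub_mul, one_mul, div_mul_cancel₀ _ hJ0.ne']
    have : i + 2 + 1 ≤ J := by omega
    have h3 : ((i + 2 + 1 : ℕ) : ℝ) ≤ J := by exact_mod_cast this
    push_cast at h3 ⊢
    linarith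
  have h3 : (4 : ℝ) ≤ (log x) ^ (1 / (J : ℝ)) := by
    calc (4 : ℝ) = ((4 : ℝ) ^ J) ^ (1 / (J : ℝ)) := by
          rw [← rpow_natCast, ← rpow_mul (by norm_num), mul_one_div_cancel hJ0.ne', rpow_one]
      _ ≤ (log x) ^ (1 / (J : ℝ)) := rpow_le_rpow (by positivity) hl (by positivity)
  have h5 : 4 * (log x) ^ (1 - 1 / (J : ℝ)) ≤ log x := by
    calc 4 * (log x) ^ (1 - 1 / (J : ℝ)) ≤ (log x) ^ (1 / (J : ℝ)) * (log x) ^ (1 - 1 / (J : ℝ)) :=
          mul_le_mul_of_nonneg_right h3 (by positivity)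
      _ = log x := by
          rw [← rpow_add hl0]
          have : 1 / (J : ℝ) + (1 - 1 / (J : ℝ)) = 1 := by ring
          rw [this, rpow_one]
  calc (nN p : ℝ) ^ 4 ≤ (exp (yy J x (i + 2))) ^ 4 := pow_le_pow_left₀ (by positivity) h1 4
    _ = exp (4 * yy J x (i + 2)) := by
        rw [← exp_nat_mul]; norm_num
    _ ≤ exp (log x) := by
        apply exp_le_exp.2
        linarith
    _ = x := exp_log hx0

open Classical in
theorem TYPB (ε : ℝ) (hε : 0 < ε) (J : ℕ) (hJ : 3 ≤ J) : ∃ C x0 : ℝ, 0 < C ∧ 16 ≤ x0 ∧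
    ∀ x : ℝ, x0 ≤ x →
      (((ann 0 x).filter (fun u => ¬ Tp ε J x u)).card : ℝ) ≤ C * x / log (log x) := by
  obtain ⟨C1, hC1, hTYP⟩ := TYP ε hε
  obtain ⟨C3, hC3, hM⟩ := BP_mertens
  obtain ⟨D, hD, hTK⟩ := TK
  have hJ0 : (0 : ℝ) < J := by
    have : 0 < J := by omega
    exact_mod_cast this
  have hJ1 : (1 : ℝ) ≤ J := by
    have : 1 ≤ J := by omega
    exact_mod_cast this
  set K : ℝ := 4 * D * J ^ 2 * (C3 + 2) / ε ^ 2 with hK
  have hK0 : 0 < K := by positivity
  refine ⟨C1 + J * K, max (max 16 (exp ((4 : ℝ) ^ J)))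
    (max (exp (exp 1)) (exp (exp (2 * J * C3 / ε)))), by positivity,
    (le_max_left _ _).trans (le_max_left _ _), fun x hx => ?_⟩
  have hx16 : 16 ≤ x := ((le_max_left _ _).trans (le_max_left _ _)).trans hx
  have hx4 : exp ((4 : ℝ) ^ J) ≤ x := ((le_max_right _ _).trans (le_max_left _ _)).trans hx
  have hxe : exp (exp 1) ≤ x := ((le_max_left _ _).trans (le_max_right _ _)).trans hx
  have hxC : exp (exp (2 * J * C3 / ε)) ≤ x := ((le_max_right _ _).trans (le_max_right _ _)).trans hx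
  have hx0 : 0 < x := by linarith
  have hle : exp 1 ≤ log x := by rw [le_log_iff_exp_le hx0]; exact hxe
  have hl0 : 0 < log x := lt_of_lt_of_le (exp_pos _) hle
  set L : ℝ := log (log x) with hL
  have hL1 : 1 ≤ L := by rw [hL, le_log_iff_exp_le hl0]; exact hle
  have hL0 : 0 < L := by linarith
  have hLC : 2 * J * C3 / ε ≤ L := by
    rw [hL, le_log_iff_exp_le hl0, le_log_iff_exp_le hx0]; exact hxC
  have hx1 : exp 1 ≤ x := by
    refine le_trans ?_ hxe
    apply exp_le_exp.2
    have := add_one_le_exp (1 : ℝ)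
    linarith
  -- the bad sets
  set A1 := (ann 0 x).filter (fun u => (1 + ε) * L < (OmG u : ℝ)) with hA1
  set B : ℕ → Finset GaussianInt := fun i => (ann 0 x).filter (fun u =>
    ε * (L / J) < |(((BP J x i).filter (fun p => p ∣ u)).card : ℝ) - L / J|) with hB
  have hsub : (ann 0 x).filter (fun u => ¬ Tp ε J x u) ⊆
      A1 ∪ (Finset.range (J - 2)).biUnion B := by
    intro u hu
    rw [Finset.mem_filter] at hu
    rw [Finset.mem_union]
    by_contra hcon
    push Not at hcon
    obtain ⟨h1, h2⟩ := hcon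
    apply hu.2
    refine ⟨?_, fun i hi => ?_⟩
    · by_contra h3
      push Not at h3
      exact h1 (Finset.mem_filter.2 ⟨hu.1, h3⟩)
    · by_contra h3
      push Not at h3
      apply h2
      rw [Finset.mem_biUnion]
      exact ⟨i, Finset.mem_range.2 hi, Finset.mem_filter.2 ⟨hu.1, h3⟩⟩
  have hBi : ∀ i ∈ Finset.range (J - 2), ((B i).card : ℝ) ≤ K * x / L := by
    intro i hi
    rw [Finset.mem_range] at hi
    have hW := hM J x i (by omega) hx1
    rw [← hL] at hW
    set W : ℝ := ∑ p ∈ BP J x i, 1 / (nN p : ℝ) with hWdef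
    have h1 := hTK (BP J x i) x (by linarith) (fun p hp =>
      ⟨(mem_BP.1 hp).2.2, tb_norm hJ hx4 hi hp⟩)
    rw [← hWdef] at h1
    have hc : C3 ≤ ε / 2 * (L / J) := by
      rw [div_le_iff₀ hε] at hLC
      rw [← sub_nonneg]
      have : ε / 2 * (L / J) - C3 = (L * ε - 2 * J * C3) / (2 * J) := by
        field_simp
      rw [this]
      apply div_nonneg _ (by positivity)
      linarith
    have h2 : ((B i).card : ℝ) * (ε / 2 * (L / J)) ^ 2 ≤ D * x * (W + 1) := by
      refine le_trans ?_ h1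
      rw [← nsmul_eq_mul, ← Finset.sum_const]
      refine le_trans (Finset.sum_le_sum (g := fun u =>
        ((((BP J x i).filter (fun p => p ∣ u)).card : ℝ) - W) ^ 2) ?_)
        (Finset.sum_le_sum_of_subset_of_nonneg (Finset.filter_subset _ _) ?_)
      · intro u hu
        have h3 := (Finset.mem_filter.1 hu).2
        set c : ℝ := (((BP J x i).filter (fun p => p ∣ u)).card : ℝ) with hcdef
        have h4 : ε / 2 * (L / J) ≤ |c - W| := by
          have h5 : |c - L / J| ≤ |c - W| + |W - L / J| := by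
            have : c - L / J = (c - W) + (W - L / J) := by ring
            rw [this]
            exact abs_add_le _ _
          have h6 : ε * (L / J) = ε / 2 * (L / J) + ε / 2 * (L / J) := by ring
          linarith
        rw [← sq_abs (c - W)]
        exact pow_le_pow_left₀ (by positivity) h4 2
      · intro u _ _
        positivity
    have h3 : W + 1 ≤ (C3 + 2) * L := by
      have h4 := (abs_le.1 hW).2
      have h5 : L / J ≤ L := div_le_self hL0.le hJ1
      nlinarith
    have h4 : ((B i).card : ℝ) * (ε / 2 * (L / J)) ^ 2 ≤ D * x * ((C3 + 2) * L) :=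
      h2.trans (mul_le_mul_of_nonneg_left h3 (by positivity))
    rw [le_div_iff₀ hL0]
    have h5 : ((B i).card : ℝ) * L * (ε ^ 2 / (4 * J ^ 2) * L) ≤ K * x * (ε ^ 2 / (4 * J ^ 2) * L) := by
      have e1 : ((B i).card : ℝ) * L * (ε ^ 2 / (4 * J ^ 2) * L) =
          ((B i).card : ℝ) * (ε / 2 * (L / J)) ^ 2 := by
        field_simp
        ring
      have e2 : K * x * (ε ^ 2 / (4 * J ^ 2) * L) = D * x * ((C3 + 2) * L) := by
        rw [hK]
        field_simp
      rw [e1, e2]
      exact h4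
    exact le_of_mul_le_mul_right h5 (by positivity)
  have hcard : (((ann 0 x).filter (fun u => ¬ Tp ε J x u)).card : ℝ) ≤
      (A1.card : ℝ) + ∑ i ∈ Finset.range (J - 2), ((B i).card : ℝ) := by
    have h1 := (Finset.card_le_card hsub).trans (Finset.card_union_le _ _)
    have h2 := h1.trans (Nat.add_le_add_left Finset.card_biUnion_le _)
    exact_mod_cast h2
  have hA : (A1.card : ℝ) ≤ C1 * x / L := hTYP x hx16
  have hS : ∑ i ∈ Finset.range (J - 2), ((B i).card : ℝ) ≤ J * (K * x / L) := by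
    refine (Finset.sum_le_sum hBi).trans ?_
    rw [Finset.sum_const, Finset.card_range, nsmul_eq_mul]
    apply mul_le_mul_of_nonneg_right _ (by positivity)
    have : J - 2 ≤ J := Nat.sub_le _ _
    exact_mod_cast this
  calc (((ann 0 x).filter (fun u => ¬ Tp ε J x u)).card : ℝ)
      ≤ C1 * x / L + J * (K * x / L) := hcard.trans (add_le_add hA hS)
    _ = (C1 + J * K) * x / L := by ring

open Classical in
theorem TYPB2 (ε : ℝ) (hε : 0 < ε) (J : ℕ) (hJ : 3 ≤ J) : ∃ C x0 : ℝ, 0 < C ∧ 16 ≤ x0 ∧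
    ∀ x : ℝ, x0 ≤ x →
      (((ann 0 x).filter (fun u => ¬ (Tp ε J x u ∧ Tp ε J x (star u)))).card : ℝ) ≤
        C * x / log (log x) := by
  obtain ⟨C, x0, hC, hx0, h⟩ := TYPB ε hε J hJ
  refine ⟨2 * C, x0, by positivity, hx0, fun x hx => ?_⟩
  have h1 := h x hx
  have hx16 : 0 ≤ x := by linarith
  have hsub : (ann 0 x).filter (fun u => ¬ (Tp ε J x u ∧ Tp ε J x (star u))) ⊆
      (ann 0 x).filter (fun u => ¬ Tp ε J x u) ∪
        ((ann 0 x).filter (fun u => ¬ Tp ε J x u)).image star := by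
    intro u hu
    rw [Finset.mem_filter] at hu
    rw [Finset.mem_union]
    by_cases h2 : Tp ε J x u
    · right
      rw [Finset.mem_image]
      refine ⟨star u, ?_, star_star u⟩
      rw [Finset.mem_filter, mem_ann hx16, nN_star]
      exact ⟨(mem_ann hx16).1 hu.1, fun h3 => hu.2 ⟨h2, h3⟩⟩
    · left
      rw [Finset.mem_filter]
      exact ⟨hu.1, h2⟩
  have h2 := (Finset.card_le_card hsub).trans (Finset.card_union_le _ _)
  have h3 : (((ann 0 x).filter (fun u => ¬ Tp ε J x u)).image star).card ≤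
      ((ann 0 x).filter (fun u => ¬ Tp ε J x u)).card := Finset.card_image_le
  have h4 : (((ann 0 x).filter (fun u => ¬ (Tp ε J x u ∧ Tp ε J x (star u)))).card : ℝ) ≤
      2 * (((ann 0 x).filter (fun u => ¬ Tp ε J x u)).card : ℝ) := by
    have : ((ann 0 x).filter (fun u => ¬ (Tp ε J x u ∧ Tp ε J x (star u)))).card ≤
        2 * ((ann 0 x).filter (fun u => ¬ Tp ε J x u)).card := by omega
    exact_mod_cast this
  calc _ ≤ _ := h4
    _ ≤ 2 * (C * x / log (log x)) := by linarith
    _ = 2 * C * x / log (log x) := by ring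

end Pool.Agent.NSqD
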